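import Pool.Agent.Lib.MP_7baa7a_ag.CF.TrS

/-!
# Complete transverse flags with vanishing Kodaira-Spencer maps: block triangular matrices
-/

set_option autoImplicit false

noncomputable section

namespace Pool.Agent.CFl

open ExteriorAlgebra Finset

variable {k K : Type} [Field k] [Field K] [Algebra k K] {n p q : ℕ}

/-- the upper left block -/
def cL {α : Type} (A : Matrix (Fin (p + q)) (Fin (p + q)) α) : Matrix (Fin p) (Fin p) α :=
  A.submatrix (Fin.castAdd q) (Fin.castAdd q)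

/-- the lower right block -/
def cR {α : Type} (A : Matrix (Fin (p + q)) (Fin (p + q)) α) : Matrix (Fin q) (Fin q) α :=
  A.submatrix (Fin.natAdd p) (Fin.natAdd p)

/-- block upper triangular -/
def Bt {α : Type} [Zero α] (A : Matrix (Fin (p + q)) (Fin (p + q)) α) : Prop :=
  ∀ i j, A (Fin.natAdd p i) (Fin.castAdd q j) = 0

theorem Bt.mul {α : Type} [Ring α] {A B : Matrix (Fin (p + q)) (Fin (p + q)) α} (hA : Bt A) (hB : Bt B) :
    Bt (A * B) ∧ cL (A * B) = cL A * cL B ∧ cR (A * B) = cR A * cR B := by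
  refine ⟨?_, ?_, ?_⟩
  · intro i j
    rw [Matrix.mul_apply, Fin.sum_univ_add, Finset.sum_eq_zero, Finset.sum_eq_zero, add_zero]
    · intro c _
      rw [hB, mul_zero]
    · intro c _
      rw [hA, zero_mul]
  · ext i j
    show (A * B) _ _ = (cL A * cL B) i j
    rw [Matrix.mul_apply, Matrix.mul_apply, Fin.sum_univ_add]
    have h : ∑ c : Fin q, A (Fin.castAdd q i) (Fin.natAdd p c) * B (Fin.natAdd p c) (Fin.castAdd q j) = 0 := by
      refine Finset.sum_eq_zero fun c _ => ?_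
      rw [hB, mul_zero]
    rw [h, add_zero]
    rfl
  · ext i j
    show (A * B) _ _ = (cR A * cR B) i j
    rw [Matrix.mul_apply, Matrix.mul_apply, Fin.sum_univ_add]
    have h : ∑ c : Fin p, A (Fin.natAdd p i) (Fin.castAdd q c) * B (Fin.castAdd q c) (Fin.natAdd p j) = 0 := by
      refine Finset.sum_eq_zero fun c _ => ?_
      rw [hA, zero_mul]
    rw [h, zero_add]
    rfl

theorem Bt.pow {α : Type} [Ring α] {A : Matrix (Fin (p + q)) (Fin (p + q)) α} (hA : Bt A) (m : ℕ) :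
    Bt (A ^ (m + 1)) ∧ cL (A ^ (m + 1)) = cL A ^ (m + 1) ∧ cR (A ^ (m + 1)) = cR A ^ (m + 1) := by
  induction m with
  | zero =>
    rw [zero_add, pow_one, pow_one, pow_one]
    exact ⟨hA, rfl, rfl⟩
  | succ m ih =>
    obtain ⟨h1, h2, h3⟩ := ih
    obtain ⟨g1, g2, g3⟩ := h1.mul hA
    refine ⟨?_, ?_, ?_⟩
    · rw [pow_succ]
      exact g1
    · rw [pow_succ, g2, h2, ← pow_succ]
    · rw [pow_succ, g3, h3, ← pow_succ]

theorem tr_blk {α : Type} [Ring α] (A : Matrix (Fin (p + q)) (Fin (p + q)) α) :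
    A.trace = (cL A).trace + (cR A).trace := by
  rw [Matrix.trace, Fin.sum_univ_add]
  rfl

theorem Bt.tr {α : Type} [Ring α] {A : Matrix (Fin (p + q)) (Fin (p + q)) α} (hA : Bt A) (m : ℕ) :
    (A ^ (m + 1)).trace = (cL A ^ (m + 1)).trace + (cR A ^ (m + 1)).trace := by
  rw [tr_blk, (hA.pow m).2.1, (hA.pow m).2.2]

theorem one_cL {A : Matrix (Fin (p + q)) (Fin (p + q)) (Frm k K)} (h : OneF A) : OneF (cL A) := fun _ _ =>
  h _ _

theorem one_cR {A : Matrix (Fin (p + q)) (Fin (p + q)) (Frm k K)} (h : OneF A) : OneF (cR A) := fun _ _ =>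
  h _ _

theorem fl_cL {A : Matrix (Fin (p + q)) (Fin (p + q)) (Frm k K)} (hA : Bt A) (h : Fl A) : Fl (cL A) := by
  have h1 : cL (dM A + A * A) = 0 := by
    have h2 : dM A + A * A = 0 := h
    rw [h2]
    rfl
  unfold Fl
  rw [← (hA.mul hA).2.1]
  exact h1

theorem fl_cR {A : Matrix (Fin (p + q)) (Fin (p + q)) (Frm k K)} (hA : Bt A) (h : Fl A) : Fl (cR A) := by
  have h1 : cR (dM A + A * A) = 0 := by
    have h2 : dM A + A * A = 0 := h
    rw [h2]
    rfl
  unfold Fl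
  rw [← (hA.mul hA).2.2]
  exact h1

theorem gt_cL {α : Type} [Zero α] (A : Matrix (Fin (p + q)) (Fin (p + q)) α) {a b : ℕ} (ha : a < p)
    (hb : b < p) : gt (cL A) a b = gt A a b := by
  rw [gt_of _ ha hb, gt_of _ (by omega) (by omega)]
  rfl

theorem gt_cR {α : Type} [Zero α] (A : Matrix (Fin (p + q)) (Fin (p + q)) α) {a b : ℕ} (ha : a < q)
    (hb : b < q) : gt (cR A) a b = gt A (p + a) (p + b) := by
  rw [gt_of _ ha hb, gt_of _ (by omega) (by omega)]
  rfl

theorem up_cL {α : Type} [Zero α] {A : Matrix (Fin (p + q)) (Fin (p + q)) α} {t : ℤ} (h : Up t A) :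
    Up t (cL A) := by
  intro a b hab
  by_cases h1 : a < p ∧ b < p
  · rw [gt_cL _ h1.1 h1.2]
    exact h a b hab
  · exact gt_out _ h1

theorem up_cR {α : Type} [Zero α] {A : Matrix (Fin (p + q)) (Fin (p + q)) α} {t : ℤ} (h : Up t A) :
    Up t (cR A) := by
  intro a b hab
  by_cases h1 : a < q ∧ b < q
  · rw [gt_cR _ h1.1 h1.2]
    exact h _ _ (by push_cast; omega)
  · exact gt_out _ h1

/-- a vanishing Kodaira-Spencer map gives a block triangular matrix -/
theorem bt_of {a : ℕ} {A : Matrix (Fin (a + 1 + q)) (Fin (a + 1 + q)) (Frm k K)} (hH : Up (-1) A)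
    (h : gt A (a + 1) a = 0) : Bt A := by
  intro i j
  have h1 := gt_of A (Fin.natAdd (a + 1) i).2 (Fin.castAdd q j).2
  have h2 : gt A (a + 1 + i) j = A (Fin.natAdd (a + 1) i) (Fin.castAdd q j) := h1
  rw [← h2]
  obtain ⟨i, hi⟩ := i
  obtain ⟨j, hj⟩ := j
  show gt A (a + 1 + i) j = 0
  by_cases hc : i = 0 ∧ j = a
  · obtain ⟨rfl, rfl⟩ := hc
    exact h
  · exact hH _ _ (by push_cast; omega)

/-- the conclusion of the general theorem -/
def Con (A : Matrix (Fin n) (Fin n) (Frm k K)) : Prop :=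
  (∀ m : ℕ, 1 ≤ m → Ex ((A ^ (2 * m + 3)).trace)) ∧
    ∃ (s : ℕ) (N : Fin s → ℕ) (B : Fin s → Matrix (Fin 2) (Fin 2) (Frm k K)),
      ∑ i, N i = n ∧ (∀ i, 1 ≤ N i) ∧ (∀ i, OneF (B i) ∧ Fl (B i) ∧ (B i).trace = 0) ∧
        Ex ((A ^ 3).trace - ∑ i, ((((N i : ℕ) : K) ^ 3 - (N i : ℕ)) / 6) • (B i ^ 3).trace)

theorem Con.blk {A : Matrix (Fin (p + q)) (Fin (p + q)) (Frm k K)} (hA : Bt A) (hL : Con (cL A))
    (hR : Con (cR A)) : Con A := by
  obtain ⟨l1, s, N, B, l2, l3, l4, l5⟩ := hL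
  obtain ⟨r1, s', N', B', r2, r3, r4, r5⟩ := hR
  refine ⟨?_, s + s', Fin.append N N', Fin.append B B', ?_, ?_, ?_, ?_⟩
  · intro m hm
    rw [hA.tr]
    exact (l1 m hm).add (r1 m hm)
  · rw [Fin.sum_univ_add]
    simp only [Fin.append_left, Fin.append_right]
    rw [l2, r2]
  · intro i
    refine Fin.addCases (fun i => ?_) (fun i => ?_) i
    · rw [Fin.append_left]
      exact l3 i
    · rw [Fin.append_right]
      exact r3 i
  · intro i
    refine Fin.addCases (fun i => ?_) (fun i => ?_) i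
    · rw [Fin.append_left]
      exact l4 i
    · rw [Fin.append_right]
      exact r4 i
  · rw [Fin.sum_univ_add]
    simp only [Fin.append_left, Fin.append_right]
    rw [hA.tr 2]
    have h := l5.add r5
    rwa [show ∀ a b c d : Frm k K, a - b + (c - d) = a + c - (b + d) from fun a b c d => by abel] at h

theorem Fl.zero : Fl (0 : Matrix (Fin n) (Fin n) (Frm k K)) := by
  unfold Fl
  rw [dM_zero, mul_zero, add_zero]

theorem con_small {A : Matrix (Fin n) (Fin n) (Frm k K)} (hA : OneF A) (hn : n < 2) : Con A := by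
  have hsq : A * A = 0 := by
    ext i j
    have hs : Subsingleton (Fin n) := by
      rw [Fin.subsingleton_iff_le_one]
      omega
    rw [Matrix.mul_apply, Matrix.zero_apply]
    refine Finset.sum_eq_zero fun c _ => ?_
    rw [Subsingleton.elim c i, Subsingleton.elim j i]
    obtain ⟨w, hw⟩ := hA i i
    rw [hw, ι_sq_zero]
  have hp : ∀ m : ℕ, A ^ (m + 2) = 0 := fun m => by rw [pow_add, pow_two, hsq, mul_zero]
  refine ⟨fun m _ => ?_, n, fun _ => 1, fun _ => 0, ?_, fun _ => le_rfl, fun _ => ⟨?_, Fl.zero, ?_⟩, ?_⟩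
  · rw [show 2 * m + 3 = 2 * m + 1 + 2 by ring, hp, Matrix.trace_zero]
    exact Ex.zero
  · simp
  · exact fun i j => ⟨0, by rw [map_zero]; rfl⟩
  · exact Matrix.trace_zero _ _
  · rw [hp 1, Matrix.trace_zero]
    have : (0 : Matrix (Fin 2) (Fin 2) (Frm k K)) ^ 3 = 0 := zero_pow (by omega)
    simp only [this, Matrix.trace_zero, smul_zero, Finset.sum_const_zero, sub_zero]
    exact Ex.zero

/-- the rank two connection -/
theorem two_fl {γ η : Ω[K⁄k]} {ψ : ℕ → Ω[K⁄k]} (h1 : dd k K (ι K γ) = (2 : K) • (ι K γ * ι K η))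
    (h2 : dd k K (ι K η) = -(ι K γ * ι K (ψ 1))) (h3 : dd k K (ι K (ψ 1)) = (2 : K) • (ι K η * ι K (ψ 1))) :
    Fl (S 2 0 γ η ψ 2) ∧ (S 2 0 γ η ψ 2).trace = 0 := by
  have e : S 2 0 γ η ψ 2 = S 2 0 γ η (fun t => if t = 1 then ψ 1 else 0) 2 := by
    refine S_congr _ _ _ fun t ht1 ht2 => ?_
    have : t = 1 := by omega
    rw [this, if_pos rfl]
  refine ⟨?_, ?_⟩
  · unfold Fl
    rw [e, curv]
    · unfold Cu
      have hi : Ico 1 2 = {1} := rfl
      rw [hi, Finset.sum_singleton, Finset.sum_singleton]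
      beta_reduce
      rw [if_pos rfl, if_pos rfl, map_zero, map_zero, h1, h2, h3, sub_self, neg_add_cancel, Nat.cast_one, mul_one,
        sub_self, T_zero_left, T_zero_left, T_zero_left, T_zero_left]
      simp
    · intro t ht
      rw [if_neg (by omega), map_zero, mul_zero]
    · omega
  · unfold S
    have hi : Ico 1 2 = {1} := rfl
    rw [hi, Finset.sum_singleton, map_zero, T_zero_left, zero_add, Matrix.trace_add, Matrix.trace_add, tr_T, tr_T, tr_T,
      tr_e, tr_h, tr_f 1 le_rfl, zero_smul, zero_smul, zero_smul, add_zero, add_zero]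

theorem tr_two (γ η ζ : Ω[K⁄k]) (ψ : ℕ → Ω[K⁄k]) :
    (S 2 ζ γ η ψ 2 ^ 3).trace = -((6 : K) • (ι K γ * ι K η * ι K (ψ 1))) := by
  have e : S 2 ζ γ η ψ 2 = S 2 ζ γ η (fun t => if t = 1 then ψ 1 else 0) 2 := by
    refine S_congr _ _ _ fun t ht1 ht2 => ?_
    have : t = 1 := by omega
    rw [this, if_pos rfl]
  rw [e, tr_S3]
  · rw [if_pos rfl]
    norm_num
  · intro t ht
    rw [if_neg (by omega), map_zero, mul_zero]
  · omega

/-- nonzero Kodaira-Spencer maps -/
theorem con_ks [CharZero K] {A : Matrix (Fin n) (Fin n) (Frm k K)} (hA : OneF A) (hF : Fl A) (hH : Up (-1) A)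
    (hne : ∀ a, a + 1 < n → gt A (a + 1) a ≠ 0) (hn : 2 ≤ n) : Con A := by
  obtain ⟨ζ, γ, η, ψ, _, ⟨g, hg, _, h2⟩, h3, h4, _⟩ := nf hA hF hH hne hn
  have hex := fun m => Gau.ex hA hF ⟨g, hg, h2⟩ m
  obtain ⟨r1, r2, r3, r4⟩ := rels hn h4 h3
  have r5 := r4 1 le_rfl (by omega)
  rw [Nat.cast_one, mul_one] at r5
  obtain ⟨b1, b2⟩ := two_fl r2 r3 r5
  refine ⟨?_, 1, fun _ => n, fun _ => S 2 0 γ η ψ 2, ?_, ?_, ?_, ?_⟩
  · intro m hm
    have h := hex m
    rw [show 2 * m + 3 = 4 + (2 * m - 1) by omega, pow_add (S n ζ γ η ψ n), S_four _ _ _ _ h4 hn, zero_mul,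
      Matrix.trace_zero, zero_sub] at h
    have h' := h.neg
    rwa [neg_neg, show 4 + (2 * m - 1) = 2 * m + 3 by omega] at h'
  · rw [Fin.sum_univ_one]
  · exact fun _ => le_trans one_le_two hn
  · exact fun _ => ⟨one_S _ _ _ _ _, b1, b2⟩
  · have h := (hex 0).neg
    rw [mul_zero, zero_add, tr_S3 _ _ _ _ h4 hn, neg_sub] at h
    rw [Fin.sum_univ_one, tr_two]
    have e : (((n : K) ^ 3 - n) / 6) • -((6 : K) • (ι K γ * ι K η * ι K (ψ 1))) =
        -(((n : K) ^ 3 - n) • (ι K γ * ι K η * ι K (ψ 1))) := by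
      rw [smul_neg, smul_smul, div_mul_cancel₀]
      norm_num
    rw [e]
    exact h

/-- **Theorem: the traces for an arbitrary complete transverse flag.** -/
theorem con [CharZero K] (n : ℕ) : ∀ {A : Matrix (Fin n) (Fin n) (Frm k K)}, OneF A → Fl A → Up (-1) A → Con A := by
  induction n using Nat.strong_induction_on with
  | _ n ih =>
    intro A hA hF hH
    by_cases hn : n < 2
    · exact con_small hA hn
    · by_cases h : ∀ a, a + 1 < n → gt A (a + 1) a ≠ 0
      · exact con_ks hA hF hH h (by omega)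
      · push Not at h
        obtain ⟨a, ha, h0⟩ := h
        obtain ⟨q, rfl⟩ : ∃ q, n = a + 1 + q := ⟨n - (a + 1), by omega⟩
        have hB := bt_of hH h0
        exact Con.blk hB (ih (a + 1) (by omega) (one_cL hA) (fl_cL hB hF) (up_cL hH))
          (ih q (by omega) (one_cR hA) (fl_cR hB hF) (up_cR hH))

end Pool.Agent.CFl
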