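import Mathlib.LinearAlgebra.ExteriorAlgebra.Basic
import Mathlib.LinearAlgebra.CliffordAlgebra.Conjugation
import Mathlib.LinearAlgebra.Matrix.Trace
import Mathlib.RingTheory.Kaehler.Basic

/-!
# Algebraic connections on `K ^ n`: definitions

`K` is a field extension of `k` (for example the field of rational functions of a complex variety);
`Ω[K⁄k]` are its Kähler differentials.
-/

set_option autoImplicit false

noncomputable section

namespace Pool.Agent.CFD

open ExteriorAlgebra KaehlerDifferential

variable {k K : Type} [Field k] [Field K] [Algebra k K] {n : ℕ}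

variable (k K) in
/-- The algebra of differential forms of `K` over `k`: the exterior algebra of the Kähler differentials. -/
abbrev Forms : Type := ExteriorAlgebra K (Ω[K⁄k])

/-- `d` is the exterior derivative: an additive map on forms with `d f = D f`, `d (D f) = 0` for `f ∈ K` and
`d (x y) = d x y + x' d y`, where `x'` is `(-1) ^ p x` for a `p`-form `x`. -/
structure IsDeRham (d : Forms k K →+ Forms k K) : Prop where
  fn : ∀ f : K, d (algebraMap K (Forms k K) f) = ι K (D k K f)
  df : ∀ f : K, d (ι K (D k K f)) = 0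
  leib : ∀ x y : Forms k K,
    d (x * y) = d x * y + CliffordAlgebra.involute (Q := (0 : QuadraticForm K (Ω[K⁄k]))) x * d y

/-- A form is exact. -/
def Exact (d : Forms k K →+ Forms k K) (x : Forms k K) : Prop := ∃ y, d y = x

/-- A matrix of one-forms as a matrix with entries in the algebra of forms. -/
def up (A : Matrix (Fin n) (Fin n) (Ω[K⁄k])) : Matrix (Fin n) (Fin n) (Forms k K) := A.map (ι K)

/-- The connection `d + A` on `K ^ n` is flat: `d A + A A = 0`. -/
def Flat (d : Forms k K →+ Forms k K) (A : Matrix (Fin n) (Fin n) (Ω[K⁄k])) : Prop :=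
  ∀ i j, d (ι K (A i j)) + (up A * up A) i j = 0

/-- The form `Tr (A ^ m)`. -/
def trp (A : Matrix (Fin n) (Fin n) (Ω[K⁄k])) (m : ℕ) : Forms k K := (up A ^ m).trace

/-- The covariant derivative `d u + A u` of a vector `u ∈ K ^ n`. -/
def nabla (A : Matrix (Fin n) (Fin n) (Ω[K⁄k])) (u : Fin n → K) (i : Fin n) : Ω[K⁄k] :=
  D k K (u i) + ∑ c, u c • A i c

/-- The subspace `U` of `K ^ n` is stable: `∇ U ⊆ Ω ⊗ U`, which is tested with the linear forms `φ` which
vanish on `U`. -/
def Stable (A : Matrix (Fin n) (Fin n) (Ω[K⁄k])) (U : Submodule K (Fin n → K)) : Prop :=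
  ∀ u ∈ U, ∀ φ : Fin n → K, (∀ x ∈ U, ∑ i, φ i * x i = 0) → ∑ i, φ i • nabla A u i = 0

/-- `A'` is the matrix of the connection `d + A` in the basis of `K ^ n` given by the columns of `g`:
`∇ g_j = ∑ c, A' c j g_c`. -/
def Frame (A A' : Matrix (Fin n) (Fin n) (Ω[K⁄k])) (g : Matrix (Fin n) (Fin n) K) : Prop :=
  IsUnit g ∧ ∀ i j, nabla A (fun c => g c j) i = ∑ c, g i c • A' c j

variable (K n) in
/-- Ones just below the diagonal. -/
def E : Matrix (Fin n) (Fin n) K := Matrix.of fun i j => if (i : ℕ) = j + 1 then 1 else 0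

variable (K n) in
/-- The diagonal matrix with entries `2 i + 1 - n`, `i = 0, ..., n - 1`. -/
def H : Matrix (Fin n) (Fin n) K := Matrix.of fun i j => if i = j then 2 * ((i : ℕ) : K) + 1 - n else 0

variable (K n) in
/-- The matrix with entries `j (n - j)` just above the diagonal. -/
def F : Matrix (Fin n) (Fin n) K :=
  Matrix.of fun i j => if (j : ℕ) = i + 1 then (((j : ℕ) * (n - j) : ℕ) : K) else 0

variable (n) in
/-- The normal form `ζ 1 + γ E + η H + β F + ∑ q t γ F ^ t`, `2 ≤ t < n`. -/
def nform (ζ γ η β : Ω[K⁄k]) (q : ℕ → K) : Matrix (Fin n) (Fin n) (Ω[K⁄k]) := fun i j =>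
  (1 : Matrix (Fin n) (Fin n) K) i j • ζ + E K n i j • γ + H K n i j • η + F K n i j • β +
    ∑ t ∈ Finset.Ico 2 n, (q t * (F K n ^ t) i j) • γ

end Pool.Agent.CFD
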