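import Pool.Agent.Lib.MP_7baa7a_ag.CF.Cyc
import Pool.Agent.Lib.MP_7baa7a_ag.CF.Def

/-!
# From the definitions of the statements to the definitions of the proof
-/

set_option autoImplicit false

noncomputable section

namespace Pool.Agent.CFl

open ExteriorAlgebra Finset

variable {k K : Type} [Field k] [Field K] [Algebra k K] {n : ℕ}

theorem isDR_dd : CFD.IsDeRham (dd k K) := ⟨dd_alg, dd_D, dd_mul⟩

theorem isDR_uniq {d : Frm k K →+ Frm k K} (h : CFD.IsDeRham d) : d = dd k K := by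
  refine AddMonoidHom.ext fun x => ?_
  induction x using ExteriorAlgebra.induction with
  | algebraMap r => rw [h.fn, dd_alg]
  | ι v =>
    induction v using om_ind with
    | h0 f g =>
      rw [map_smul, Algebra.smul_def, h.leib, h.fn, h.df, dd_mul, dd_alg, dd_D]
      rfl
    | ha v w hv hw => rw [map_add, map_add, map_add, hv, hw]
  | mul a b ha hb =>
    rw [h.leib, dd_mul, ha, hb]
    rfl
  | add a b ha hb => rw [map_add, map_add, ha, hb]

theorem one_up (A : Matrix (Fin n) (Fin n) (Ω[K⁄k])) : OneF (CFD.up A) := fun i j => ⟨A i j, rfl⟩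

theorem up_of {B : Matrix (Fin n) (Fin n) (Frm k K)} (h : OneF B) : ∃ A, B = CFD.up A := by
  choose w hw using h
  exact ⟨Matrix.of w, by ext i j; exact hw i j⟩

theorem fl_iff (A : Matrix (Fin n) (Fin n) (Ω[K⁄k])) : Fl (CFD.up A) ↔ CFD.Flat (dd k K) A := by
  constructor
  · intro h i j
    have h1 : dM (CFD.up A) + CFD.up A * CFD.up A = 0 := h
    exact congrFun (congrFun h1 i) j
  · intro h
    show dM (CFD.up A) + CFD.up A * CFD.up A = 0
    ext i j
    exact h i j

theorem cv_nabla (A : Matrix (Fin n) (Fin n) (Ω[K⁄k])) (u : Fin n → K) (i : Fin n) :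
    cv (CFD.up A) u i = ι K (CFD.nabla A u i) := by
  unfold cv CFD.nabla
  rw [map_add, map_sum]
  congr 1
  refine Finset.sum_congr rfl fun c _ => ?_
  rw [map_smul]
  rfl

theorem stb_iff (A : Matrix (Fin n) (Fin n) (Ω[K⁄k])) (U : Submodule K (Fin n → K)) :
    Stb (CFD.up A) U ↔ CFD.Stable A U := by
  have h1 : ∀ (u : Fin n → K) (φ : Fin n → K), ∑ i, φ i • cv (CFD.up A) u i = ι K (∑ i, φ i • CFD.nabla A u i) := by
    intro u φ
    rw [map_sum]
    exact Finset.sum_congr rfl fun i _ => by rw [cv_nabla, map_smul]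
  constructor
  · intro h u hu φ hφ
    have h2 := h u hu φ hφ
    rw [h1] at h2
    exact (ι_eq_zero_iff _).1 h2
  · intro h u hu φ hφ
    rw [h1, h u hu φ hφ, map_zero]

theorem frame_iff (A A' : Matrix (Fin n) (Fin n) (Ω[K⁄k])) (g : Matrix (Fin n) (Fin n) K) :
    (emb k g * CFD.up A' = CFD.up A * emb k g + dM (emb k g)) ↔
      ∀ i j, CFD.nabla A (fun c => g c j) i = ∑ c, g i c • A' c j := by
  have h1 : ∀ i j, (emb k g * CFD.up A') i j = ι K (∑ c, g i c • A' c j) := by
    intro i j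
    rw [Matrix.mul_apply, map_sum]
    refine Finset.sum_congr rfl fun c _ => ?_
    rw [map_smul, Algebra.smul_def]
    rfl
  have h2 : ∀ i j, (CFD.up A * emb k g + dM (emb k g)) i j = ι K (CFD.nabla A (fun c => g c j) i) := by
    intro i j
    rw [← cv_nabla, Matrix.add_apply, Matrix.mul_apply]
    unfold cv
    rw [add_comm]
    congr 1
    · exact dd_alg _
    · refine Finset.sum_congr rfl fun c _ => ?_
      rw [Algebra.smul_def, Algebra.commutes]
      rfl
  constructor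
  · intro h i j
    have h3 := congrFun (congrFun h i) j
    rw [h1, h2] at h3
    exact ((ι_inj K _ _).1 h3).symm
  · intro h
    ext i j
    rw [h1, h2, h]

theorem F_eq : CFD.F K n = fM K n := by
  ext i j
  show (if (j : ℕ) = i + 1 then (((j : ℕ) * (n - j) : ℕ) : K) else 0) =
    Nat.castRingHom K (if (j : ℕ) = i + 1 then (j : ℕ) * (n - j) else 0)
  split_ifs
  · rfl
  · exact (map_zero _).symm

theorem up_nform (ζ γ η : Ω[K⁄k]) (ψ : ℕ → Ω[K⁄k]) (q : ℕ → K) (hn : 2 ≤ n)
    (hq : ∀ t, 2 ≤ t → t < n → ψ t = q t • γ) :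
    S n ζ γ η ψ n = CFD.up (CFD.nform n ζ γ η (ψ 1) q) := by
  have hs : ∀ (s : Finset ℕ) (i j : Fin n), (∑ t ∈ s, T (ι K (ψ t)) (fM K n ^ t)) i j =
      ∑ t ∈ s, (fM K n ^ t) i j • ι K (ψ t) := by
    intro s i j
    rw [Matrix.sum_apply]
    rfl
  have hF : CFD.F K n = fM K n := F_eq
  ext i j
  show (T (ι K ζ) 1 + T (ι K γ) (eM K n) + T (ι K η) (hM K n) + ∑ t ∈ Ico 1 n, T (ι K (ψ t)) (fM K n ^ t) :
      Matrix (Fin n) (Fin n) (Frm k K)) i j =
    ι K ((1 : Matrix (Fin n) (Fin n) K) i j • ζ + eM K n i j • γ + hM K n i j • η + CFD.F K n i j • ψ 1 +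
      ∑ t ∈ Finset.Ico 2 n, (q t * (CFD.F K n ^ t) i j) • γ)
  rw [Matrix.add_apply, Matrix.add_apply, Matrix.add_apply, hs, Finset.sum_eq_sum_Ico_succ_bot (by omega : 1 < n),
    pow_one, map_add, map_add, map_add, map_add, map_sum, map_smul, map_smul, map_smul, map_smul, hF, ← add_assoc]
  congr 1
  refine Finset.sum_congr rfl fun t ht => ?_
  rw [Finset.mem_Ico] at ht
  rw [hq t ht.1 ht.2, map_smul, map_smul, smul_smul, mul_comm]

/-- the rank two connection -/
theorem up_two (γ η : Ω[K⁄k]) (ψ : ℕ → Ω[K⁄k]) :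
    S 2 0 γ η ψ 2 = CFD.up (!![-η, ψ 1; γ, η] : Matrix (Fin 2) (Fin 2) (Ω[K⁄k])) := by
  rw [up_nform (n := 2) 0 γ η ψ (fun _ => 0) le_rfl (fun t h1 h2 => by omega)]
  congr 1
  ext i j
  unfold CFD.nform CFD.E CFD.H CFD.F
  rw [Finset.Ico_self, Finset.sum_empty, add_zero, smul_zero, zero_add]
  fin_cases i <;> fin_cases j
  · simp
    norm_num
  · simp
    norm_num
  · simp
  · simp

end Pool.Agent.CFl
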