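import Pool.Agent.Lib.MP_7baa7a_ag.CF.Blk

/-!
# Flat connections generated by a line with second fundamental form of rank one
-/

set_option autoImplicit false

noncomputable section

namespace Pool.Agent.CFl

open ExteriorAlgebra Finset

variable {k K : Type} [Field k] [Field K] [Algebra k K] {n : ℕ}

/-- the covariant derivative of a vector of forms -/
def nb (A : Matrix (Fin n) (Fin n) (Frm k K)) (X : Fin n → Frm k K) (i : Fin n) : Frm k K :=
  dd k K (X i) + ∑ c, A i c * X c

/-- the covariant derivative of a vector of functions -/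
def cv (A : Matrix (Fin n) (Fin n) (Frm k K)) (u : Fin n → K) (i : Fin n) : Frm k K :=
  ι K (KaehlerDifferential.D k K (u i)) + ∑ c, u c • A i c

theorem nb_nb {A : Matrix (Fin n) (Fin n) (Frm k K)} (hA : OneF A) (hF : Fl A) (X : Fin n → Frm k K) (i : Fin n) :
    nb A (nb A X) i = 0 := by
  unfold nb
  rw [map_add, dd_dd, zero_add, map_sum]
  have h1 : ∑ c, dd k K (A i c * X c) = ∑ c, dM A i c * X c - ∑ c, A i c * dd k K (X c) := by
    rw [← Finset.sum_sub_distrib]
    refine Finset.sum_congr rfl fun c _ => ?_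
    obtain ⟨w, hw⟩ := hA i c
    show dd k K (A i c * X c) = dd k K (A i c) * X c - A i c * dd k K (X c)
    rw [dd_mul, hw, sg_ι, neg_mul, sub_eq_add_neg]
  have h2 : ∑ c, A i c * (dd k K (X c) + ∑ e, A c e * X e) =
      ∑ c, A i c * dd k K (X c) + ∑ e, (A * A) i e * X e := by
    have h3 : ∑ e, (A * A) i e * X e = ∑ c, A i c * ∑ e, A c e * X e := by
      simp only [Matrix.mul_apply, Finset.sum_mul, Finset.mul_sum]
      rw [Finset.sum_comm]
      exact Finset.sum_congr rfl fun c _ => Finset.sum_congr rfl fun e _ => mul_assoc _ _ _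
    rw [h3, ← Finset.sum_add_distrib]
    exact Finset.sum_congr rfl fun c _ => mul_add _ _ _
  rw [h1, h2]
  have h4 : ∑ c, dM A i c * X c + ∑ e, (A * A) i e * X e = 0 := by
    rw [← Finset.sum_add_distrib]
    refine Finset.sum_eq_zero fun c _ => ?_
    rw [← add_mul]
    have h5 : dM A i c + (A * A) i c = 0 := by
      have h6 : dM A + A * A = 0 := hF
      exact congrFun (congrFun h6 i) c
    rw [h5, zero_mul]
  rw [← h4]
  abel

theorem nb_vw (A : Matrix (Fin n) (Fin n) (Frm k K)) (u : Fin n → K) (w : Frm k K) (i : Fin n) :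
    nb A (fun r => u r • w) i = cv A u i * w + u i • dd k K w := by
  unfold nb cv
  rw [dd_smul, add_mul, Finset.sum_mul]
  have h1 : ∑ c, A i c * (u c • w) = ∑ c, u c • A i c * w :=
    Finset.sum_congr rfl fun c _ => by rw [mul_smul_comm, smul_mul_assoc]
  rw [h1]
  abel

theorem nb_add (A : Matrix (Fin n) (Fin n) (Frm k K)) (X Y : Fin n → Frm k K) (i : Fin n) :
    nb A (fun r => X r + Y r) i = nb A X i + nb A Y i := by
  unfold nb
  rw [map_add]
  simp only [mul_add, Finset.sum_add_distrib]
  abel

theorem nb_sum (A : Matrix (Fin n) (Fin n) (Frm k K)) (X : ℕ → Fin n → Frm k K) (s : Finset ℕ) (i : Fin n) :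
    nb A (fun r => ∑ c ∈ s, X c r) i = ∑ c ∈ s, nb A (X c) i := by
  induction s using Finset.induction_on with
  | empty =>
    simp only [Finset.sum_empty]
    unfold nb
    simp
  | insert a s ha ih =>
    simp only [Finset.sum_insert ha]
    rw [nb_add, ih]

theorem one_cv {A : Matrix (Fin n) (Fin n) (Frm k K)} (hA : OneF A) (u : Fin n → K) (i : Fin n) :
    ∃ w : Ω[K⁄k], cv A u i = ι K w := by
  choose w hw using fun c => hA i c
  refine ⟨KaehlerDifferential.D k K (u i) + ∑ c, u c • w c, ?_⟩
  unfold cv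
  rw [map_add, map_sum]
  congr 1
  exact Finset.sum_congr rfl fun c _ => by rw [hw, map_smul]

/-- a vector of forms with values in the span of `v 0, ..., v j` -/
def InL (v : ℕ → Fin n → K) (j : ℕ) (X : Fin n → Frm k K) : Prop :=
  ∃ θ : ℕ → Frm k K, ∀ r, X r = ∑ e ∈ range (j + 1), v e r • θ e

theorem InL.add {v : ℕ → Fin n → K} {j : ℕ} {X Y : Fin n → Frm k K} (hX : InL v j X) (hY : InL v j Y) :
    InL v j (fun r => X r + Y r) := by
  obtain ⟨θ, h1⟩ := hX
  obtain ⟨θ', h2⟩ := hY
  refine ⟨fun e => θ e + θ' e, fun r => ?_⟩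
  beta_reduce
  rw [h1, h2, ← Finset.sum_add_distrib]
  exact Finset.sum_congr rfl fun e _ => (smul_add _ _ _).symm

theorem InL.neg {v : ℕ → Fin n → K} {j : ℕ} {X : Fin n → Frm k K} (hX : InL v j X) :
    InL v j (fun r => -X r) := by
  obtain ⟨θ, h1⟩ := hX
  refine ⟨fun e => -θ e, fun r => ?_⟩
  beta_reduce
  rw [h1, ← Finset.sum_neg_distrib]
  exact Finset.sum_congr rfl fun e _ => (smul_neg _ _).symm

theorem InL.mul {v : ℕ → Fin n → K} {j : ℕ} {X : Fin n → Frm k K} (hX : InL v j X) (w : Frm k K) :
    InL v j (fun r => X r * w) := by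
  obtain ⟨θ, h1⟩ := hX
  refine ⟨fun e => θ e * w, fun r => ?_⟩
  beta_reduce
  rw [h1, Finset.sum_mul]
  exact Finset.sum_congr rfl fun e _ => smul_mul_assoc _ _ _

theorem InL.sum {v : ℕ → Fin n → K} {j : ℕ} {X : ℕ → Fin n → Frm k K} (s : Finset ℕ)
    (h : ∀ c ∈ s, InL v j (X c)) : InL v j (fun r => ∑ c ∈ s, X c r) := by
  induction s using Finset.induction_on with
  | empty => exact ⟨fun _ => 0, fun r => by simp⟩
  | insert a s ha ih =>
    simp only [Finset.sum_insert ha]
    exact (h a (Finset.mem_insert_self _ _)).add (ih fun c hc => h c (Finset.mem_insert_of_mem hc))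

theorem InL.vw (v : ℕ → Fin n → K) {j e : ℕ} (he : e ≤ j) (w : Frm k K) : InL v j (fun r => v e r • w) := by
  refine ⟨fun c => if c = e then w else 0, fun r => ?_⟩
  beta_reduce
  rw [Finset.sum_eq_single e]
  · rw [if_pos rfl]
  · intro c _ hc
    rw [if_neg hc, smul_zero]
  · intro h
    rw [Finset.mem_range] at h
    omega

/-- the derived flag -/
def Chain (A : Matrix (Fin n) (Fin n) (Frm k K)) (l : Fin n → K) (γ : Ω[K⁄k]) (j : ℕ) (v : ℕ → Fin n → K) : Prop :=
  v 0 = l ∧ LinearIndependent K (fun i : Fin (j + 1) => v i) ∧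
    ∀ i, i < j → ∃ a : ℕ → Ω[K⁄k], ∀ r, cv A (v i) r = ∑ c ∈ range (i + 1), v c r • ι K (a c) + v (i + 1) r • ι K γ

/-- the next step -/
def Next (A : Matrix (Fin n) (Fin n) (Frm k K)) (γ : Ω[K⁄k]) (j : ℕ) (v : ℕ → Fin n → K) : Prop :=
  ∃ (a : ℕ → Ω[K⁄k]) (x : Fin n → K), ∀ r, cv A (v j) r = ∑ c ∈ range (j + 1), v c r • ι K (a c) + x r • ι K γ

theorem dual_fam {j : ℕ} {v : ℕ → Fin n → K} (h : LinearIndependent K (fun i : Fin (j + 1) => v i)) :
    ∃ φ : ℕ → Fin n → K, ∀ c, c < j + 1 → ∀ d, d < j + 1 → ∑ r, φ c r * v d r = if c = d then 1 else 0 := by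
  have hinj : LinearMap.ker (Fintype.linearCombination K (fun i : Fin (j + 1) => v i)) = ⊥ := by
    rw [LinearMap.ker_eq_bot]
    exact h.fintypeLinearCombination_injective
  obtain ⟨g, hg⟩ := LinearMap.exists_leftInverse_of_injective _ hinj
  refine ⟨fun c r => if hc : c < j + 1 then g (Pi.single r 1) ⟨c, hc⟩ else 0, fun c hc d hd => ?_⟩
  have h1 : ∑ r, (if hc : c < j + 1 then g (Pi.single r 1) ⟨c, hc⟩ else 0) * v d r = g (v d) ⟨c, hc⟩ := by
    simp only [dif_pos hc]
    have h2 : v d = ∑ r, v d r • (Pi.single r (1 : K) : Fin n → K) := by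
      funext s
      rw [Finset.sum_apply]
      simp [Pi.single_apply]
    conv_rhs => rw [h2]
    rw [map_sum, Finset.sum_apply]
    refine Finset.sum_congr rfl fun r _ => ?_
    rw [map_smul, Pi.smul_apply, smul_eq_mul, mul_comm]
  rw [h1]
  have h3 := LinearMap.congr_fun hg (Pi.single ⟨d, hd⟩ 1)
  rw [LinearMap.comp_apply, LinearMap.id_apply, Fintype.linearCombination_apply] at h3
  have h4 : ∑ i : Fin (j + 1), (Pi.single ⟨d, hd⟩ (1 : K) : Fin (j + 1) → K) i • v i = v d := by
    rw [Finset.sum_eq_single ⟨d, hd⟩]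
    · rw [Pi.single_eq_same, one_smul]
    · intro b _ hb
      rw [Pi.single_eq_of_ne hb, zero_smul]
    · intro h
      exact absurd (Finset.mem_univ _) h
  rw [h4] at h3
  rw [h3, Pi.single_apply]
  simp only [Fin.mk.injEq]

theorem next {A : Matrix (Fin n) (Fin n) (Frm k K)} (hA : OneF A) (hF : Fl A) {l : Fin n → K} {γ : Ω[K⁄k]}
    (hγ : γ ≠ 0) {j : ℕ} {v : ℕ → Fin n → K} (hC : Chain A l γ (j + 1) v) : Next A γ (j + 1) v := by
  obtain ⟨_, hli, hst⟩ := hC
  -- the derivative of `v (j + 1)` times `γ`
  have hkey : InL v (j + 1) (fun r => cv A (v (j + 1)) r * ι K γ) := by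
    obtain ⟨a, ha⟩ := hst j (by omega)
    have h0 : ∀ r, nb A (cv A (v j)) r = 0 := by
      intro r
      have h1 : cv A (v j) = nb A (fun s => v j s • (1 : Frm k K)) := by
        funext s
        have h2 : dd k K (1 : Frm k K) = 0 := by
          have h := dd_alg (k := k) (1 : K)
          rwa [map_one, Derivation.map_one_eq_zero, map_zero] at h
        rw [nb_vw, mul_one, h2, smul_zero, add_zero]
      rw [h1]
      exact nb_nb hA hF _ r
    have h1 : ∀ r, nb A (cv A (v j)) r = ∑ c ∈ range (j + 1), (cv A (v c) r * ι K (a c) + v c r • dd k K (ι K (a c))) +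
        (cv A (v (j + 1)) r * ι K γ + v (j + 1) r • dd k K (ι K γ)) := by
      intro r
      have h2 : cv A (v j) = fun r => (∑ c ∈ range (j + 1), v c r • ι K (a c)) + v (j + 1) r • ι K γ :=
        funext ha
      rw [h2, nb_add, nb_sum A (fun c r => v c r • ι K (a c)), nb_vw]
      congr 1
      exact Finset.sum_congr rfl fun c _ => nb_vw _ _ _ _
    have h3 : InL v (j + 1) (fun r => ∑ c ∈ range (j + 1), (cv A (v c) r * ι K (a c) + v c r • dd k K (ι K (a c)))) := by
      refine InL.sum _ fun c hc => ?_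
      rw [Finset.mem_range] at hc
      obtain ⟨b, hb⟩ := hst c hc
      have h4 : InL v (j + 1) (cv A (v c)) := by
        have h5 : cv A (v c) = fun r => (∑ e ∈ range (c + 1), v e r • ι K (b e)) + v (c + 1) r • ι K γ := funext hb
        rw [h5]
        refine InL.add (InL.sum _ fun e he => ?_) (InL.vw v (by omega) _)
        rw [Finset.mem_range] at he
        exact InL.vw v (by omega) _
      exact (h4.mul _).add (InL.vw v (by omega) _)
    have h6 : (fun r => cv A (v (j + 1)) r * ι K γ) = fun r =>
        -((∑ c ∈ range (j + 1), (cv A (v c) r * ι K (a c) + v c r • dd k K (ι K (a c)))) +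
          v (j + 1) r • dd k K (ι K γ)) := by
      funext r
      have h7 := h1 r
      rw [h0 r] at h7
      rw [eq_neg_iff_add_eq_zero, h7]
      abel
    rw [h6]
    exact (h3.add (InL.vw v le_rfl _)).neg
  obtain ⟨θ, hθ⟩ := hkey
  beta_reduce at hθ
  obtain ⟨φ, hφ⟩ := dual_fam hli
  choose w hw using fun r => one_cv hA (v (j + 1)) r
  have hac : ∀ c, c < j + 1 + 1 → ι K (∑ r, φ c r • w r) * ι K γ = θ c := by
    intro c hc
    rw [map_sum, Finset.sum_mul]
    have h1 : ∑ r, ι K (φ c r • w r) * ι K γ = ∑ e ∈ range (j + 1 + 1), (∑ r, φ c r * v e r) • θ e := by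
      simp only [Finset.sum_smul]
      rw [Finset.sum_comm]
      refine Finset.sum_congr rfl fun r _ => ?_
      rw [map_smul, smul_mul_assoc, ← hw, hθ, Finset.smul_sum]
      exact Finset.sum_congr rfl fun e _ => smul_smul _ _ _
    rw [h1, Finset.sum_eq_single c]
    · rw [hφ c hc c hc, if_pos rfl, one_smul]
    · intro e he hec
      rw [Finset.mem_range] at he
      rw [hφ c hc e he, if_neg hec.symm, zero_smul]
    · intro h
      rw [Finset.mem_range] at h
      omega
  have hdiv : ∀ r, ∃ x : K, w r - ∑ c ∈ range (j + 1 + 1), v c r • (∑ s, φ c s • w s) = x • γ := by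
    intro r
    refine divi hγ ?_
    rw [ι_swap, neg_eq_zero, map_sub, sub_mul, ← hw, hθ, map_sum, Finset.sum_mul, sub_eq_zero]
    refine Finset.sum_congr rfl fun c hc => ?_
    rw [Finset.mem_range] at hc
    rw [map_smul, smul_mul_assoc, hac c hc]
  choose x hx using hdiv
  refine ⟨fun c => ∑ s, φ c s • w s, x, fun r => ?_⟩
  have h1 := congrArg (ι K) (hx r)
  rw [map_sub, map_sum, map_smul] at h1
  simp only [map_smul] at h1
  rw [hw, ← h1]
  abel

/-- the derived flag reaches a stable subspace -/
theorem chain_end {A : Matrix (Fin n) (Fin n) (Frm k K)} (hA : OneF A) (hF : Fl A) {l : Fin n → K} {γ : Ω[K⁄k]}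
    (hγ : γ ≠ 0) (d : ℕ) : ∀ (j : ℕ) (v : ℕ → Fin n → K), n ≤ j + d → Chain A l γ j v → Next A γ j v →
      ∃ (j : ℕ) (v : ℕ → Fin n → K), Chain A l γ j v ∧ ∃ a : ℕ → Ω[K⁄k], ∀ r,
        cv A (v j) r = ∑ c ∈ range (j + 1), v c r • ι K (a c) := by
  have hcard : ∀ (j : ℕ) (v : ℕ → Fin n → K), Chain A l γ j v → j + 1 ≤ n := by
    intro j v hC
    have h := hC.2.1.fintype_card_le_finrank
    rwa [Fintype.card_fin, Module.finrank_fin_fun] at h
  induction d with
  | zero =>
    intro j v h hC _
    have := hcard j v hC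
    omega
  | succ d ih =>
    intro j v h hC hN
    obtain ⟨a, x, hx⟩ := hN
    by_cases hxs : x ∈ Submodule.span K (Set.range fun i : Fin (j + 1) => v i)
    · refine ⟨j, v, hC, ?_⟩
      obtain ⟨c, hc⟩ := (Submodule.mem_span_range_iff_exists_fun K).1 hxs
      refine ⟨fun e => a e + (if he : e < j + 1 then c ⟨e, he⟩ else 0) • γ, fun r => ?_⟩
      rw [hx]
      have h1 : x r = ∑ e ∈ range (j + 1), (if he : e < j + 1 then c ⟨e, he⟩ else 0) * v e r := by
        rw [← hc, Finset.sum_apply, ← Fin.sum_univ_eq_sum_range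
          (fun e => (if he : e < j + 1 then c ⟨e, he⟩ else 0) * v e r) (j + 1)]
        refine Finset.sum_congr rfl fun e _ => ?_
        rw [dif_pos e.2, Pi.smul_apply, smul_eq_mul]
      rw [h1, Finset.sum_smul, ← Finset.sum_add_distrib]
      refine Finset.sum_congr rfl fun e _ => ?_
      rw [map_add, map_smul, smul_add, smul_smul, mul_comm]
    · have hne : ∀ c, c < j + 1 → Function.update v (j + 1) x c = v c := fun c hc =>
        Function.update_of_ne (by omega) _ _
      have hC' : Chain A l γ (j + 1) (Function.update v (j + 1) x) := by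
        refine ⟨?_, ?_, ?_⟩
        · rw [hne 0 (by omega)]
          exact hC.1
        · rw [linearIndependent_finSucc']
          refine ⟨?_, ?_⟩
          · have : (Fin.init fun i : Fin (j + 1 + 1) => Function.update v (j + 1) x i) =
                fun i : Fin (j + 1) => v i := by
              funext i
              show Function.update v (j + 1) x i = v i
              exact hne i i.2
            rw [this]
            exact hC.2.1
          · have h2 : (Fin.init fun i : Fin (j + 1 + 1) => Function.update v (j + 1) x i) =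
                fun i : Fin (j + 1) => v i := by
              funext i
              show Function.update v (j + 1) x i = v i
              exact hne i i.2
            rw [h2]
            show Function.update v (j + 1) x (j + 1) ∉ _
            rw [Function.update_self]
            exact hxs
        · intro i hi
          by_cases hij : i = j
          · subst hij
            refine ⟨a, fun r => ?_⟩
            rw [hne i (by omega), Function.update_self, hx]
            congr 1
            refine Finset.sum_congr rfl fun c hc => ?_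
            rw [Finset.mem_range] at hc
            rw [hne c hc]
          · obtain ⟨b, hb⟩ := hC.2.2 i (by omega)
            refine ⟨b, fun r => ?_⟩
            rw [hne i (by omega), hne (i + 1) (by omega), hb]
            congr 1
            refine Finset.sum_congr rfl fun c hc => ?_
            rw [Finset.mem_range] at hc
            rw [hne c (by omega)]
      exact ih (j + 1) _ (by omega) hC' (next hA hF hγ hC')

/-- `∇ U ⊆ Ω ⊗ U` -/
def Stb (A : Matrix (Fin n) (Fin n) (Frm k K)) (U : Submodule K (Fin n → K)) : Prop :=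
  ∀ u ∈ U, ∀ φ : Fin n → K, (∀ x ∈ U, ∑ i, φ i * x i = 0) → ∑ i, φ i • cv A u i = 0

theorem cv_add (A : Matrix (Fin n) (Fin n) (Frm k K)) (u v : Fin n → K) (i : Fin n) :
    cv A (u + v) i = cv A u i + cv A v i := by
  unfold cv
  simp only [Pi.add_apply, map_add, add_smul, Finset.sum_add_distrib]
  abel

theorem cv_smul (A : Matrix (Fin n) (Fin n) (Frm k K)) (c : K) (u : Fin n → K) (i : Fin n) :
    cv A (c • u) i = c • cv A u i + u i • ι K (KaehlerDifferential.D k K c) := by
  unfold cv
  simp only [Pi.smul_apply, smul_eq_mul, Derivation.leibniz, map_add, map_smul, smul_add, Finset.smul_sum, smul_smul]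
  abel

theorem cv_zero (A : Matrix (Fin n) (Fin n) (Frm k K)) (i : Fin n) : cv A 0 i = 0 := by
  have h := cv_smul A 0 0 i
  rw [smul_zero, zero_smul, Pi.zero_apply, zero_smul, add_zero] at h
  exact h

theorem stb_span {A : Matrix (Fin n) (Fin n) (Frm k K)} {s : Set (Fin n → K)}
    (h : ∀ u ∈ s, ∀ φ : Fin n → K, (∀ x ∈ Submodule.span K s, ∑ i, φ i * x i = 0) → ∑ i, φ i • cv A u i = 0) :
    Stb A (Submodule.span K s) := by
  intro u hu φ hφ
  induction hu using Submodule.span_induction with
  | mem x hx => exact h x hx φ hφ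
  | zero => exact Finset.sum_eq_zero fun i _ => by rw [cv_zero, smul_zero]
  | add x y _ _ hx hy =>
    simp only [cv_add, smul_add, Finset.sum_add_distrib]
    rw [hx, hy, add_zero]
  | smul c x hx' hx =>
    simp only [cv_smul, smul_add, Finset.sum_add_distrib]
    have h1 : ∑ i, φ i • c • cv A x i = c • ∑ i, φ i • cv A x i := by
      rw [Finset.smul_sum]
      exact Finset.sum_congr rfl fun i _ => smul_comm _ _ _
    have h2 : ∑ i, φ i • x i • (ι K (KaehlerDifferential.D k K c) : Frm k K) =
        (∑ i, φ i * x i) • ι K (KaehlerDifferential.D k K c) := by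
      rw [Finset.sum_smul]
      exact Finset.sum_congr rfl fun i _ => smul_smul _ _ _
    rw [h1, h2, hx, hφ x hx', smul_zero, zero_smul, add_zero]

theorem InL.stb {v : ℕ → Fin n → K} {j : ℕ} {X : Fin n → Frm k K} (hX : InL v j X) {φ : Fin n → K}
    (hφ : ∀ e, e < j + 1 → ∑ i, φ i * v e i = 0) : ∑ i, φ i • X i = 0 := by
  obtain ⟨θ, h1⟩ := hX
  have h2 : ∑ i, φ i • X i = ∑ e ∈ range (j + 1), (∑ i, φ i * v e i) • θ e := by
    simp only [Finset.sum_smul]
    rw [Finset.sum_comm]
    refine Finset.sum_congr rfl fun i _ => ?_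
    rw [h1, Finset.smul_sum]
    exact Finset.sum_congr rfl fun e _ => smul_smul _ _ _
  rw [h2]
  refine Finset.sum_eq_zero fun e he => ?_
  rw [Finset.mem_range] at he
  rw [hφ e he, zero_smul]

/-- the line spanned by `l` generates and has a second fundamental form of rank one -/
theorem hess {A : Matrix (Fin n) (Fin n) (Frm k K)} (hA : OneF A) (hF : Fl A) {l v : Fin n → K} {a γ : Ω[K⁄k]}
    (hn : 2 ≤ n) (hl : ∀ i, cv A l i = l i • ι K a + v i • ι K γ)
    (hgen : ∀ U : Submodule K (Fin n → K), l ∈ U → Stb A U → U = ⊤) :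
    γ ≠ 0 ∧ ∃ (B : Matrix (Fin n) (Fin n) (Frm k K)) (g : Matrix (Fin n) (Fin n) K), OneF B ∧ IsUnit g ∧
      (∀ r (h : 0 < n), g r ⟨0, h⟩ = l r) ∧ emb k g * B = A * emb k g + dM (emb k g) ∧ Up (-1) B ∧
        ∀ i, i + 1 < n → gt B (i + 1) i = ι K γ := by
  have hn1 : ∀ u : Fin n → K, Submodule.span K {u} ≠ ⊤ := by
    intro u h
    have h1 := finrank_span_le_card (R := K) ({u} : Set (Fin n → K))
    rw [h, finrank_top, Module.finrank_fin_fun] at h1
    simp only [Set.toFinset_singleton, Finset.card_singleton] at h1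
    omega
  have hl0 : l ≠ 0 := by
    intro h0
    refine hn1 0 (hgen _ (by rw [h0]; exact Submodule.zero_mem _) (stb_span ?_))
    intro u hu φ _
    rw [Set.mem_singleton_iff] at hu
    rw [hu]
    exact Finset.sum_eq_zero fun i _ => by rw [cv_zero, smul_zero]
  have hγ : γ ≠ 0 := by
    intro h0
    refine hn1 l (hgen _ (Submodule.subset_span rfl) (stb_span ?_))
    intro u hu φ hφ
    rw [Set.mem_singleton_iff] at hu
    rw [hu]
    have h1 : ∑ i, φ i • cv A l i = (∑ i, φ i * l i) • ι K a := by
      rw [Finset.sum_smul]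
      refine Finset.sum_congr rfl fun i _ => ?_
      rw [hl, h0, map_zero, smul_zero, add_zero, smul_smul]
    rw [h1, hφ l (Submodule.subset_span rfl), zero_smul]
  have hC0 : Chain A l γ 0 (fun _ => l) := by
    refine ⟨rfl, ?_, fun i hi => absurd hi (Nat.not_lt_zero i)⟩
    have : Unique (Fin (0 + 1)) := inferInstanceAs (Unique (Fin 1))
    rw [linearIndependent_unique_iff]
    exact hl0
  have hN0 : Next A γ 0 (fun _ => l) := by
    refine ⟨fun _ => a, v, fun r => ?_⟩
    rw [zero_add, Finset.sum_range_one]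
    exact hl r
  obtain ⟨j, w, hC, a', ha'⟩ := chain_end hA hF hγ n 0 _ (by omega) hC0 hN0
  have hmem : ∀ e, e < j + 1 → w e ∈ Submodule.span K (Set.range fun i : Fin (j + 1) => w i) := fun e he =>
    Submodule.subset_span ⟨⟨e, he⟩, rfl⟩
  have hInL : ∀ i, i < j + 1 → InL w j (cv A (w i)) := by
    intro i hi
    by_cases hij : i = j
    · subst hij
      exact ⟨fun e => ι K (a' e), ha'⟩
    · obtain ⟨b, hb⟩ := hC.2.2 i (by omega)
      have h5 : cv A (w i) = fun r => (∑ e ∈ range (i + 1), w e r • ι K (b e)) + w (i + 1) r • ι K γ := funext hb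
      rw [h5]
      refine InL.add (InL.sum _ fun e he => ?_) (InL.vw w (by omega) _)
      rw [Finset.mem_range] at he
      exact InL.vw w (by omega) _
  have htop : Submodule.span K (Set.range fun i : Fin (j + 1) => w i) = ⊤ := by
    refine hgen _ ?_ (stb_span ?_)
    · have := hmem 0 (by omega)
      rwa [hC.1] at this
    · rintro u ⟨i, rfl⟩ φ hφ
      exact (hInL i i.2).stb fun e he => hφ _ (hmem e he)
  have hj : j + 1 = n := by
    have h1 := finrank_span_eq_card hC.2.1
    rw [htop, finrank_top, Module.finrank_fin_fun, Fintype.card_fin] at h1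
    exact h1.symm
  have hb : ∀ i : ℕ, ∃ b : ℕ → Ω[K⁄k], i < n → (∀ c, i + 1 < c → b c = 0) ∧ (i + 1 < n → b (i + 1) = γ) ∧
      ∀ r, cv A (w i) r = ∑ c ∈ range n, w c r • ι K (b c) := by
    intro i
    by_cases hi : i < j
    · obtain ⟨b, hb⟩ := hC.2.2 i hi
      refine ⟨fun c => if c ≤ i then b c else if c = i + 1 then γ else 0, fun _ => ⟨?_, ?_, ?_⟩⟩
      · intro c hc
        beta_reduce
        rw [if_neg (by omega), if_neg (by omega)]
      · intro _
        beta_reduce
        rw [if_neg (by omega), if_pos rfl]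
      · intro r
        have h1 : ∑ c ∈ range n, w c r • ι K (if c ≤ i then b c else if c = i + 1 then γ else 0) =
            ∑ c ∈ range (i + 2), w c r • (ι K (if c ≤ i then b c else if c = i + 1 then γ else 0) : Frm k K) := by
          symm
          refine Finset.sum_subset (fun c hc => ?_) fun c _ hc => ?_
          · rw [Finset.mem_range] at hc ⊢
            omega
          · rw [Finset.mem_range] at hc
            rw [if_neg (by omega), if_neg (by omega), map_zero, smul_zero]
        rw [h1, Finset.sum_range_succ, if_neg (by omega), if_pos rfl, hb]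
        congr 1
        refine Finset.sum_congr rfl fun c hc => ?_
        rw [Finset.mem_range] at hc
        rw [if_pos (by omega)]
    · refine ⟨fun c => if c ≤ i then a' c else 0, fun hin => ?_⟩
      have hij : i = j := by omega
      subst hij
      refine ⟨?_, ?_, ?_⟩
      · intro c hc
        beta_reduce
        rw [if_neg (by omega)]
      · intro h
        omega
      · intro r
        rw [ha', hj]
        refine Finset.sum_congr rfl fun c hc => ?_
        rw [Finset.mem_range] at hc
        beta_reduce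
        rw [if_pos (by omega)]
  choose b hb using hb
  have hentry : ∀ p q : ℕ, p < n → q < n →
      gt (Matrix.of fun c i : Fin n => (ι K (b i c) : Frm k K)) p q = ι K (b q p) := fun p q hp hq => gt_of _ hp hq
  refine ⟨hγ, Matrix.of fun c i : Fin n => ι K (b i c), Matrix.of fun r c : Fin n => w c r,
    fun c i => ⟨b i c, rfl⟩, ?_, fun r _ => congrFun hC.1 r, ?_, ?_, ?_⟩
  · rw [← Matrix.linearIndependent_cols_iff_isUnit]
    subst hj
    exact hC.2.1
  · ext r i
    have h1 := (hb i i.2).2.2 r
    rw [← Fin.sum_univ_eq_sum_range (fun c => w c r • ι K (b i c)) n] at h1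
    rw [Matrix.mul_apply, Matrix.add_apply, Matrix.mul_apply]
    have h2 : ∑ c, emb k (Matrix.of fun r c : Fin n => w c r) r c * (Matrix.of fun c i : Fin n => (ι K (b i c) : Frm k K)) c i =
        ∑ c : Fin n, w c r • ι K (b i c) := by
      refine Finset.sum_congr rfl fun c _ => ?_
      rw [Algebra.smul_def]
      rfl
    have h3 : dM (emb k (Matrix.of fun r c : Fin n => w c r)) r i = ι K (KaehlerDifferential.D k K (w i r)) := dd_alg _
    have h4 : ∑ c, A r c * emb k (Matrix.of fun r c : Fin n => w c r) c i = ∑ c, w i c • A r c := by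
      refine Finset.sum_congr rfl fun c _ => ?_
      rw [Algebra.smul_def, Algebra.commutes]
      rfl
    rw [h2, h3, h4, ← h1, add_comm]
    rfl
  · intro p q hpq
    by_cases h : p < n ∧ q < n
    · rw [hentry p q h.1 h.2, (hb q h.2).1 p (by omega), map_zero]
    · exact gt_out _ h
  · intro i hi
    rw [hentry _ _ hi (by omega), (hb i (by omega)).2.1 hi]

end Pool.Agent.CFl
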