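import Mathlib.LinearAlgebra.ExteriorAlgebra.Basic
import Mathlib.LinearAlgebra.CliffordAlgebra.Conjugation
import Mathlib.LinearAlgebra.CliffordAlgebra.Contraction
import Mathlib.RingTheory.Kaehler.Basic
import Mathlib.LinearAlgebra.Dual.Lemmas
import Mathlib.Tactic

/-!
# The de Rham algebra of a field extension

`Frm k K` is the exterior algebra over `K` of the Kähler differentials of `K` over `k`, and `dd` is
its differential: the additive map with `dd f = D f`, `dd (D f) = 0` and
`dd (x y) = dd x y + x' dd y`, where `x ↦ x'` is the sign `(-1) ^ p` on `p`-forms.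
-/

set_option autoImplicit false

noncomputable section

namespace Pool.Agent.CFl

open ExteriorAlgebra

variable (k K : Type) [Field k] [Field K] [Algebra k K]

/-- the differential forms of `K` over `k` -/
abbrev Frm : Type := ExteriorAlgebra K (Ω[K⁄k])

/-- the sign `(-1) ^ p` on `p`-forms -/
def sg : Frm k K →ₐ[K] Frm k K :=
  CliffordAlgebra.involute (Q := (0 : QuadraticForm K (Ω[K⁄k])))

variable {k K}

theorem sg_ι (w : Ω[K⁄k]) : sg k K (ι K w) = -ι K w := CliffordAlgebra.involute_ι w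

theorem sg_sg (x : Frm k K) : sg k K (sg k K x) = x := CliffordAlgebra.involute_involute x

theorem sg_alg (f : K) : sg k K (algebraMap K (Frm k K) f) = algebraMap K (Frm k K) f :=
  (sg k K).commutes f

variable (k K)

/-- matrices with entries `sg x, y, 0, x` -/
def Sub : Subring (Matrix (Fin 2) (Fin 2) (Frm k K)) where
  carrier := {M | M 1 0 = 0 ∧ M 0 0 = sg k K (M 1 1)}
  mul_mem' := by
    rintro M N ⟨hM, hM'⟩ ⟨hN, hN'⟩
    refine ⟨?_, ?_⟩
    · rw [Matrix.mul_apply, Fin.sum_univ_two, hM, hN]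
      simp
    · rw [Matrix.mul_apply, Fin.sum_univ_two, Matrix.mul_apply, Fin.sum_univ_two, hM, hN, hM', hN']
      simp
  one_mem' := by
    refine ⟨?_, ?_⟩
    · simp
    · simp
  add_mem' := by
    rintro M N ⟨hM, hM'⟩ ⟨hN, hN'⟩
    refine ⟨?_, ?_⟩
    · rw [Matrix.add_apply, hM, hN, add_zero]
    · rw [Matrix.add_apply, Matrix.add_apply, hM', hN', map_add]
  zero_mem' := by
    refine ⟨?_, ?_⟩
    · simp
    · simp
  neg_mem' := by
    rintro M ⟨hM, hM'⟩
    refine ⟨?_, ?_⟩
    · rw [Matrix.neg_apply, hM, neg_zero]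
    · rw [Matrix.neg_apply, Matrix.neg_apply, hM', map_neg]

/-- the ring of pairs `(x, y)` with `(x, y) (x', y') = (x x', y x' + sg x y')` -/
def PP : Type := ↥(Sub k K)

instance : Ring (PP k K) := inferInstanceAs (Ring ↥(Sub k K))

variable {k K}

/-- the pair `(x, y)` -/
def mk (x y : Frm k K) : PP k K := ⟨!![sg k K x, y; 0, x], by
  refine ⟨?_, ?_⟩ <;> simp⟩

def p1 (z : PP k K) : Frm k K := z.1 1 1
def p2 (z : PP k K) : Frm k K := z.1 0 1

theorem p1_mk (x y : Frm k K) : p1 (mk x y) = x := by simp [p1, mk]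
theorem p2_mk (x y : Frm k K) : p2 (mk x y) = y := by simp [p2, mk]

theorem ext_p {z w : PP k K} (h1 : p1 z = p1 w) (h2 : p2 z = p2 w) : z = w := by
  apply Subtype.ext
  ext i j
  fin_cases i <;> fin_cases j
  · exact (z.2.2.trans (congrArg _ h1)).trans w.2.2.symm
  · exact h2
  · exact z.2.1.trans w.2.1.symm
  · exact h1

theorem p1_mul (z w : PP k K) : p1 (z * w) = p1 z * p1 w := by
  show (z.1 * w.1) 1 1 = z.1 1 1 * w.1 1 1
  rw [Matrix.mul_apply, Fin.sum_univ_two, z.2.1, zero_mul, zero_add]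

theorem p2_mul (z w : PP k K) : p2 (z * w) = p2 z * p1 w + sg k K (p1 z) * p2 w := by
  show (z.1 * w.1) 0 1 = z.1 0 1 * w.1 1 1 + sg k K (z.1 1 1) * w.1 0 1
  rw [Matrix.mul_apply, Fin.sum_univ_two, z.2.2, add_comm]

theorem p1_add (z w : PP k K) : p1 (z + w) = p1 z + p1 w := rfl
theorem p2_add (z w : PP k K) : p2 (z + w) = p2 z + p2 w := rfl
theorem p1_one : p1 (1 : PP k K) = 1 := by
  show (1 : Matrix (Fin 2) (Fin 2) (Frm k K)) 1 1 = 1
  simp
theorem p2_one : p2 (1 : PP k K) = 0 := by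
  show (1 : Matrix (Fin 2) (Fin 2) (Frm k K)) 0 1 = 0
  simp
theorem p1_zero : p1 (0 : PP k K) = 0 := rfl
theorem p2_zero : p2 (0 : PP k K) = 0 := rfl

/-- one-forms anticommute -/
theorem ι_swap (v w : Ω[K⁄k]) : ι K v * ι K w = -(ι K w * ι K v) :=
  eq_neg_of_add_eq_zero_left (ι_add_mul_swap v w)

/-- `x * ω = ω * sg x` for a one-form `ω` -/
theorem mul_ι (x : Frm k K) (w : Ω[K⁄k]) : x * ι K w = ι K w * sg k K x := by
  induction x using ExteriorAlgebra.induction with
  | algebraMap r =>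
    rw [sg_alg]
    exact Algebra.commutes r _
  | ι v => rw [sg_ι, mul_neg, ι_swap]
  | mul a b ha hb => rw [mul_assoc, hb, ← mul_assoc, ha, mul_assoc, map_mul]
  | add a b ha hb => rw [add_mul, ha, hb, map_add, mul_add]

/-- the ring homomorphism `f ↦ (f, df)` -/
def φ : K →+* PP k K where
  toFun f := mk (algebraMap K _ f) (ι K (KaehlerDifferential.D k K f))
  map_one' := by
    apply ext_p
    · rw [p1_mk, p1_one, map_one]
    · rw [p2_mk, p2_one, Derivation.map_one_eq_zero, map_zero]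
  map_zero' := by
    apply ext_p
    · rw [p1_mk, p1_zero, map_zero]
    · rw [p2_mk, p2_zero, map_zero, map_zero]
  map_add' f g := by
    apply ext_p
    · rw [p1_add, p1_mk, p1_mk, p1_mk, map_add]
    · rw [p2_add, p2_mk, p2_mk, p2_mk, map_add, map_add]
  map_mul' f g := by
    apply ext_p
    · rw [p1_mul, p1_mk, p1_mk, p1_mk, map_mul]
    · rw [p2_mul, p2_mk, p2_mk, p2_mk, p1_mk, p1_mk, Derivation.leibniz, map_add, map_smul, map_smul,
        sg_alg, Algebra.smul_def, Algebra.smul_def, add_comm, Algebra.commutes g]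

theorem p1_φ (f : K) : p1 (φ (k := k) f) = algebraMap K _ f := p1_mk _ _
theorem p2_φ (f : K) : p2 (φ (k := k) f) = ι K (KaehlerDifferential.D k K f) := p2_mk _ _

theorem φ_comm (f : K) (z : PP k K) : φ f * z = z * φ f := by
  apply ext_p
  · rw [p1_mul, p1_mul, p1_φ]
    exact Algebra.commutes f _
  · rw [p2_mul, p2_mul, p1_φ, p2_φ, sg_alg, add_comm, Algebra.commutes f (p2 z), mul_ι, sg_sg]

instance : Algebra K (PP k K) := RingHom.toAlgebra' (φ (k := k)) φ_comm

theorem smul_p (f : K) (z : PP k K) : f • z = φ f * z := rfl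

theorem p1_smul (f : K) (z : PP k K) : p1 (f • z) = f • p1 z := by
  rw [smul_p, p1_mul, p1_φ, Algebra.smul_def]

theorem p2_smul (f : K) (z : PP k K) :
    p2 (f • z) = ι K (KaehlerDifferential.D k K f) * p1 z + f • p2 z := by
  rw [smul_p, p2_mul, p1_φ, p2_φ, sg_alg, Algebra.smul_def]

instance : Module k (PP k K) := Module.compHom (PP k K) (algebraMap k K)

instance : IsScalarTower k K (PP k K) :=
  IsScalarTower.of_algebraMap_smul fun _ _ => rfl

theorem smul_k (c : k) (z : PP k K) : c • z = algebraMap k K c • z := rfl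

/-- the derivation `g ↦ (dg, 0)` -/
def D1 : Derivation k K (PP k K) where
  toFun g := mk (ι K (KaehlerDifferential.D k K g)) 0
  map_add' f g := by
    apply ext_p
    · rw [p1_add, p1_mk, p1_mk, p1_mk, map_add, map_add]
    · rw [p2_add, p2_mk, p2_mk, p2_mk, add_zero]
  map_smul' c g := by
    show mk (ι K (KaehlerDifferential.D k K (c • g))) 0 = c • mk (ι K (KaehlerDifferential.D k K g)) 0
    rw [smul_k]
    apply ext_p
    · rw [p1_smul, p1_mk, p1_mk, Derivation.map_smul, ← algebraMap_smul K c (KaehlerDifferential.D k K g),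
        map_smul]
    · rw [p2_smul, p2_mk, p2_mk, p1_mk, smul_zero, add_zero, Derivation.map_algebraMap, map_zero,
        zero_mul]
  map_one_eq_zero' := by
    show mk (ι K (KaehlerDifferential.D k K 1)) 0 = 0
    apply ext_p
    · rw [p1_mk, p1_zero, Derivation.map_one_eq_zero, map_zero]
    · rw [p2_mk, p2_zero]
  leibniz' f g := by
    show mk (ι K (KaehlerDifferential.D k K (f * g))) 0 =
      f • mk (ι K (KaehlerDifferential.D k K g)) 0 + g • mk (ι K (KaehlerDifferential.D k K f)) 0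
    apply ext_p
    · rw [p1_add, p1_smul, p1_smul, p1_mk, p1_mk, p1_mk, Derivation.leibniz, map_add, map_smul,
        map_smul]
    · rw [p2_add, p2_smul, p2_smul, p2_mk, p2_mk, p2_mk, p1_mk, p1_mk, smul_zero, smul_zero, add_zero,
        add_zero, ι_add_mul_swap]

/-- the `K`-linear map `ω ↦ (ω, dω)` -/
def L1 : Ω[K⁄k] →ₗ[K] PP k K := (D1 (k := k) (K := K)).liftKaehlerDifferential

theorem L1_D (g : K) : L1 (KaehlerDifferential.D k K g) = mk (ι K (KaehlerDifferential.D k K g)) 0 :=
  Derivation.liftKaehlerDifferential_comp_D _ g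

/-- induction for one-forms -/
theorem om_ind {C : Ω[K⁄k] → Prop} (h0 : ∀ f g : K, C (f • KaehlerDifferential.D k K g))
    (ha : ∀ v w, C v → C w → C (v + w)) (w : Ω[K⁄k]) : C w := by
  have h : w ∈ Submodule.span K (Set.range (KaehlerDifferential.D k K)) := by
    rw [KaehlerDifferential.span_range_derivation]
    trivial
  have hz : C 0 := by
    have := h0 0 0
    rwa [zero_smul] at this
  have key : ∀ a : K, C (a • w) := by
    induction h using Submodule.span_induction with
    | mem x hx =>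
      obtain ⟨g, rfl⟩ := hx
      exact fun a => h0 a g
    | zero =>
      intro a
      rwa [smul_zero]
    | add x y _ _ hx hy =>
      intro a
      rw [smul_add]
      exact ha _ _ (hx a) (hy a)
    | smul b x _ hx =>
      intro a
      rw [smul_smul]
      exact hx (a * b)
  have := key 1
  rwa [one_smul] at this

theorem p1_L1 (w : Ω[K⁄k]) : p1 (L1 w) = ι K w := by
  induction w using om_ind with
  | h0 f g => rw [map_smul, L1_D, p1_smul, p1_mk, map_smul]
  | ha v w hv hw => rw [map_add, p1_add, hv, hw, map_add]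

/-- `d` of a one-form -/
def d1 (w : Ω[K⁄k]) : Frm k K := p2 (L1 w)

theorem d1_add (v w : Ω[K⁄k]) : d1 (v + w) = d1 v + d1 w := by
  unfold d1
  rw [map_add, p2_add]

theorem d1_smul (f : K) (w : Ω[K⁄k]) :
    d1 (f • w) = ι K (KaehlerDifferential.D k K f) * ι K w + f • d1 w := by
  unfold d1
  rw [map_smul, p2_smul, p1_L1]

theorem d1_D (g : K) : d1 (KaehlerDifferential.D k K g) = (0 : Frm k K) := by
  unfold d1
  rw [L1_D, p2_mk]

theorem d1_comm (v w : Ω[K⁄k]) : d1 v * ι K w = ι K w * d1 v := by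
  induction v using om_ind with
  | h0 f g =>
    rw [d1_smul, d1_D, smul_zero, add_zero, mul_assoc, ι_swap _ w, mul_neg, ← mul_assoc, ι_swap _ w,
      neg_mul, neg_neg, mul_assoc]
  | ha v v' hv hv' => rw [d1_add, add_mul, mul_add, hv, hv']

theorem L1_sq (w : Ω[K⁄k]) : L1 w * L1 w = 0 := by
  apply ext_p
  · rw [p1_mul, p1_L1, ι_sq_zero, p1_zero]
  · rw [p2_mul, p1_L1, sg_ι, p2_zero]
    show d1 w * ι K w + -ι K w * d1 w = 0
    rw [d1_comm, neg_mul, add_neg_cancel]

/-- the homomorphism `x ↦ (x, dx)` -/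
def Φ : Frm k K →ₐ[K] PP k K := ExteriorAlgebra.lift K ⟨L1, L1_sq⟩

theorem Φ_ι (w : Ω[K⁄k]) : Φ (ι K w) = L1 w := ExteriorAlgebra.lift_ι_apply _ _ _ _

theorem Φ_alg (f : K) : Φ (algebraMap K (Frm k K) f) = φ f := Φ.commutes f

theorem p1_Φ (x : Frm k K) : p1 (Φ x) = x := by
  induction x using ExteriorAlgebra.induction with
  | algebraMap r => rw [Φ_alg, p1_φ]
  | ι v => rw [Φ_ι, p1_L1]
  | mul a b ha hb => rw [map_mul, p1_mul, ha, hb]
  | add a b ha hb => rw [map_add, p1_add, ha, hb]

variable (k K)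

/-- **The de Rham differential.** -/
def dd : Frm k K →+ Frm k K where
  toFun x := p2 (Φ x)
  map_zero' := by rw [map_zero, p2_zero]
  map_add' x y := by rw [map_add, p2_add]

variable {k K}

theorem dd_alg (f : K) : dd k K (algebraMap K _ f) = ι K (KaehlerDifferential.D k K f) := by
  show p2 (Φ _) = _
  rw [Φ_alg, p2_φ]

theorem dd_mul (x y : Frm k K) : dd k K (x * y) = dd k K x * y + sg k K x * dd k K y := by
  show p2 (Φ _) = p2 (Φ _) * y + sg k K x * p2 (Φ _)
  rw [map_mul, p2_mul, p1_Φ, p1_Φ]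

theorem dd_smul (f : K) (x : Frm k K) :
    dd k K (f • x) = ι K (KaehlerDifferential.D k K f) * x + f • dd k K x := by
  rw [Algebra.smul_def, dd_mul, dd_alg, sg_alg, Algebra.smul_def]

theorem dd_D (g : K) : dd k K (ι K (KaehlerDifferential.D k K g)) = 0 := by
  show p2 (Φ _) = 0
  rw [Φ_ι]
  exact d1_D g

theorem dd_sg (x : Frm k K) : dd k K (sg k K x) = -sg k K (dd k K x) := by
  induction x using ExteriorAlgebra.induction with
  | algebraMap r => rw [sg_alg, dd_alg, sg_ι, neg_neg]
  | ι v =>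
    induction v using om_ind with
    | h0 f g =>
      rw [sg_ι, map_neg, map_smul, dd_smul, dd_D, smul_zero, add_zero, map_mul, sg_ι, sg_ι,
        neg_mul_neg]
    | ha v w hv hw => rw [map_add, map_add, map_add, hv, hw, map_add, map_add, neg_add]
  | mul a b ha hb =>
    rw [map_mul, dd_mul, dd_mul, ha, hb, map_add, map_mul, map_mul, neg_mul, mul_neg, neg_add]
  | add a b ha hb => rw [map_add, map_add, ha, hb, map_add, map_add, neg_add]

/-- `d ∘ d = 0` -/
theorem dd_dd (x : Frm k K) : dd k K (dd k K x) = 0 := by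
  induction x using ExteriorAlgebra.induction with
  | algebraMap r => rw [dd_alg, dd_D]
  | ι v =>
    induction v using om_ind with
    | h0 f g =>
      rw [map_smul, dd_smul, dd_D, smul_zero, add_zero, dd_mul, dd_D, dd_D, zero_mul, mul_zero,
        add_zero]
    | ha v w hv hw => rw [map_add, map_add, map_add, hv, hw, add_zero]
  | mul a b ha hb =>
    rw [dd_mul, map_add, dd_mul, dd_mul, ha, hb, zero_mul, mul_zero, dd_sg]
    simp
  | add a b ha hb => rw [map_add, map_add, ha, hb, add_zero]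

/-- **Division.**  If `γ ∧ α = 0` and `γ ≠ 0` then `α` is a multiple of `γ`. -/
theorem divi {γ α : Ω[K⁄k]} (hγ : γ ≠ 0) (h : ι K γ * ι K α = 0) : ∃ c : K, α = c • γ := by
  obtain ⟨f, hf⟩ : ∃ f : Module.Dual K (Ω[K⁄k]), f γ = 1 :=
    Module.Projective.exists_dual_eq_one K hγ
  refine ⟨f α, ?_⟩
  have h1 : (CliffordAlgebra.contractLeft (Q := (0 : QuadraticForm K (Ω[K⁄k]))) f) (ι K γ * ι K α) =
      f γ • ι K α - ι K γ * algebraMap K _ (f α) := by
    have h2 := CliffordAlgebra.contractLeft_ι_mul (Q := (0 : QuadraticForm K (Ω[K⁄k]))) (d := f) γ (ι K α)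
    rw [h2]
    congr 2
    exact CliffordAlgebra.contractLeft_ι (Q := (0 : QuadraticForm K (Ω[K⁄k]))) (d := f) α
  rw [h, map_zero, hf, one_smul] at h1
  have h3 : ι K α = ι K (f α • γ) := by
    rw [map_smul, Algebra.smul_def, Algebra.commutes (f α)]
    exact sub_eq_zero.1 h1.symm
  exact (ι_inj K _ _).1 h3

end Pool.Agent.CFl
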