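import Pool.Agent.Lib.MP_7baa7a_ag.CF.Sl2

/-!
# The curvature of the normal form; degrees
-/

set_option autoImplicit false

noncomputable section

namespace Pool.Agent.CFl

open ExteriorAlgebra Finset

variable {k K : Type} [Field k] [Field K] [Algebra k K] {n : ℕ}

theorem gt_sum {α : Type} [AddCommMonoid α] {ι : Type} (s : Finset ι) (X : ι → Matrix (Fin n) (Fin n) α)
    (a b : ℕ) : gt (∑ i ∈ s, X i) a b = ∑ i ∈ s, gt (X i) a b := by
  classical
  induction s using Finset.induction_on with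
  | empty => rw [Finset.sum_empty, Finset.sum_empty, gt_zero]
  | insert i s hi ih => rw [Finset.sum_insert hi, Finset.sum_insert hi, gt_add, ih]

/-- a one-form matrix squares to zero on one form -/
theorem sq_T (w : Ω[K⁄k]) (M N : Matrix (Fin n) (Fin n) K) : T (ι K w) M * T (ι K w) N = 0 := by
  rw [T_mul_T, ι_sq_zero, T_zero_left]

/-- anticommutator -/
theorem ac_T (v w : Ω[K⁄k]) (M N : Matrix (Fin n) (Fin n) K) :
    T (ι K v) M * T (ι K w) N + T (ι K w) N * T (ι K v) M = T (ι K v * ι K w) (M * N - N * M) := by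
  rw [T_mul_T, T_mul_T, T_sub_right, ι_swap w v, T_neg_left, sub_eq_add_neg]

variable (n) in
/-- **The normal form** `ζ 1 + γ e + η h + φ 1 f + φ 2 f ^ 2 + ... + φ (m - 1) f ^ (m - 1)` -/
def S (ζ γ η : Ω[K⁄k]) (φ : ℕ → Ω[K⁄k]) (m : ℕ) : Matrix (Fin n) (Fin n) (Frm k K) :=
  T (ι K ζ) 1 + T (ι K γ) (eM K n) + T (ι K η) (hM K n) + ∑ t ∈ Ico 1 m, T (ι K (φ t)) (fM K n ^ t)

theorem S_one (ζ γ η : Ω[K⁄k]) (φ : ℕ → Ω[K⁄k]) :
    S n ζ γ η φ 1 = T (ι K ζ) 1 + T (ι K γ) (eM K n) + T (ι K η) (hM K n) := by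
  unfold S
  rw [Ico_self, Finset.sum_empty, add_zero]

theorem S_succ (ζ γ η : Ω[K⁄k]) (φ : ℕ → Ω[K⁄k]) {m : ℕ} (hm : 1 ≤ m) :
    S n ζ γ η φ (m + 1) = S n ζ γ η φ m + T (ι K (φ m)) (fM K n ^ m) := by
  unfold S
  rw [Finset.sum_Ico_succ_top hm, ← add_assoc]

theorem S_congr (ζ γ η : Ω[K⁄k]) {φ ψ : ℕ → Ω[K⁄k]} {m : ℕ} (h : ∀ t, 1 ≤ t → t < m → φ t = ψ t) :
    S n ζ γ η φ m = S n ζ γ η ψ m := by
  unfold S
  congr 1
  refine Finset.sum_congr rfl fun t ht => ?_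
  rw [Finset.mem_Ico] at ht
  rw [h t ht.1 ht.2]

theorem one_S (ζ γ η : Ω[K⁄k]) (φ : ℕ → Ω[K⁄k]) (m : ℕ) : OneF (S n ζ γ η φ m) := by
  have h0 : ∀ s : Finset ℕ, OneF (∑ t ∈ s, T (ι K (φ t)) (fM K n ^ t)) := by
    intro s
    classical
    induction s using Finset.induction_on with
    | empty => exact fun i j => ⟨0, by rw [Finset.sum_empty, map_zero]; rfl⟩
    | insert i s hi ih =>
      rw [Finset.sum_insert hi]
      exact (one_T _ _).add ih
  exact (((one_T _ _).add (one_T _ _)).add (one_T _ _)).add (h0 _)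

/-- the curvature of the normal form -/
def Cu (ζ γ η : Ω[K⁄k]) (φ : ℕ → Ω[K⁄k]) (m : ℕ) : Matrix (Fin n) (Fin n) (Frm k K) :=
  T (dd k K (ι K ζ)) 1 + T (dd k K (ι K γ) - (2 : K) • (ι K γ * ι K η)) (eM K n) +
    T (dd k K (ι K η) + ∑ t ∈ Ico 1 m, if t = 1 then ι K γ * ι K (φ 1) else 0) (hM K n) +
    ∑ t ∈ Ico 1 m, T (dd k K (ι K (φ t)) - (2 * (t : K)) • (ι K η * ι K (φ t))) (fM K n ^ t)

theorem T_sum {ι : Type} (s : Finset ι) (v : ι → Frm k K) (M : Matrix (Fin n) (Fin n) K) :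
    T (∑ i ∈ s, v i) M = ∑ i ∈ s, T (v i) M := by
  classical
  induction s using Finset.induction_on with
  | empty => rw [Finset.sum_empty, Finset.sum_empty, T_zero_left]
  | insert i s hi ih => rw [Finset.sum_insert hi, Finset.sum_insert hi, T_add_left, ih]

theorem Cst_one : Cst k (1 : Matrix (Fin n) (Fin n) K) := Cst.one

/-- one more term -/
theorem ac_S (ζ γ η : Ω[K⁄k]) (φ : ℕ → Ω[K⁄k]) (hφ : ∀ t, 2 ≤ t → ι K γ * ι K (φ t) = 0) {m : ℕ}
    (hm : 1 ≤ m) :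
    S n ζ γ η φ m * T (ι K (φ m)) (fM K n ^ m) + T (ι K (φ m)) (fM K n ^ m) * S n ζ γ η φ m =
      T (if m = 1 then ι K γ * ι K (φ 1) else 0) (hM K n) +
        T (-((2 * (m : K)) • (ι K η * ι K (φ m)))) (fM K n ^ m) := by
  unfold S
  have h1 : T (ι K ζ) 1 * T (ι K (φ m)) (fM K n ^ m) + T (ι K (φ m)) (fM K n ^ m) * T (ι K ζ) 1 = 0 := by
    rw [ac_T, one_mul, mul_one, sub_self, T_zero_right]
  have h2 : T (ι K γ) (eM K n) * T (ι K (φ m)) (fM K n ^ m) +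
      T (ι K (φ m)) (fM K n ^ m) * T (ι K γ) (eM K n) =
        T (if m = 1 then ι K γ * ι K (φ 1) else 0) (hM K n) := by
    rw [ac_T]
    by_cases h : m = 1
    · rw [if_pos h, h, pow_one, com_ef]
    · rw [if_neg h, hφ m (by omega), T_zero_left, T_zero_left]
  have h3 : T (ι K η) (hM K n) * T (ι K (φ m)) (fM K n ^ m) +
      T (ι K (φ m)) (fM K n ^ m) * T (ι K η) (hM K n) =
        T (-((2 * (m : K)) • (ι K η * ι K (φ m)))) (fM K n ^ m) := by
    rw [ac_T, com_hf, T_smul, neg_smul]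
  have h4 : (∑ t ∈ Ico 1 m, T (ι K (φ t)) (fM K n ^ t)) * T (ι K (φ m)) (fM K n ^ m) +
      T (ι K (φ m)) (fM K n ^ m) * (∑ t ∈ Ico 1 m, T (ι K (φ t)) (fM K n ^ t)) = 0 := by
    rw [Finset.sum_mul, Finset.mul_sum, ← Finset.sum_add_distrib]
    refine Finset.sum_eq_zero fun t _ => ?_
    rw [ac_T, ← pow_add, ← pow_add, add_comm m t, sub_self, T_zero_right]
  set a1 := T (ι K ζ) (1 : Matrix (Fin n) (Fin n) K)
  set a2 := T (ι K γ) (eM K n)
  set a3 := T (ι K η) (hM K n)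
  set a4 := ∑ t ∈ Ico 1 m, T (ι K (φ t)) (fM K n ^ t)
  set c := T (ι K (φ m)) (fM K n ^ m)
  calc (a1 + a2 + a3 + a4) * c + c * (a1 + a2 + a3 + a4) =
      (a1 * c + c * a1) + (a2 * c + c * a2) + (a3 * c + c * a3) + (a4 * c + c * a4) := by
        simp only [add_mul, mul_add]
        abel
    _ = _ := by rw [h1, h2, h3, h4, zero_add, add_zero]

/-- **The curvature of the normal form.** -/
theorem curv (ζ γ η : Ω[K⁄k]) (φ : ℕ → Ω[K⁄k]) (hφ : ∀ t, 2 ≤ t → ι K γ * ι K (φ t) = 0) {m : ℕ}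
    (hm : 1 ≤ m) :
    dM (S n ζ γ η φ m) + S n ζ γ η φ m * S n ζ γ η φ m = Cu ζ γ η φ m := by
  induction m, hm using Nat.le_induction with
  | base =>
    have h12 : T (ι K ζ) 1 * T (ι K γ) (eM K n) + T (ι K γ) (eM K n) * T (ι K ζ) 1 = 0 := by
      rw [ac_T, one_mul, mul_one, sub_self, T_zero_right]
    have h13 : T (ι K ζ) 1 * T (ι K η) (hM K n) + T (ι K η) (hM K n) * T (ι K ζ) 1 = 0 := by
      rw [ac_T, one_mul, mul_one, sub_self, T_zero_right]
    have h23 : T (ι K γ) (eM K n) * T (ι K η) (hM K n) + T (ι K η) (hM K n) * T (ι K γ) (eM K n) =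
        T (-((2 : K) • (ι K γ * ι K η))) (eM K n) := by
      have e : eM K n * hM K n - hM K n * eM K n = (-(2 : K)) • eM K n := by
        rw [← neg_sub, com_he, neg_smul]
      rw [ac_T, e, T_smul, neg_smul]
    have hd : dM (T (ι K ζ) 1 + T (ι K γ) (eM K n) + T (ι K η) (hM K n)) =
        T (dd k K (ι K ζ)) 1 + T (dd k K (ι K γ)) (eM K n) + T (dd k K (ι K η)) (hM K n) := by
      rw [dM_add, dM_add, dM_T _ Cst.one, dM_T _ (cst_e k), dM_T _ (cst_h k)]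
    have hC : (Cu ζ γ η φ 1 : Matrix (Fin n) (Fin n) (Frm k K)) =
        T (dd k K (ι K ζ)) 1 + (T (dd k K (ι K γ)) (eM K n) +
          T (-((2 : K) • (ι K γ * ι K η))) (eM K n)) + T (dd k K (ι K η)) (hM K n) := by
      unfold Cu
      rw [Ico_self, Finset.sum_empty, Finset.sum_empty, add_zero, add_zero, sub_eq_add_neg,
        T_add_left (dd k K (ι K γ))]
    rw [S_one, hd, hC, ← h23]
    have s1 := sq_T ζ (1 : Matrix (Fin n) (Fin n) K) 1
    have s2 := sq_T γ (eM K n) (eM K n)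
    have s3 := sq_T η (hM K n) (hM K n)
    set a1 := T (ι K ζ) (1 : Matrix (Fin n) (Fin n) K)
    set a2 := T (ι K γ) (eM K n)
    set a3 := T (ι K η) (hM K n)
    have e : (a1 + a2 + a3) * (a1 + a2 + a3) = a1 * a1 + a2 * a2 + a3 * a3 + (a1 * a2 + a2 * a1) +
        (a1 * a3 + a3 * a1) + (a2 * a3 + a3 * a2) := by
      simp only [add_mul, mul_add]
      abel
    rw [e, s1, s2, s3, h12, h13]
    abel
  | succ m hm ih =>
    have hC : (Cu ζ γ η φ (m + 1) : Matrix (Fin n) (Fin n) (Frm k K)) = Cu ζ γ η φ m +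
        T (if m = 1 then ι K γ * ι K (φ 1) else 0) (hM K n) +
        T (dd k K (ι K (φ m)) - (2 * (m : K)) • (ι K η * ι K (φ m))) (fM K n ^ m) := by
      unfold Cu
      rw [Finset.sum_Ico_succ_top hm, Finset.sum_Ico_succ_top hm, ← add_assoc (dd k K (ι K η)),
        T_add_left (dd k K (ι K η) + _)]
      abel
    have hd : dM (T (ι K (φ m)) (fM K n ^ m)) = T (dd k K (ι K (φ m))) (fM K n ^ m) :=
      dM_T _ (cst_fp k m)
    have hs := sq_T (φ m) (fM K n ^ m) (fM K n ^ m)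
    have ha := ac_S (n := n) ζ γ η φ hφ hm
    rw [S_succ _ _ _ _ hm, dM_add, hC, ← ih, sub_eq_add_neg, T_add_left (dd k K (ι K (φ m))), ← hd]
    set c := T (ι K (φ m)) (fM K n ^ m)
    set s := S n ζ γ η φ m
    have e : (s + c) * (s + c) = s * s + (s * c + c * s) + c * c := by
      simp only [add_mul, mul_add]
      abel
    rw [e, ha, hs]
    abel

end Pool.Agent.CFl
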