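import Pool.Agent.Lib.MP_7baa7a_ag.CF.Fs

/-!
# Degrees, telescoping, gauge transformations which normalise one diagonal
-/

set_option autoImplicit false

noncomputable section

namespace Pool.Agent.CFl

open ExteriorAlgebra Finset

variable {k K : Type} [Field k] [Field K] [Algebra k K] {n : ℕ}

/-- **Telescoping**, general form. -/
theorem telg {R : Matrix (Fin n) (Fin n) (Frm k K)} (hR : OneF R) (γ : Ω[K⁄k]) (Φ : ℕ → Frm k K)
    (s : ℕ) (h : ∀ a, a + s < n →
      Φ a + gt (T (ι K γ) (eM K n) * R + R * T (ι K γ) (eM K n)) a (a + s) = 0) :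
    (∀ a, a + s < n → ι K γ * gt R a (a + s + 1) = ∑ b ∈ range (a + 1), Φ b) ∧
      (s < n → ∑ b ∈ range (n - s), Φ b = 0) := by
  have key : ∀ a, a + s < n → ι K γ * gt R a (a + s + 1) = ∑ b ∈ range (a + 1), Φ b := by
    intro a
    induction a with
    | zero =>
      intro ha
      have h1 := h 0 ha
      obtain ⟨w, hw⟩ := one_gt hR 0 (0 + s + 1)
      rw [gt_add, gt_el0, gt_er, zero_add, hw, ι_swap] at h1
      rw [Finset.sum_range_one, hw]
      exact (add_neg_eq_zero.1 h1).symm
    | succ a ih =>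
      intro ha
      have h1 := h (a + 1) ha
      obtain ⟨w, hw⟩ := one_gt hR (a + 1) (a + 1 + s + 1)
      rw [gt_add, gt_el _ _ _ _ (by omega), gt_er, hw, ι_swap, show a + 1 + s = a + s + 1 by omega,
        ih (by omega), ← add_assoc] at h1
      rw [Finset.sum_range_succ, hw, add_comm]
      exact (add_neg_eq_zero.1 h1).symm
  refine ⟨key, fun hs => ?_⟩
  have h1 := key (n - s - 1) (by omega)
  rw [gt_out _ (by omega), mul_zero, show n - s - 1 + 1 = n - s by omega] at h1
  exact h1.symm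

/-- **Comparison of degrees in the flatness equation.** -/
theorem deg {S R W : Matrix (Fin n) (Fin n) (Frm k K)} (s : ℕ) (hF : Fl (S + R)) (hSW : Up 0 (S - W))
    (hR : Up (s + 1) R) (a : ℕ) :
    gt (dM S + S * S) a (a + s) + gt (W * R + R * W) a (a + s) = 0 := by
  have e : dM S + S * S + (W * R + R * W) = dM (S + R) + (S + R) * (S + R) -
      (dM R + (S - W) * R + R * (S - W) + R * R) := by
    rw [dM_add]
    simp only [add_mul, mul_add, sub_mul, mul_sub]
    abel
  have h0 : dM (S + R) + (S + R) * (S + R) = 0 := hF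
  rw [← gt_add, e, h0, zero_sub, gt_neg, neg_eq_zero]
  have u1 : Up (s + 1 : ℤ) (dM R) := up_dM hR
  have u2 : Up (s + 1 : ℤ) ((S - W) * R) := (Up.mul hSW hR).mono (by omega)
  have u3 : Up (s + 1 : ℤ) (R * (S - W)) := (Up.mul hR hSW).mono (by omega)
  have u4 : Up (s + 1 : ℤ) (R * R) := (Up.mul hR hR).mono (by omega)
  exact (((u1.add u2).add u3).add u4) a (a + s) (by push_cast; omega)

theorem Up.solve {s : ℤ} {X Y U : Matrix (Fin n) (Fin n) (Frm k K)} (h : X = Y - U * X) (hY : Up s Y)
    (hU : Up 1 U) : Up s X := by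
  have key : ∀ m : ℕ, Up (min s (m - n)) X := by
    intro m
    induction m with
    | zero => exact (Up.low X).mono (by omega)
    | succ m ih =>
      have h1 : Up (min s ((m + 1 : ℕ) - n)) (Y - U * X) :=
        (hY.mono (by omega)).sub ((Up.mul hU ih).mono (by omega))
      rwa [← h] at h1
  exact (key (n + s.toNat)).mono (by omega)

theorem Up.pow {u : Matrix (Fin n) (Fin n) K} (h : Up 1 u) (m : ℕ) : Up m (u ^ m) := by
  induction m with
  | zero =>
    rw [pow_zero]
    exact Up.one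
  | succ m ih =>
    rw [pow_succ]
    exact (Up.mul ih h).mono (by push_cast; omega)

/-- unipotent matrices are invertible -/
theorem unip {u : Matrix (Fin n) (Fin n) K} (h : Up 1 u) : IsUnit (1 + u) := by
  refine IsNilpotent.isUnit_one_add ⟨n, ?_⟩
  exact Up.top (by omega) (Up.pow h n)

/-- the matrix with the entries `y` on the diagonal `j` -/
def dg (j : ℕ) (y : ℕ → K) : Matrix (Fin n) (Fin n) K :=
  Matrix.of fun a b => if (b : ℕ) = a + j then y a else 0

theorem gt_dg (j : ℕ) (y : ℕ → K) (a b : ℕ) :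
    gt (dg j y : Matrix (Fin n) (Fin n) K) a b = if a < n ∧ b < n ∧ b = a + j then y a else 0 := by
  by_cases h : a < n ∧ b < n
  · rw [gt_of _ h.1 h.2]
    show (if b = a + j then y a else 0) = _
    simp only [h.1, h.2, true_and]
  · rw [gt_out _ h, if_neg (fun h' => h ⟨h'.1, h'.2.1⟩)]

theorem up_dg (j : ℕ) (y : ℕ → K) : Up j (dg j y : Matrix (Fin n) (Fin n) K) := by
  intro a b h
  rw [gt_dg, if_neg (by omega)]

/-- **Effect of a gauge transformation `1 + u`, `u` of degree `j + 1`.** -/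
theorem gau_deg {A W : Matrix (Fin n) (Fin n) (Frm k K)} (hA : OneF A) (hF : Fl A) (hW : Up 0 (A - W))
    (hW1 : Up (-1) W) (j : ℕ) {u : Matrix (Fin n) (Fin n) K} (hu : Up (j + 1) u) :
    ∃ A', OneF A' ∧ Fl A' ∧ (emb k (1 + u) * A' = A * emb k (1 + u) + dM (emb k (1 + u))) ∧
      Up j (A' - A) ∧ Up (j + 1) (A' - A - (W * emb k u - emb k u * W)) := by
  have hu1 : Up 1 u := hu.mono (by omega)
  obtain ⟨A', h1, h2, h3⟩ := Gau.mk hA hF (unip hu1)
  refine ⟨A', h1, h2, h3, ?_⟩
  have hU : Up (j + 1 : ℤ) (emb k u) := up_emb hu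
  have hU1 : Up 1 (emb k u) := up_emb hu1
  have hAm : Up (-1) A := by
    have h4 := (hW.mono (show (-1 : ℤ) ≤ 0 by omega)).add hW1
    rwa [sub_add_cancel] at h4
  set U := emb k u with hUd
  have hG : emb k (1 + u) = 1 + U := by rw [emb_add, emb_one]
  have hd : dM (1 + U) = dM U := by rw [dM_add, dM_one, zero_add]
  rw [hG, hd] at h3
  have hX : A' - A = (A * U - U * A + dM U) - U * (A' - A) := by
    have e : A' - A - ((A * U - U * A + dM U) - U * (A' - A)) =
        (1 + U) * A' - (A * (1 + U) + dM U) := by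
      simp only [add_mul, mul_add, one_mul, mul_one, mul_sub]
      abel
    rw [h3, sub_self] at e
    exact sub_eq_zero.1 e
  have hY : Up (j : ℤ) (A * U - U * A + dM U) :=
    (((Up.mul hAm hU).mono (by omega)).sub ((Up.mul hU hAm).mono (by omega))).add
      ((up_dM hU).mono (by omega))
  have hXj : Up (j : ℤ) (A' - A) := Up.solve hX hY hU1
  refine ⟨hXj, ?_⟩
  have e : A' - A - (W * U - U * W) = ((A - W) * U - U * (A - W)) + dM U - U * (A' - A) := by
    have e2 : A' - A - (W * U - U * W) = ((A * U - U * A + dM U) - U * (A' - A)) - (W * U - U * W) := by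
      rw [← hX]
    rw [e2]
    simp only [sub_mul, mul_sub]
    abel
  rw [e]
  exact ((((Up.mul hW hU).mono (by omega)).sub ((Up.mul hU hW).mono (by omega))).add
    (up_dM hU)).sub ((Up.mul hU hXj).mono (by omega))

/-- the sums of the entries of the powers of `f` -/
theorem sum_fp [CharZero K] (j : ℕ) (hj : j < n) :
    ∑ a ∈ range (n - j), gt (fM K n ^ j) a (a + j) ≠ 0 := by
  have h : 0 < ∑ a ∈ range (n - j), gt (fN n ^ j) a (a + j) := by
    refine Finset.sum_pos (fun a ha => ?_) ⟨0, Finset.mem_range.2 (by omega)⟩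
    rw [Finset.mem_range] at ha
    exact (fN_pow j).2 a (by omega)
  have e : ∑ a ∈ range (n - j), gt (fM K n ^ j) a (a + j) =
      ((∑ a ∈ range (n - j), gt (fN n ^ j) a (a + j) : ℕ) : K) := by
    rw [Nat.cast_sum]
    exact Finset.sum_congr rfl fun a _ => gt_fp j a (a + j)
  rw [e]
  exact_mod_cast h.ne'

/-- **Normalisation of one diagonal.** -/
theorem gk [CharZero K] {A S₀ : Matrix (Fin n) (Fin n) (Frm k K)} (hA : OneF A) (hF : Fl A)
    (γ : Ω[K⁄k]) (hS : Up 0 (S₀ - T (ι K γ) (eM K n))) (j : ℕ) (hj : j < n) (hR : Up j (A - S₀))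
    (b : ℕ → K) (hb : ∀ a, a + j < n → gt (A - S₀) a (a + j) = ι K (b a • γ)) :
    ∃ (c : K) (g : Matrix (Fin n) (Fin n) K) (A' : Matrix (Fin n) (Fin n) (Frm k K)), Up 1 (g - 1) ∧
      OneF A' ∧ Fl A' ∧ (emb k g * A' = A * emb k g + dM (emb k g)) ∧
      Up (j + 1) (A' - (S₀ + T (ι K (c • γ)) (fM K n ^ j))) := by
  have hs := sum_fp (K := K) j hj
  set s := ∑ a ∈ range (n - j), gt (fM K n ^ j) a (a + j) with hsd
  set c : K := (∑ a ∈ range (n - j), b a) / s with hc
  set y : ℕ → K := fun a => ∑ x ∈ range (a + 1), (b x - c * gt (fM K n ^ j) x (x + j)) with hy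
  have hy0 : y (n - j - 1) = 0 := by
    show ∑ x ∈ range (n - j - 1 + 1), (b x - c * gt (fM K n ^ j) x (x + j)) = 0
    rw [show n - j - 1 + 1 = n - j by omega, Finset.sum_sub_distrib, ← Finset.mul_sum, ← hsd, hc,
      div_mul_cancel₀ _ hs, sub_self]
  set u : Matrix (Fin n) (Fin n) K := dg (j + 1) y with hu
  have huj : Up (j + 1 : ℤ) u := by
    have h := up_dg (n := n) (j + 1) y
    exact_mod_cast h
  have hW1 : Up (-1) (T (ι K γ) (eM K n)) := up_T up_e _
  have hW : Up 0 (A - T (ι K γ) (eM K n)) := by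
    have h := (hR.mono (show (0 : ℤ) ≤ j by omega)).add hS
    rwa [sub_add_sub_cancel] at h
  obtain ⟨A', h1, h2, h3, h4, h5⟩ := gau_deg hA hF hW hW1 j huj
  refine ⟨c, 1 + u, A', ?_, h1, h2, h3, ?_⟩
  · rw [add_sub_cancel_left]
    exact huj.mono (by omega)
  set W := T (ι K γ) (eM K n) with hWd
  set U := emb k u with hUd
  have hfj : Up (j : ℤ) (T (ι K (c • γ)) (fM K n ^ j)) := up_T (up_fp j) _
  have hWU : Up (j : ℤ) (W * U - U * W) := by
    have hU : Up (j + 1 : ℤ) U := up_emb huj
    exact ((Up.mul hW1 hU).mono (by omega)).sub ((Up.mul hU hW1).mono (by omega))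
  have e : A' - (S₀ + T (ι K (c • γ)) (fM K n ^ j)) = (A' - A - (W * U - U * W)) +
      ((A - S₀) + (W * U - U * W) - T (ι K (c • γ)) (fM K n ^ j)) := by abel
  rw [e]
  refine h5.add ?_
  have hlow : Up (j : ℤ) ((A - S₀) + (W * U - U * W) - T (ι K (c • γ)) (fM K n ^ j)) :=
    (hR.add hWU).sub hfj
  intro a x hx
  by_cases hxa : (x : ℤ) < a + j
  · exact hlow a x hxa
  have hxe : x = a + j := by omega
  by_cases hn : a + j < n
  · rw [hxe, gt_sub, gt_add, hb a hn, gt_sub (W * U), gt_T, gt_er, gt_emb]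
    have ewu : gt (W * U) a (a + j) = ι K γ * algebraMap K _ (if a = 0 then 0 else y (a - 1)) := by
      cases a with
      | zero => rw [gt_el0, if_pos rfl, map_zero, mul_zero]
      | succ a =>
        rw [gt_el _ _ _ _ (by omega), if_neg (Nat.succ_ne_zero a), gt_emb, gt_dg, if_pos ⟨by omega, by omega, by omega⟩,
          Nat.add_sub_cancel]
    have euw : gt u a (a + j + 1) = y a := by
      rw [hu, gt_dg]
      by_cases h6 : a + j + 1 < n
      · rw [if_pos ⟨by omega, h6, by omega⟩]
      · rw [if_neg (by omega), show a = n - j - 1 by omega, hy0]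
    rw [ewu, euw, map_smul, map_smul, Algebra.smul_def, Algebra.smul_def, Algebra.smul_def]
    have c1 : ι K γ * algebraMap K (Frm k K) (if a = 0 then 0 else y (a - 1)) =
        algebraMap K (Frm k K) (if a = 0 then 0 else y (a - 1)) * ι K γ := (Algebra.commutes _ _).symm
    rw [c1, ← mul_assoc, ← map_mul, ← sub_mul, ← map_sub, ← add_mul, ← map_add, ← sub_mul, ← map_sub]
    have c2 : b a + ((if a = 0 then 0 else y (a - 1)) - y a) - gt (fM K n ^ j) a (a + j) * c = 0 := by
      cases a with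
      | zero =>
        rw [if_pos rfl]
        show b 0 + (0 - ∑ x ∈ range (0 + 1), (b x - c * gt (fM K n ^ j) x (x + j))) - _ = 0
        rw [Finset.sum_range_one]
        ring
      | succ a =>
        rw [if_neg (Nat.succ_ne_zero a), Nat.add_sub_cancel]
        show b (a + 1) + (∑ x ∈ range (a + 1), (b x - c * gt (fM K n ^ j) x (x + j)) -
          ∑ x ∈ range (a + 1 + 1), (b x - c * gt (fM K n ^ j) x (x + j))) - _ = 0
        rw [Finset.sum_range_succ _ (a + 1)]
        ring
    rw [c2, map_zero, zero_mul]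
  · exact gt_out _ (by omega)

end Pool.Agent.CFl
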