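import Pool.Agent.Lib.MP_7baa7a_ag.CF.Loop

/-!
# The first steps: the diagonal below the main one, and the main diagonal
-/

set_option autoImplicit false

noncomputable section

namespace Pool.Agent.CFl

open ExteriorAlgebra Finset

variable {k K : Type} [Field k] [Field K] [Algebra k K] {n : ℕ}

/-- the Kodaira-Spencer forms are proportional -/
theorem prop_ks {A : Matrix (Fin n) (Fin n) (Frm k K)} (hA : OneF A) (hF : Fl A) (hH : Up (-1) A)
    (hne : ∀ a, a + 1 < n → gt A (a + 1) a ≠ 0) (hn : 2 ≤ n) :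
    ∃ (γ : Ω[K⁄k]) (c : ℕ → K), γ ≠ 0 ∧ ∀ a, a + 1 < n → c a ≠ 0 ∧ gt A (a + 1) a = ι K (c a • γ) := by
  obtain ⟨γ, hγ⟩ := one_gt hA 1 0
  have hγ0 : γ ≠ 0 := by
    rintro rfl
    rw [map_zero] at hγ
    exact hne 0 (by omega) hγ
  have key : ∀ a, a + 1 < n → ∃ c : K, c ≠ 0 ∧ gt A (a + 1) a = ι K (c • γ) := by
    intro a
    induction a with
    | zero => exact fun _ => ⟨1, one_ne_zero, by rw [one_smul]; exact hγ⟩
    | succ a ih =>
      intro ha
      obtain ⟨c, hc0, hc⟩ := ih (by omega)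
      obtain ⟨w, hw⟩ := one_gt hA (a + 1 + 1) (a + 1)
      have h0 : gt (dM A + A * A) (a + 1 + 1) a = 0 := by
        have h1 : dM A + A * A = 0 := hF
        rw [h1, gt_zero]
      rw [gt_add, gt_dM, hH _ _ (by push_cast; omega), map_zero, zero_add, gt_mul _ _ _ _ ha (by omega),
        Finset.sum_eq_single (a + 1)] at h0
      · rw [hw, hc, map_smul, mul_smul_comm, ι_swap, smul_neg, neg_eq_zero, smul_eq_zero] at h0
        obtain ⟨x, hx⟩ := divi hγ0 (h0.resolve_left hc0)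
        refine ⟨x, ?_, by rw [hw, hx]⟩
        rintro rfl
        rw [zero_smul] at hx
        exact hne (a + 1) ha (by rw [hw, hx, map_zero])
      · intro b _ hb
        rcases Nat.lt_or_ge b (a + 1) with h | h
        · rw [hH (a + 1 + 1) b (by push_cast; omega), zero_mul]
        · rw [hH b a (by omega), mul_zero]
      · intro h
        rw [Finset.mem_range] at h
        omega
  choose! c hc using key
  exact ⟨γ, c, hγ0, hc⟩

/-- the diagonal matrix -/
def dia (y : ℕ → K) : Matrix (Fin n) (Fin n) K := Matrix.diagonal fun i => y i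

theorem gt_dia (y : ℕ → K) (a b : ℕ) (ha : a < n) (hb : b < n) :
    gt (dia y : Matrix (Fin n) (Fin n) K) a b = if a = b then y a else 0 := by
  rw [gt_of _ ha hb]
  show Matrix.diagonal (fun i : Fin n => y i) ⟨a, ha⟩ ⟨b, hb⟩ = _
  rw [Matrix.diagonal_apply]
  simp only [Fin.mk.injEq]

theorem gt_dial (y : ℕ → K) (X : Matrix (Fin n) (Fin n) (Frm k K)) (a b : ℕ) (ha : a < n) (hb : b < n) :
    gt (emb k (dia y) * X) a b = y a • gt X a b := by
  rw [gt_mul _ _ _ _ ha hb, Finset.sum_eq_single a]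
  · rw [gt_emb, gt_dia _ _ _ ha ha, if_pos rfl, Algebra.smul_def]
  · intro c hc hca
    rw [Finset.mem_range] at hc
    rw [gt_emb, gt_dia _ _ _ ha hc, if_neg (Ne.symm hca), map_zero, zero_mul]
  · intro h
    rw [Finset.mem_range] at h
    omega

theorem gt_diar (y : ℕ → K) (X : Matrix (Fin n) (Fin n) (Frm k K)) (a b : ℕ) (ha : a < n) (hb : b < n) :
    gt (X * emb k (dia y)) a b = y b • gt X a b := by
  rw [gt_mul _ _ _ _ ha hb, Finset.sum_eq_single b]
  · rw [gt_emb, gt_dia _ _ _ hb hb, if_pos rfl, Algebra.smul_def]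
    exact (Algebra.commutes _ _).symm
  · intro c hc hca
    rw [Finset.mem_range] at hc
    rw [gt_emb, gt_dia _ _ _ hc hb, if_neg hca, map_zero, mul_zero]
  · intro h
    rw [Finset.mem_range] at h
    omega

theorem gt_dM_dia (y : ℕ → K) (a b : ℕ) (h : a ≠ b) :
    gt (dM (emb k (dia y : Matrix (Fin n) (Fin n) K))) a b = 0 := by
  by_cases hab : a < n ∧ b < n
  · rw [gt_dM, gt_emb, gt_dia _ _ _ hab.1 hab.2, if_neg h, map_zero, map_zero]
  · exact gt_out _ hab

/-- **First step.** -/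
theorem step1 {A : Matrix (Fin n) (Fin n) (Frm k K)} (hA : OneF A) (hF : Fl A) (hH : Up (-1) A)
    (hne : ∀ a, a + 1 < n → gt A (a + 1) a ≠ 0) (hn : 2 ≤ n) :
    ∃ (γ : Ω[K⁄k]) (A' : Matrix (Fin n) (Fin n) (Frm k K)), γ ≠ 0 ∧ Gt A A' ∧ OneF A' ∧ Fl A' ∧
      Up 0 (A' - T (ι K γ) (eM K n)) := by
  obtain ⟨γ, c, hγ, hc⟩ := prop_ks hA hF hH hne hn
  let y : ℕ → K := fun a => ∏ b ∈ range a, c b
  have hy : ∀ a, a < n → y a ≠ 0 := by
    intro a ha
    refine Finset.prod_ne_zero_iff.2 fun b hb => ?_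
    rw [Finset.mem_range] at hb
    exact (hc b (by omega)).1
  have hys : ∀ a, y (a + 1) = y a * c a := fun a => Finset.prod_range_succ _ _
  have hu : IsUnit (dia y : Matrix (Fin n) (Fin n) K) := by
    rw [Matrix.isUnit_iff_isUnit_det]
    unfold dia
    rw [Matrix.det_diagonal, isUnit_iff_ne_zero, Finset.prod_ne_zero_iff]
    exact fun i _ => hy i i.2
  obtain ⟨A', a1, a2, a3⟩ := Gau.mk hA hF hu
  have hent : ∀ a b, a < n → b < n → a ≠ b → y a • gt A' a b = y b • gt A a b := by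
    intro a b ha hb hab
    have h : gt (emb k (dia y) * A') a b = gt (A * emb k (dia y) + dM (emb k (dia y))) a b := by rw [a3]
    rw [gt_add, gt_dial _ _ _ _ ha hb, gt_diar _ _ _ _ ha hb, gt_dM_dia _ _ _ hab, add_zero] at h
    exact h
  refine ⟨γ, A', hγ, ⟨dia y, hu, ?_, a3⟩, a1, a2, ?_⟩
  · intro a b hab
    by_cases h : a < n ∧ b < n
    · rw [gt_dia _ _ _ h.1 h.2, if_neg (by omega)]
    · exact gt_out _ h
  · intro a b hab
    by_cases h : a < n ∧ b < n
    · obtain ⟨ha, hb⟩ := h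
      rw [gt_sub, gt_T, gt_eM _ _ ha hb]
      have h1 := hent a b ha hb (by omega)
      by_cases hab1 : a = b + 1
      · subst hab1
        rw [if_pos rfl, one_smul]
        obtain ⟨h2, h3⟩ := hc b ha
        rw [h3, map_smul, smul_smul, ← hys] at h1
        rw [smul_right_injective _ (hy (b + 1) ha) h1, sub_self]
      · rw [if_neg hab1, zero_smul, sub_zero]
        rw [hH a b (by omega), smul_zero] at h1
        exact (smul_eq_zero.1 h1).resolve_left (hy a ha)
    · exact gt_out _ h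

/-- **The first two steps.** -/
theorem init [CharZero K] {A : Matrix (Fin n) (Fin n) (Frm k K)} (hA : OneF A) (hF : Fl A) (hH : Up (-1) A)
    (hne : ∀ a, a + 1 < n → gt A (a + 1) a ≠ 0) (hn : 2 ≤ n) :
    ∃ (ζ γ η : Ω[K⁄k]) (A' : Matrix (Fin n) (Fin n) (Frm k K)), γ ≠ 0 ∧ Gt A A' ∧ OneF A' ∧ Fl A' ∧
      Up 1 (A' - S n ζ γ η (fun _ => 0) 1) := by
  obtain ⟨γ, B, hγ, b1, b2, b3, b4⟩ := step1 hA hF hH hne hn
  set W := T (ι K γ) (eM K n) with hW
  set R := B - W with hR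
  have hRo : OneF R := b2.sub (one_T _ _)
  choose v hv using fun a => one_gt hRo a a
  have hrel : ∀ a, a + 1 < n → ι K γ * ι K (v (a + 1)) = dd k K (ι K γ) + ι K γ * ι K (v a) := by
    intro a ha
    have e : dM B + B * B = dM W + W * W + (W * R + R * W) + (dM R + R * R) := by
      have e1 : B = W + R := by rw [hR]; abel
      rw [e1, dM_add]
      simp only [add_mul, mul_add]
      abel
    have h0 : gt (dM B + B * B) (a + 1) a = 0 := by
      have h1 : dM B + B * B = 0 := b3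
      rw [h1, gt_zero]
    have hlow : gt (dM R + R * R) (a + 1) a = 0 :=
      ((up_dM b4).add ((Up.mul b4 b4).mono (by omega))) (a + 1) a (by push_cast; omega)
    have hWW : W * W = 0 := sq_T _ _ _
    rw [e, gt_add, hlow, add_zero, gt_add, hWW, add_zero, gt_add, gt_el _ _ _ _ ha, gt_er, gt_dM, gt_T,
      gt_eM _ _ ha (by omega), if_pos rfl, one_smul, hv, hv, ι_swap (v (a + 1)), ← add_assoc,
      add_neg_eq_zero] at h0
    exact h0.symm
  obtain ⟨η, hη⟩ : ∃ η : Ω[K⁄k], η = (2 : K)⁻¹ • (v 1 - v 0) := ⟨_, rfl⟩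
  obtain ⟨ζ, hζ⟩ : ∃ ζ : Ω[K⁄k], ζ = v 0 + ((n : K) - 1) • η := ⟨_, rfl⟩
  have hγη : dd k K (ι K γ) = (2 : K) • (ι K γ * ι K η) := by
    have h := hrel 0 (by omega)
    rw [hη, map_smul, map_sub, mul_smul_comm, smul_smul, mul_inv_cancel₀ two_ne_zero, one_smul, mul_sub, h,
      add_sub_cancel_right]
  have hform : ∀ a, a < n → ι K γ * ι K (v a - ζ - (2 * (a : K) + 1 - n) • η) = 0 := by
    intro a
    induction a with
    | zero =>
      intro _
      have e : v 0 - ζ - (2 * ((0 : ℕ) : K) + 1 - n) • η = 0 := by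
        rw [hζ]
        have e1 : (2 * ((0 : ℕ) : K) + 1 - n) = -((n : K) - 1) := by push_cast; ring
        rw [e1, neg_smul]
        abel
      rw [e, map_zero, mul_zero]
    | succ a ih =>
      intro ha
      have h := ih (by omega)
      have e1 : (2 * ((a + 1 : ℕ) : K) + 1 - n) = (2 * (a : K) + 1 - n) + 2 := by push_cast; ring
      have e2 : v (a + 1) - ζ - (2 * ((a + 1 : ℕ) : K) + 1 - n) • η =
          (v a - ζ - (2 * (a : K) + 1 - n) • η) + (v (a + 1) - v a - (2 : K) • η) := by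
        rw [e1, add_smul]
        abel
      rw [e2, map_add, mul_add, h, zero_add, map_sub, map_sub, map_smul, mul_sub, mul_sub, mul_smul_comm, hrel a ha,
        hγη]
      abel
  have hS : B - S n ζ γ η (fun _ => 0) 1 = R - T (ι K ζ) 1 - T (ι K η) (hM K n) := by
    rw [S_one, hR]
    abel
  obtain ⟨ζ', A', g1, g2, g3, g4⟩ := stage0 (φ := fun _ => 0) (ζ := ζ) (γ := γ) (η := η) b2 b3 (by omega) (by
      rw [hS]
      exact (b4.sub (up_T Up.one _)).sub (up_T up_h _)) (by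
      intro a ha
      have e1 : gt (B - S n ζ γ η (fun _ => 0) 1) a a = ι K (v a - ζ - (2 * (a : K) + 1 - n) • η) := by
        rw [hS, gt_sub, gt_sub, gt_T, gt_T, gt_one _ _ ha ha, gt_hM _ _ ha ha, if_pos rfl, if_pos rfl, one_smul,
          hv, map_sub, map_sub, map_smul]
      obtain ⟨x, hx⟩ := divi hγ (hform a ha)
      exact ⟨x, by rw [e1, hx]⟩)
  exact ⟨ζ', γ, η, A', hγ, b1.trans g1, g2, g3, g4⟩

/-- **Theorem: the normal form.**  A flat connection with a complete Griffiths transverse flag and nonzero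
Kodaira-Spencer maps. -/
theorem nf [CharZero K] {A : Matrix (Fin n) (Fin n) (Frm k K)} (hA : OneF A) (hF : Fl A) (hH : Up (-1) A)
    (hne : ∀ a, a + 1 < n → gt A (a + 1) a ≠ 0) (hn : 2 ≤ n) :
    ∃ (ζ γ η : Ω[K⁄k]) (ψ : ℕ → Ω[K⁄k]), γ ≠ 0 ∧ Gt A (S n ζ γ η ψ n) ∧ Fl (S n ζ γ η ψ n) ∧
      (∀ t, 2 ≤ t → ι K γ * ι K (ψ t) = 0) ∧
      ((∀ t, 2 ≤ t → t < n → ψ t = 0) ∨
        ((∀ t, 1 ≤ t → t < n → ι K γ * ι K (ψ t) = 0) ∧ ∃ (q : K) (m : ℕ), q ≠ 0 ∧ 2 ≤ m ∧ m < n ∧
          η = (2 * ((m : K) + 1) * q)⁻¹ • KaehlerDifferential.D k K q)) := by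
  obtain ⟨ζ, γ, η, B, hγ, b1, b2, b3, b4⟩ := init hA hF hH hne hn
  obtain ⟨ψ, c1, c2, c3⟩ := loop hγ b2 b3 hn b4
  by_cases h : ∀ t, 2 ≤ t → t < n → ψ t = 0
  · exact ⟨ζ, γ, η, ψ, hγ, b1.trans c2, c3, c1, Or.inl h⟩
  · push Not at h
    obtain ⟨m, m1, m2, m3⟩ := h
    obtain ⟨q, ζ', χ, hq, d1, d2, d3⟩ := second hγ hn c1 c3 m1 m2 m3
    refine ⟨ζ', γ, _, fun t => if t < n then χ t else 0, hγ, ?_, ?_, ?_, Or.inr ⟨?_, q, m, hq, m1, m2, rfl⟩⟩
    · rw [S_congr ζ' γ _ (ψ := χ) (fun t _ ht => if_pos ht)]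
      exact (b1.trans c2).trans d2
    · rw [S_congr ζ' γ _ (ψ := χ) (fun t _ ht => if_pos ht)]
      exact d3
    · intro t ht
      show ι K γ * ι K (if t < n then χ t else 0) = 0
      by_cases h : t < n
      · rw [if_pos h]
        exact d1 t (by omega) h
      · rw [if_neg h, map_zero, mul_zero]
    · intro t ht htn
      show ι K γ * ι K (if t < n then χ t else 0) = 0
      rw [if_pos htn]
      exact d1 t ht htn

end Pool.Agent.CFl
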