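import Pool.Agent.Lib.MP_7baa7a_ag.CF.Tr
import Mathlib.LinearAlgebra.Matrix.Transvection

/-!
# Traces of odd powers are gauge invariant modulo exact forms
-/

set_option autoImplicit false

noncomputable section

namespace Pool.Agent.CFl

open ExteriorAlgebra Finset

variable {k K : Type} [Field k] [Field K] [Algebra k K] {n : ℕ}

theorem T_mul_emb (v : Frm k K) (M g : Matrix (Fin n) (Fin n) K) : T v M * emb k g = T v (M * g) := by
  ext i j
  show (T v M * emb k g) i j = (M * g) i j • v
  rw [Matrix.mul_apply, Matrix.mul_apply, Finset.sum_smul]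
  refine Finset.sum_congr rfl fun c _ => ?_
  show M i c • v * algebraMap K _ (g c j) = (M i c * g c j) • v
  rw [← Algebra.commutes, ← Algebra.smul_def, smul_smul, mul_comm]

/-- the property of a gauge transformation -/
def Inv (k : Type) {K : Type} [Field k] [Field K] [Algebra k K] {n : ℕ} (g : Matrix (Fin n) (Fin n) K) :
    Prop :=
  ∀ A A' : Matrix (Fin n) (Fin n) (Frm k K), OneF A → Fl A →
    emb k g * A' = A * emb k g + dM (emb k g) → ∀ m : ℕ,
      Ex ((A' ^ (2 * m + 3)).trace - (A ^ (2 * m + 3)).trace)

theorem inv_mul {g h : Matrix (Fin n) (Fin n) K} (hu : IsUnit g) (hg : Inv k g) (hh : Inv k h) :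
    Inv k (g * h) := by
  intro A C hA hF hC m
  obtain ⟨B, hB, hFB, hBA⟩ := Gau.mk hA hF hu
  obtain ⟨u, rfl⟩ := hu
  have e2 : emb k ((u⁻¹ : (Matrix (Fin n) (Fin n) K)ˣ) : Matrix (Fin n) (Fin n) K) *
      emb k (u : Matrix (Fin n) (Fin n) K) = 1 := by
    rw [← emb_mul, Units.inv_mul, emb_one]
  have h1 : emb k h * C = B * emb k h + dM (emb k h) := by
    have h2 : emb k (u : Matrix (Fin n) (Fin n) K) * (emb k h * C) =
        emb k (u : Matrix (Fin n) (Fin n) K) * (B * emb k h + dM (emb k h)) := by
      rw [mul_add, ← mul_assoc, ← mul_assoc, ← emb_mul, hC, hBA, emb_mul, dM_emb_mul, add_mul, mul_assoc,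
        add_assoc]
    have h3 := congrArg (fun X => emb k ((u⁻¹ : (Matrix (Fin n) (Fin n) K)ˣ) : Matrix (Fin n) (Fin n) K) * X) h2
    simp only [← mul_assoc, e2, one_mul] at h3
    exact h3
  have h4 := (hg A B hA hF hBA m).add (hh B C hB hFB h1 m)
  rwa [show ((B ^ (2 * m + 3)).trace - (A ^ (2 * m + 3)).trace) + ((C ^ (2 * m + 3)).trace -
    (B ^ (2 * m + 3)).trace) = (C ^ (2 * m + 3)).trace - (A ^ (2 * m + 3)).trace by abel] at h4

theorem inv_tv (i j : Fin n) (hij : i ≠ j) (c : K) : Inv k (Matrix.transvection i j c) := by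
  intro A A' hA hF h m
  refine inv_el hA hF ?_ h (KaehlerDifferential.D k K c) i j (dd_D _) ?_ m
  · rw [Matrix.isUnit_iff_isUnit_det, Matrix.det_transvection_of_ne i j hij c]
    exact isUnit_one
  · rw [T_mul_emb]
    ext a b
    show dd k K (algebraMap K _ (Matrix.transvection i j c a b)) =
      ((E1 i j * Matrix.transvection i j c : Matrix (Fin n) (Fin n) K)) a b • ι K (KaehlerDifferential.D k K c)
    rw [dd_alg]
    have h1 : E1 i j * Matrix.transvection i j c = (E1 i j : Matrix (Fin n) (Fin n) K) := by
      unfold E1 Matrix.transvection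
      rw [mul_add, mul_one, Matrix.single_mul_single_of_ne _ _ _ _ hij.symm, add_zero]
    rw [h1]
    unfold E1 Matrix.transvection
    rw [Matrix.add_apply, map_add, Matrix.single_apply, Matrix.single_apply, Matrix.one_apply]
    have h2 : KaehlerDifferential.D k K (if a = b then (1 : K) else 0) = 0 := by
      split_ifs
      · exact Derivation.map_one_eq_zero _
      · exact map_zero _
    rw [h2, zero_add]
    split_ifs
    · rw [one_smul]
    · rw [map_zero, map_zero, zero_smul]

theorem D_inv (c : K) (hc : c ≠ 0) : KaehlerDifferential.D k K c⁻¹ = -(c⁻¹ * c⁻¹) • KaehlerDifferential.D k K c := by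
  have h1 : KaehlerDifferential.D k K (c * c⁻¹) = 0 := by
    rw [mul_inv_cancel₀ hc]
    exact Derivation.map_one_eq_zero _
  rw [Derivation.leibniz] at h1
  have h2 : c⁻¹ • (c • KaehlerDifferential.D k K c⁻¹ + c⁻¹ • KaehlerDifferential.D k K c) = 0 := by
    rw [h1, smul_zero]
  rw [smul_add, smul_smul, smul_smul, inv_mul_cancel₀ hc, one_smul] at h2
  rw [eq_neg_of_add_eq_zero_left h2, neg_smul]

theorem inv_sd (a : Fin n) (c : K) (hc : c ≠ 0) : Inv k (Matrix.diagonal (Function.update 1 a c)) := by
  intro A A' hA hF h m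
  refine inv_el hA hF ?_ h (c⁻¹ • KaehlerDifferential.D k K c) a a ?_ ?_ m
  · rw [Matrix.isUnit_iff_isUnit_det, Matrix.det_diagonal, isUnit_iff_ne_zero]
    refine Finset.prod_ne_zero_iff.2 fun i _ => ?_
    by_cases hi : i = a
    · subst hi
      rwa [Function.update_self]
    · rw [Function.update_of_ne hi]
      exact one_ne_zero
  · rw [map_smul, dd_smul, dd_D, smul_zero, add_zero, D_inv c hc, map_smul, smul_mul_assoc, ι_sq_zero, smul_zero]
  · rw [T_mul_emb]
    ext i j
    show dd k K (algebraMap K _ (Matrix.diagonal (Function.update 1 a c) i j)) =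
      ((E1 a a * Matrix.diagonal (Function.update 1 a c) : Matrix (Fin n) (Fin n) K)) i j •
        ι K (c⁻¹ • KaehlerDifferential.D k K c)
    rw [dd_alg, Matrix.mul_diagonal]
    unfold E1
    rw [Matrix.single_apply, Matrix.diagonal_apply]
    by_cases hi : i = a
    · subst hi
      by_cases hj : i = j
      · subst hj
        rw [if_pos rfl, if_pos ⟨rfl, rfl⟩, Function.update_self, one_mul, map_smul, smul_smul, mul_inv_cancel₀ hc,
          one_smul]
      · have h3 : ¬ (i = i ∧ i = j) := fun h => hj h.2
        rw [if_neg hj, if_neg h3, zero_mul, zero_smul, map_zero, map_zero]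
    · have h3 : ¬ (a = i ∧ a = j) := fun h => hi h.1.symm
      rw [if_neg h3, zero_mul, zero_smul, Function.update_of_ne hi]
      split_ifs
      · rw [Pi.one_apply, Derivation.map_one_eq_zero, map_zero]
      · rw [map_zero, map_zero]

theorem inv_one : Inv k (1 : Matrix (Fin n) (Fin n) K) := by
  intro A A' _ _ h m
  rw [emb_one, dM_one, one_mul, mul_one, add_zero] at h
  rw [h, sub_self]
  exact Ex.zero

theorem inv_dg (D : Fin n → K) (hD : ∀ i, D i ≠ 0) : Inv k (Matrix.diagonal D) := by
  have key : ∀ s : Finset (Fin n), Inv k (Matrix.diagonal fun i => if i ∈ s then D i else 1) := by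
    intro s
    induction s using Finset.induction_on with
    | empty =>
      have : (fun i : Fin n => if i ∈ (∅ : Finset (Fin n)) then D i else 1) = 1 := by
        funext i
        simp
      rw [this]
      show Inv k (Matrix.diagonal fun _ => (1 : K))
      rw [Matrix.diagonal_one]
      exact inv_one
    | insert a s ha ih =>
      have h1 : (Matrix.diagonal fun i => if i ∈ insert a s then D i else 1) =
          Matrix.diagonal (Function.update 1 a (D a)) * Matrix.diagonal fun i => if i ∈ s then D i else 1 := by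
        rw [Matrix.diagonal_mul_diagonal]
        congr 1
        funext i
        by_cases hi : i = a
        · subst hi
          rw [if_pos (Finset.mem_insert_self _ _), Function.update_self, if_neg ha, mul_one]
        · rw [Function.update_of_ne hi, Pi.one_apply, one_mul]
          simp [hi]
      rw [h1]
      refine inv_mul ?_ (inv_sd a (D a) (hD a)) ih
      rw [Matrix.isUnit_iff_isUnit_det, Matrix.det_diagonal, isUnit_iff_ne_zero]
      refine Finset.prod_ne_zero_iff.2 fun i _ => ?_
      by_cases hi : i = a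
      · subst hi
        rw [Function.update_self]
        exact hD _
      · rw [Function.update_of_ne hi]
        exact one_ne_zero
  have := key Finset.univ
  simpa using this

/-- **Gauge invariance of the traces of odd powers.** -/
theorem inv {g : Matrix (Fin n) (Fin n) K} (hg : IsUnit g) : Inv k g := by
  have h1 : g.det ≠ 0 := ((Matrix.isUnit_iff_isUnit_det _).1 hg).ne_zero
  refine Matrix.diagonal_transvection_induction_of_det_ne_zero (Inv k) g h1 ?_ ?_ ?_
  · intro D hD
    refine inv_dg D fun i => ?_
    rw [Matrix.det_diagonal] at hD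
    exact (Finset.prod_ne_zero_iff.1 hD) i (Finset.mem_univ i)
  · intro t
    exact inv_tv t.i t.j t.hij t.c
  · intro A B hA _ hA' hB'
    exact inv_mul ((Matrix.isUnit_iff_isUnit_det _).2 (isUnit_iff_ne_zero.2 hA)) hA' hB'

/-- Gauge equivalent flat connections. -/
theorem Gau.ex {A A' : Matrix (Fin n) (Fin n) (Frm k K)} (hA : OneF A) (hF : Fl A) (h : Gau A A') (m : ℕ) :
    Ex ((A' ^ (2 * m + 3)).trace - (A ^ (2 * m + 3)).trace) := by
  obtain ⟨g, hg, h⟩ := h
  exact inv hg A A' hA hF h m

end Pool.Agent.CFl
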