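import Pool.Agent.Lib.MP_7baa7a_ag.CF.Stage

/-!
# The normal form
-/

set_option autoImplicit false

noncomputable section

namespace Pool.Agent.CFl

open ExteriorAlgebra Finset

variable {k K : Type} [Field k] [Field K] [Algebra k K] {n : ℕ}

/-- normalisation of the diagonal -/
theorem stage0 [CharZero K] {ζ γ η : Ω[K⁄k]} {φ : ℕ → Ω[K⁄k]} {A : Matrix (Fin n) (Fin n) (Frm k K)}
    (hA : OneF A) (hF : Fl A) (hn : 0 < n) (hR : Up 0 (A - S n ζ γ η φ 1))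
    (hb : ∀ a, a < n → ∃ c : K, gt (A - S n ζ γ η φ 1) a a = ι K (c • γ)) :
    ∃ (ζ' : Ω[K⁄k]) (A' : Matrix (Fin n) (Fin n) (Frm k K)), Gt A A' ∧ OneF A' ∧ Fl A' ∧
      Up 1 (A' - S n ζ' γ η (fun _ => 0) 1) := by
  choose! b hb using hb
  obtain ⟨c, g, A', g1, a1, a2, a3, a4⟩ := gk hA hF γ (up_S ζ γ η φ 1) 0 hn (by exact_mod_cast hR) b hb
  refine ⟨ζ + c • γ, A', ?_, a1, a2, ?_⟩
  · obtain ⟨u1, u2⟩ := up_one_add g1
    exact ⟨g, u1, u2, a3⟩
  · have e : S n (ζ + c • γ) γ η (fun _ => 0) 1 = S n ζ γ η φ 1 + T (ι K (c • γ)) (fM K n ^ 0) := by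
      rw [S_one, S_one, pow_zero, map_add, T_add_left]
      abel
    rw [e]
    exact_mod_cast a4

/-- the loop -/
theorem loop [CharZero K] {ζ γ η : Ω[K⁄k]} (hγ : γ ≠ 0) {A : Matrix (Fin n) (Fin n) (Frm k K)} (hA : OneF A)
    (hF : Fl A) (hn : 2 ≤ n) (hR : Up 1 (A - S n ζ γ η (fun _ => 0) 1)) :
    ∃ ψ : ℕ → Ω[K⁄k], (∀ t, 2 ≤ t → ι K γ * ι K (ψ t) = 0) ∧ Gt A (S n ζ γ η ψ n) ∧ Fl (S n ζ γ η ψ n) := by
  have key : ∀ m : ℕ, m + 2 ≤ n → ∃ (ψ : ℕ → Ω[K⁄k]) (A' : Matrix (Fin n) (Fin n) (Frm k K)),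
      (∀ t, 2 ≤ t → ι K γ * ι K (ψ t) = 0) ∧ Gt A A' ∧ OneF A' ∧ Fl A' ∧
      Up (m + 2 : ℕ) (A' - S n ζ γ η ψ (m + 2)) := by
    intro m
    induction m with
    | zero => exact fun _ => stage1 hγ hA hF hn hR
    | succ m ih =>
      intro hm
      obtain ⟨ψ, A', h1, h2, h3, h4, h5⟩ := ih (by omega)
      obtain ⟨ψ', A'', g1, g2, g3, g4, g5⟩ := stage hγ h1 h3 h4 (by omega) (by omega) h5
      exact ⟨ψ', A'', g1, h2.trans g2, g3, g4, g5⟩
  obtain ⟨ψ, A', h1, h2, -, h4, h5⟩ := key (n - 2) (by omega)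
  rw [Nat.sub_add_cancel hn] at h5
  have h6 : A' = S n ζ γ η ψ n := sub_eq_zero.1 (Up.top le_rfl h5)
  subst h6
  exact ⟨ψ, h1, h2, h4⟩

/-- **The relations between the coefficients.** -/
theorem rels [CharZero K] {ζ γ η : Ω[K⁄k]} {ψ : ℕ → Ω[K⁄k]} (hn : 2 ≤ n)
    (hψ : ∀ t, 2 ≤ t → ι K γ * ι K (ψ t) = 0) (hF : Fl (S n ζ γ η ψ n)) :
    dd k K (ι K ζ) = 0 ∧ dd k K (ι K γ) = (2 : K) • (ι K γ * ι K η) ∧
    dd k K (ι K η) = -(ι K γ * ι K (ψ 1)) ∧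
    ∀ t, 1 ≤ t → t < n → dd k K (ι K (ψ t)) = (2 * (t : K)) • (ι K η * ι K (ψ t)) := by
  have h0 : (Cu ζ γ η ψ n : Matrix (Fin n) (Fin n) (Frm k K)) = 0 := by
    rw [← curv ζ γ η ψ hψ (by omega)]
    exact hF
  have hs : (∑ t ∈ Ico 1 n, if t = 1 then ι K γ * ι K (ψ 1) else 0) = ι K γ * ι K (ψ 1) := by
    rw [Finset.sum_ite_eq' (Ico 1 n) 1, if_pos (Finset.mem_Ico.2 ⟨le_rfl, hn⟩)]
  have hd : ∀ a, a < n → dd k K (ι K ζ) + (2 * (a : K) + 1 - n) • (dd k K (ι K η) + ι K γ * ι K (ψ 1)) = 0 := by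
    intro a ha
    have h := gt_Cu_diag ζ γ η ψ n a ha
    rw [h0, gt_zero, hs] at h
    exact h.symm
  have e0 := hd 0 (by omega)
  have e1 := hd 1 (by omega)
  have e2 : (2 : K) • (dd k K (ι K η) + ι K γ * ι K (ψ 1)) = 0 := by
    have h : ((2 * ((1 : ℕ) : K) + 1 - n) - (2 * ((0 : ℕ) : K) + 1 - n)) •
        (dd k K (ι K η) + ι K γ * ι K (ψ 1)) = 0 := by
      rw [sub_smul, ← sub_self (0 : Frm k K)]
      nth_rewrite 1 [← e1]
      rw [← e0]
      abel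
    have e3 : ((2 * ((1 : ℕ) : K) + 1 - n) - (2 * ((0 : ℕ) : K) + 1 - n)) = 2 := by
      push_cast
      ring
    rwa [e3] at h
  have e3 : dd k K (ι K η) + ι K γ * ι K (ψ 1) = 0 := (smul_eq_zero.1 e2).resolve_left two_ne_zero
  refine ⟨?_, ?_, eq_neg_of_add_eq_zero_left e3, ?_⟩
  · rw [e3, smul_zero, add_zero] at e0
    exact e0
  · have h := gt_Cu_low ζ γ η ψ n 0 hn
    rw [h0, gt_zero] at h
    exact sub_eq_zero.1 h.symm
  · intro t h1 h2
    have h := gt_Cu_up (n := n) ζ γ η ψ n t h1 h2 0 (by omega)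
    rw [h0, gt_zero] at h
    have h5 : 0 < gt (fN n ^ t) 0 (0 + t) := (fN_pow t).2 0 (by omega)
    have h3 : gt (fM K n ^ t) 0 (0 + t) ≠ 0 := by
      rw [gt_fp]
      exact_mod_cast h5.ne'
    have h4 : rho η ψ t = (0 : Frm k K) := (smul_eq_zero.1 h.symm).resolve_left h3
    exact sub_eq_zero.1 h4

/-- **The second pass.**  If the normal form has a term `q γ f ^ m`, `q ≠ 0`, `2 ≤ m`, then `η` can be made closed. -/
theorem second [CharZero K] {ζ γ η : Ω[K⁄k]} (hγ : γ ≠ 0) {ψ : ℕ → Ω[K⁄k]} (hn : 2 ≤ n)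
    (hψ : ∀ t, 2 ≤ t → ι K γ * ι K (ψ t) = 0) (hF : Fl (S n ζ γ η ψ n)) {m : ℕ} (hm : 2 ≤ m) (hmn : m < n)
    (h0 : ψ m ≠ 0) :
    ∃ (q : K) (ζ' : Ω[K⁄k]) (χ : ℕ → Ω[K⁄k]), q ≠ 0 ∧ (∀ t, 1 ≤ t → t < n → ι K γ * ι K (χ t) = 0) ∧
      Gt (S n ζ γ η ψ n) (S n ζ' γ ((2 * ((m : K) + 1) * q)⁻¹ • KaehlerDifferential.D k K q) χ n) ∧
      Fl (S n ζ' γ ((2 * ((m : K) + 1) * q)⁻¹ • KaehlerDifferential.D k K q) χ n) := by
  obtain ⟨r1, r2, r3, r4⟩ := rels hn hψ hF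
  obtain ⟨q, hq⟩ := divi hγ (hψ m hm)
  have hq0 : q ≠ 0 := by
    rintro rfl
    rw [zero_smul] at hq
    exact h0 hq
  have hm1 : (m : K) + 1 ≠ 0 := by exact_mod_cast Nat.succ_ne_zero m
  set η' : Ω[K⁄k] := (2 * ((m : K) + 1) * q)⁻¹ • KaehlerDifferential.D k K q with hη'
  -- `η = η' + c γ`
  have h1 : ι K γ * ι K (η - η') = 0 := by
    have h2 := r4 m (by omega) hmn
    rw [hq, map_smul, dd_smul, r2] at h2
    -- `dq ∧ γ + q 2 γ ∧ η = 2 m q η ∧ γ`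
    have h3 : ι K (KaehlerDifferential.D k K q) * ι K γ = -(ι K γ * ι K (KaehlerDifferential.D k K q)) :=
      ι_swap _ _
    have h4 : ι K η * ι K γ = -(ι K γ * ι K η) := ι_swap _ _
    rw [mul_smul_comm, h3, h4, smul_smul, smul_neg, smul_neg, smul_smul] at h2
    have h5 : ι K γ * ι K (KaehlerDifferential.D k K q) = (2 * ((m : K) + 1) * q) • (ι K γ * ι K η) := by
      have h6 : ι K γ * ι K (KaehlerDifferential.D k K q) =
          (q * 2) • (ι K γ * ι K η) + (2 * (m : K) * q) • (ι K γ * ι K η) := by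
        rw [← sub_eq_zero]
        have h7 : ι K γ * ι K (KaehlerDifferential.D k K q) -
            ((q * 2) • (ι K γ * ι K η) + (2 * (m : K) * q) • (ι K γ * ι K η)) =
            -((-(ι K γ * ι K (KaehlerDifferential.D k K q)) + (q * 2) • (ι K γ * ι K η)) -
              -((2 * (m : K) * q) • (ι K γ * ι K η))) := by abel
        rw [h7, h2, sub_self, neg_zero]
      rw [h6, ← add_smul]
      congr 1
      ring
    rw [map_sub, mul_sub, hη', map_smul, mul_smul_comm, h5, smul_smul,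
      inv_mul_cancel₀ (mul_ne_zero (mul_ne_zero two_ne_zero hm1) hq0), one_smul, sub_self]
  obtain ⟨c, hc⟩ := divi hγ h1
  have hηc : η = η' + c • γ := by rw [← hc]; abel
  have hA : OneF (S n ζ γ η ψ n) := one_S _ _ _ _ _
  have hsum : Up 1 (∑ t ∈ Ico 1 n, T (ι K (ψ t)) (fM K n ^ t)) := by
    intro a b hab
    rw [gt_sum]
    refine Finset.sum_eq_zero fun t ht => ?_
    rw [Finset.mem_Ico] at ht
    exact up_T (up_fp t) _ a b (by omega)
  have e : S n ζ γ η ψ n - S n ζ γ η' ψ 1 =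
      T (ι K (c • γ)) (hM K n) + ∑ t ∈ Ico 1 n, T (ι K (ψ t)) (fM K n ^ t) := by
    rw [S_one, hηc]
    unfold S
    rw [map_add, T_add_left]
    abel
  have hR : Up 0 (S n ζ γ η ψ n - S n ζ γ η' ψ 1) := by
    rw [e]
    exact (up_T up_h _).add (hsum.mono (by omega))
  obtain ⟨ζ', A', g1, g2, g3, g4⟩ := stage0 hA hF (by omega) hR (by
    intro a ha
    refine ⟨(2 * (a : K) + 1 - n) * c, ?_⟩
    rw [e, gt_add, hsum a a (by omega), add_zero, gt_T, gt_hM _ _ ha ha, if_pos rfl, ← map_smul, smul_smul])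
  obtain ⟨χ, b1, b2, b3⟩ := loop hγ g2 g3 hn g4
  refine ⟨q, ζ', χ, hq0, ?_, g1.trans b2, b3⟩
  obtain ⟨-, -, s3, -⟩ := rels hn b1 b3
  intro t t1 _
  rcases Nat.lt_or_ge t 2 with h | h
  · have ht : t = 1 := by omega
    rw [ht]
    have h8 : dd k K (ι K η') = 0 := by
      rw [hη', map_smul, dd_smul, dd_D, smul_zero, add_zero]
      have h9 : KaehlerDifferential.D k K (2 * ((m : K) + 1) * q)⁻¹ ∈
          Submodule.span K {KaehlerDifferential.D k K q} := by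
        rw [Submodule.mem_span_singleton]
        refine ⟨-((2 * ((m : K) + 1)) * ((2 * ((m : K) + 1) * q)⁻¹) ^ 2), ?_⟩
        have h10 : KaehlerDifferential.D k K (2 * ((m : K) + 1) * q) =
            (2 * ((m : K) + 1)) • KaehlerDifferential.D k K q := by
          have e4 : (2 * ((m : K) + 1) * q) = ((2 * (m + 1) : ℕ) : K) * q := by push_cast; ring
          rw [e4, Derivation.leibniz, Derivation.map_natCast, smul_zero, add_zero]
          congr 1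
          push_cast
          ring
        rw [Derivation.leibniz_inv, h10, smul_smul, neg_mul]
        congr 1
        ring
      obtain ⟨x, hx⟩ := Submodule.mem_span_singleton.1 h9
      rw [← hx, map_smul, smul_mul_assoc, ι_sq_zero, smul_zero]
    rw [h8] at s3
    exact neg_eq_zero.1 s3.symm
  · exact b1 t h

end Pool.Agent.CFl
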