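import Pool.Agent.Lib.MP_7baa7a_ag.CF.DR

/-!
# Matrices of differential forms
-/

set_option autoImplicit false

noncomputable section

namespace Pool.Agent.CFl

open ExteriorAlgebra Finset

variable {k K : Type} [Field k] [Field K] [Algebra k K] {n : ℕ}

/-! ## Entries with natural numbers as indices -/

/-- the entry of a matrix, `0` outside of the range -/
def gt {α : Type} [Zero α] (X : Matrix (Fin n) (Fin n) α) (a b : ℕ) : α :=
  if h : a < n ∧ b < n then X ⟨a, h.1⟩ ⟨b, h.2⟩ else 0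

section gt

variable {α : Type}

theorem gt_of [Zero α] (X : Matrix (Fin n) (Fin n) α) {a b : ℕ} (ha : a < n) (hb : b < n) :
    gt X a b = X ⟨a, ha⟩ ⟨b, hb⟩ := dif_pos ⟨ha, hb⟩

theorem gt_out [Zero α] (X : Matrix (Fin n) (Fin n) α) {a b : ℕ} (h : ¬ (a < n ∧ b < n)) :
    gt X a b = 0 := dif_neg h

theorem gt_coe [Zero α] (X : Matrix (Fin n) (Fin n) α) (i j : Fin n) : gt X i j = X i j :=
  gt_of X i.2 j.2

theorem ext_gt [Zero α] {X Y : Matrix (Fin n) (Fin n) α}
    (h : ∀ a b, a < n → b < n → gt X a b = gt Y a b) : X = Y := by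
  ext i j
  rw [← gt_coe X, ← gt_coe Y]
  exact h i j i.2 j.2

theorem gt_add [AddMonoid α] (X Y : Matrix (Fin n) (Fin n) α) (a b : ℕ) :
    gt (X + Y) a b = gt X a b + gt Y a b := by
  by_cases h : a < n ∧ b < n
  · rw [gt_of _ h.1 h.2, gt_of _ h.1 h.2, gt_of _ h.1 h.2, Matrix.add_apply]
  · rw [gt_out _ h, gt_out _ h, gt_out _ h, add_zero]

theorem gt_sub [AddGroup α] (X Y : Matrix (Fin n) (Fin n) α) (a b : ℕ) :
    gt (X - Y) a b = gt X a b - gt Y a b := by
  by_cases h : a < n ∧ b < n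
  · rw [gt_of _ h.1 h.2, gt_of _ h.1 h.2, gt_of _ h.1 h.2, Matrix.sub_apply]
  · rw [gt_out _ h, gt_out _ h, gt_out _ h, sub_zero]

theorem gt_neg [AddGroup α] (X : Matrix (Fin n) (Fin n) α) (a b : ℕ) :
    gt (-X) a b = -gt X a b := by
  by_cases h : a < n ∧ b < n
  · rw [gt_of _ h.1 h.2, gt_of _ h.1 h.2, Matrix.neg_apply]
  · rw [gt_out _ h, gt_out _ h, neg_zero]

theorem gt_zero [Zero α] (a b : ℕ) : gt (0 : Matrix (Fin n) (Fin n) α) a b = 0 := by
  by_cases h : a < n ∧ b < n
  · rw [gt_of _ h.1 h.2, Matrix.zero_apply]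
  · rw [gt_out _ h]

theorem gt_map {β : Type} [Zero α] [Zero β] (X : Matrix (Fin n) (Fin n) α) (f : α → β)
    (h0 : f 0 = 0) (a b : ℕ) : gt (X.map f) a b = f (gt X a b) := by
  by_cases h : a < n ∧ b < n
  · rw [gt_of _ h.1 h.2, gt_of _ h.1 h.2, Matrix.map_apply]
  · rw [gt_out _ h, gt_out _ h, h0]

/-- entries of a product -/
theorem gt_mul [NonUnitalNonAssocSemiring α] (X Y : Matrix (Fin n) (Fin n) α) (a b : ℕ) (ha : a < n)
    (hb : b < n) : gt (X * Y) a b = ∑ c ∈ range n, gt X a c * gt Y c b := by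
  rw [gt_of _ ha hb, Matrix.mul_apply, ← Fin.sum_univ_eq_sum_range (fun c => gt X a c * gt Y c b) n]
  refine Finset.sum_congr rfl fun c _ => ?_
  rw [gt_of _ ha c.2, gt_of _ c.2 hb]

end gt

/-! ## The grading by diagonals -/

/-- all entries `(a, b)` with `b < a + t` are `0` -/
def Up {α : Type} [Zero α] (t : ℤ) (X : Matrix (Fin n) (Fin n) α) : Prop :=
  ∀ a b : ℕ, (b : ℤ) < a + t → gt X a b = 0

section Up

variable {α : Type}

theorem Up.mono [Zero α] {s t : ℤ} {X : Matrix (Fin n) (Fin n) α} (h : Up t X) (hs : s ≤ t) :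
    Up s X := fun a b hab => h a b (by omega)

theorem Up.add [AddMonoid α] {t : ℤ} {X Y : Matrix (Fin n) (Fin n) α} (hX : Up t X) (hY : Up t Y) :
    Up t (X + Y) := fun a b h => by rw [gt_add, hX a b h, hY a b h, add_zero]

theorem Up.sub [AddGroup α] {t : ℤ} {X Y : Matrix (Fin n) (Fin n) α} (hX : Up t X) (hY : Up t Y) :
    Up t (X - Y) := fun a b h => by rw [gt_sub, hX a b h, hY a b h, sub_zero]

theorem Up.mul [NonUnitalNonAssocSemiring α] {s t : ℤ} {X Y : Matrix (Fin n) (Fin n) α}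
    (hX : Up s X) (hY : Up t Y) : Up (s + t) (X * Y) := by
  intro a b h
  by_cases hab : a < n ∧ b < n
  · rw [gt_mul _ _ _ _ hab.1 hab.2]
    refine Finset.sum_eq_zero fun c _ => ?_
    by_cases hc : (c : ℤ) < a + s
    · rw [hX a c hc, zero_mul]
    · rw [hY c b (by omega), mul_zero]
  · rw [gt_out _ hab]

theorem Up.map {β : Type} [Zero α] [Zero β] {t : ℤ} {X : Matrix (Fin n) (Fin n) α} (hX : Up t X)
    (f : α → β) (h0 : f 0 = 0) : Up t (X.map f) := fun a b h => by
  rw [gt_map X f h0, hX a b h, h0]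

/-- everything vanishes far below the diagonal -/
theorem Up.low [Zero α] (X : Matrix (Fin n) (Fin n) α) : Up (-(n : ℤ)) X := fun a b h => by
  refine gt_out X fun hab => ?_
  omega

/-- everything vanishes far above the diagonal -/
theorem Up.top [Zero α] {t : ℤ} {X : Matrix (Fin n) (Fin n) α} (ht : (n : ℤ) ≤ t) (h : Up t X) :
    X = 0 := by
  refine ext_gt fun a b ha hb => ?_
  rw [gt_zero]
  exact h a b (by omega)

theorem Up.one [Zero α] [One α] : Up 0 (1 : Matrix (Fin n) (Fin n) α) := by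
  intro a b h
  by_cases hab : a < n ∧ b < n
  · rw [gt_of _ hab.1 hab.2, Matrix.one_apply_ne]
    intro h'
    rw [Fin.mk.injEq] at h'
    omega
  · rw [gt_out _ hab]

end Up

/-! ## Forms and matrices -/

variable (k) in
/-- a matrix of functions as a matrix of forms -/
def emb (g : Matrix (Fin n) (Fin n) K) : Matrix (Fin n) (Fin n) (Frm k K) :=
  g.map (algebraMap K (Frm k K))

/-- the differential of a matrix of forms -/
def dM (X : Matrix (Fin n) (Fin n) (Frm k K)) : Matrix (Fin n) (Fin n) (Frm k K) := X.map (dd k K)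

/-- the form `ω` times the matrix of functions `M` -/
def T (w : Frm k K) (M : Matrix (Fin n) (Fin n) K) : Matrix (Fin n) (Fin n) (Frm k K) :=
  M.map fun c => c • w

/-- all entries are one-forms -/
def OneF (X : Matrix (Fin n) (Fin n) (Frm k K)) : Prop := ∀ i j, ∃ w : Ω[K⁄k], X i j = ι K w

/-- constant matrices -/
def Cst (k : Type) {K : Type} [Field k] [Field K] [Algebra k K] {n : ℕ}
    (M : Matrix (Fin n) (Fin n) K) : Prop := ∀ i j, KaehlerDifferential.D k K (M i j) = 0

theorem emb_mul (g h : Matrix (Fin n) (Fin n) K) : emb k (g * h) = emb k g * emb k h := by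
  unfold emb
  rw [Matrix.map_mul]

theorem emb_one : emb k (1 : Matrix (Fin n) (Fin n) K) = 1 := by
  unfold emb
  rw [Matrix.map_one _ (map_zero _) (map_one _)]

theorem emb_add (g h : Matrix (Fin n) (Fin n) K) : emb k (g + h) = emb k g + emb k h := by
  unfold emb
  rw [Matrix.map_add _ (fun a b => map_add _ a b)]

theorem dM_add (X Y : Matrix (Fin n) (Fin n) (Frm k K)) : dM (X + Y) = dM X + dM Y := by
  unfold dM
  rw [Matrix.map_add _ (fun a b => map_add _ a b)]

theorem dM_zero : dM (0 : Matrix (Fin n) (Fin n) (Frm k K)) = 0 := by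
  unfold dM
  rw [Matrix.map_zero _ (map_zero _)]

theorem dM_one : dM (1 : Matrix (Fin n) (Fin n) (Frm k K)) = 0 := by
  ext i j
  unfold dM
  rw [Matrix.map_apply, Matrix.zero_apply, Matrix.one_apply]
  split_ifs
  · have h := dd_alg (k := k) (1 : K)
    rwa [map_one, Derivation.map_one_eq_zero, map_zero] at h
  · exact map_zero _

/-- Leibniz rule, function matrix on the left -/
theorem dM_emb_mul (g : Matrix (Fin n) (Fin n) K) (X : Matrix (Fin n) (Fin n) (Frm k K)) :
    dM (emb k g * X) = dM (emb k g) * X + emb k g * dM X := by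
  ext i j
  show dd k K ((emb k g * X) i j) = (dM (emb k g) * X) i j + (emb k g * dM X) i j
  rw [Matrix.mul_apply, Matrix.mul_apply, Matrix.mul_apply, map_sum, ← Finset.sum_add_distrib]
  refine Finset.sum_congr rfl fun c _ => ?_
  show dd k K (algebraMap K _ (g i c) * X c j) = dd k K (algebraMap K _ (g i c)) * X c j +
    algebraMap K _ (g i c) * dd k K (X c j)
  rw [dd_mul, sg_alg]

/-- Leibniz rule, one-form matrix on the left -/
theorem dM_mul {X : Matrix (Fin n) (Fin n) (Frm k K)} (hX : OneF X)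
    (Y : Matrix (Fin n) (Fin n) (Frm k K)) : dM (X * Y) = dM X * Y - X * dM Y := by
  ext i j
  show dd k K ((X * Y) i j) = (dM X * Y) i j - (X * dM Y) i j
  rw [Matrix.mul_apply, Matrix.mul_apply, Matrix.mul_apply, map_sum, ← Finset.sum_sub_distrib]
  refine Finset.sum_congr rfl fun c _ => ?_
  obtain ⟨w, hw⟩ := hX i c
  show dd k K (X i c * Y c j) = dd k K (X i c) * Y c j - X i c * dd k K (Y c j)
  rw [dd_mul, hw, sg_ι, neg_mul, sub_eq_add_neg]

theorem dM_dM (X : Matrix (Fin n) (Fin n) (Frm k K)) : dM (dM X) = 0 := by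
  ext i j
  exact dd_dd (X i j)

theorem OneF.add {X Y : Matrix (Fin n) (Fin n) (Frm k K)} (hX : OneF X) (hY : OneF Y) :
    OneF (X + Y) := by
  intro i j
  obtain ⟨v, hv⟩ := hX i j
  obtain ⟨w, hw⟩ := hY i j
  exact ⟨v + w, by rw [Matrix.add_apply, hv, hw, map_add]⟩

theorem OneF.sub {X Y : Matrix (Fin n) (Fin n) (Frm k K)} (hX : OneF X) (hY : OneF Y) :
    OneF (X - Y) := by
  intro i j
  obtain ⟨v, hv⟩ := hX i j
  obtain ⟨w, hw⟩ := hY i j
  exact ⟨v - w, by rw [Matrix.sub_apply, hv, hw, map_sub]⟩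

theorem OneF.emb_mul {X : Matrix (Fin n) (Fin n) (Frm k K)} (g : Matrix (Fin n) (Fin n) K)
    (hX : OneF X) : OneF (emb k g * X) := by
  intro i j
  choose w hw using fun c => hX c j
  refine ⟨∑ c, g i c • w c, ?_⟩
  rw [Matrix.mul_apply, map_sum]
  refine Finset.sum_congr rfl fun c _ => ?_
  rw [hw c, map_smul, Algebra.smul_def]
  rfl

theorem OneF.mul_emb {X : Matrix (Fin n) (Fin n) (Frm k K)} (g : Matrix (Fin n) (Fin n) K)
    (hX : OneF X) : OneF (X * emb k g) := by
  intro i j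
  choose w hw using fun c => hX i c
  refine ⟨∑ c, g c j • w c, ?_⟩
  rw [Matrix.mul_apply, map_sum]
  refine Finset.sum_congr rfl fun c _ => ?_
  rw [hw c, map_smul, Algebra.smul_def]
  exact (Algebra.commutes (g c j) (ι K (w c) : Frm k K)).symm

theorem OneF.dM_emb (g : Matrix (Fin n) (Fin n) K) : OneF (dM (emb k g)) := fun i j =>
  ⟨KaehlerDifferential.D k K (g i j), dd_alg _⟩

theorem one_T (w : Ω[K⁄k]) (M : Matrix (Fin n) (Fin n) K) : OneF (k := k) (K := K) (T (ι K w) M) :=
  fun i j => ⟨M i j • w, by rw [map_smul]; rfl⟩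

theorem one_gt {X : Matrix (Fin n) (Fin n) (Frm k K)} (hX : OneF X) (a b : ℕ) :
    ∃ w : Ω[K⁄k], gt X a b = ι K w := by
  by_cases h : a < n ∧ b < n
  · rw [gt_of _ h.1 h.2]
    exact hX _ _
  · exact ⟨0, by rw [gt_out _ h, map_zero]⟩

/-! ## Rules for `T` -/

theorem T_mul_T (v w : Frm k K) (M N : Matrix (Fin n) (Fin n) K) : T v M * T w N = T (v * w) (M * N) := by
  ext i j
  show (T v M * T w N) i j = (M * N) i j • (v * w)
  rw [Matrix.mul_apply, Matrix.mul_apply, Finset.sum_smul]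
  refine Finset.sum_congr rfl fun c _ => ?_
  show M i c • v * N c j • w = (M i c * N c j) • (v * w)
  rw [smul_mul_smul_comm]

theorem T_add_left (v w : Frm k K) (M : Matrix (Fin n) (Fin n) K) : T (v + w) M = T v M + T w M := by
  ext i j
  exact smul_add (M i j) v w

theorem T_neg_left (v : Frm k K) (M : Matrix (Fin n) (Fin n) K) : T (-v) M = -T v M := by
  ext i j
  exact smul_neg (M i j) v

theorem T_sub_left (v w : Frm k K) (M : Matrix (Fin n) (Fin n) K) : T (v - w) M = T v M - T w M := by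
  ext i j
  exact smul_sub (M i j) v w

theorem T_add_right (v : Frm k K) (M N : Matrix (Fin n) (Fin n) K) : T v (M + N) = T v M + T v N := by
  ext i j
  exact add_smul (M i j) (N i j) v

theorem T_sub_right (v : Frm k K) (M N : Matrix (Fin n) (Fin n) K) : T v (M - N) = T v M - T v N := by
  ext i j
  exact sub_smul (M i j) (N i j) v

theorem T_smul (v : Frm k K) (c : K) (M : Matrix (Fin n) (Fin n) K) : T v (c • M) = T (c • v) M := by
  ext i j
  show (c * M i j) • v = M i j • c • v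
  rw [smul_smul, mul_comm]

theorem T_zero_left (M : Matrix (Fin n) (Fin n) K) : T (0 : Frm k K) M = 0 := by
  ext i j
  exact smul_zero (M i j)

theorem T_zero_right (v : Frm k K) : T v (0 : Matrix (Fin n) (Fin n) K) = 0 := by
  ext i j
  exact zero_smul K v

theorem dM_T (v : Frm k K) {M : Matrix (Fin n) (Fin n) K} (hM : Cst k M) :
    dM (T v M) = T (dd k K v) M := by
  ext i j
  show dd k K (M i j • v) = M i j • dd k K v
  rw [dd_smul, hM i j, map_zero, zero_mul, zero_add]

theorem gt_T (v : Frm k K) (M : Matrix (Fin n) (Fin n) K) (a b : ℕ) : gt (T v M) a b = gt M a b • v :=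
  gt_map M (fun c => c • v) (zero_smul K v) a b

theorem gt_dM (X : Matrix (Fin n) (Fin n) (Frm k K)) (a b : ℕ) : gt (dM X) a b = dd k K (gt X a b) :=
  gt_map X _ (map_zero _) a b

theorem gt_emb (g : Matrix (Fin n) (Fin n) K) (a b : ℕ) :
    gt (emb k g) a b = algebraMap K _ (gt g a b) := gt_map g _ (map_zero _) a b

theorem up_T {t : ℤ} {M : Matrix (Fin n) (Fin n) K} (hM : Up t M) (v : Frm k K) : Up t (T v M) :=
  Up.map hM (fun c => c • v) (zero_smul K v)

theorem up_dM {t : ℤ} {X : Matrix (Fin n) (Fin n) (Frm k K)} (hX : Up t X) : Up t (dM X) :=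
  Up.map hX _ (map_zero _)

theorem up_emb {t : ℤ} {g : Matrix (Fin n) (Fin n) K} (hg : Up t g) : Up t (emb k g) :=
  Up.map hg _ (map_zero _)

theorem Cst.mul {M N : Matrix (Fin n) (Fin n) K} (hM : Cst k M) (hN : Cst k N) : Cst k (M * N) := by
  intro i j
  rw [Matrix.mul_apply, map_sum]
  refine Finset.sum_eq_zero fun c _ => ?_
  rw [Derivation.leibniz, hM, hN, smul_zero, smul_zero, add_zero]

theorem Cst.one : Cst k (1 : Matrix (Fin n) (Fin n) K) := by
  intro i j
  rw [Matrix.one_apply]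
  split_ifs
  · exact Derivation.map_one_eq_zero _
  · exact map_zero _

theorem Cst.pow {M : Matrix (Fin n) (Fin n) K} (hM : Cst k M) (t : ℕ) : Cst k (M ^ t) := by
  induction t with
  | zero =>
    rw [pow_zero]
    exact Cst.one
  | succ t ih =>
    rw [pow_succ]
    exact ih.mul hM

/-! ## Connections and gauge transformations -/

/-- vanishing curvature -/
def Fl (X : Matrix (Fin n) (Fin n) (Frm k K)) : Prop := dM X + X * X = 0

/-- `Y` is the matrix of the connection `X` in another frame -/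
def Gau (X Y : Matrix (Fin n) (Fin n) (Frm k K)) : Prop :=
  ∃ g : Matrix (Fin n) (Fin n) K, IsUnit g ∧ emb k g * Y = X * emb k g + dM (emb k g)

theorem Gau.refl (X : Matrix (Fin n) (Fin n) (Frm k K)) : Gau X X :=
  ⟨1, isUnit_one, by rw [emb_one, dM_one, one_mul, mul_one, add_zero]⟩

theorem Gau.trans {X Y Z : Matrix (Fin n) (Fin n) (Frm k K)} (h1 : Gau X Y) (h2 : Gau Y Z) :
    Gau X Z := by
  obtain ⟨g, hg, h1⟩ := h1
  obtain ⟨h, hh, h2⟩ := h2
  refine ⟨g * h, hg.mul hh, ?_⟩
  rw [emb_mul, mul_assoc, h2, mul_add, ← mul_assoc, h1, add_mul, dM_emb_mul, mul_assoc, add_assoc]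

/-- existence of the transformed connection -/
theorem Gau.mk {X : Matrix (Fin n) (Fin n) (Frm k K)} (hX : OneF X) (hF : Fl X)
    {g : Matrix (Fin n) (Fin n) K} (hg : IsUnit g) :
    ∃ Y, OneF Y ∧ Fl Y ∧ emb k g * Y = X * emb k g + dM (emb k g) := by
  obtain ⟨u, rfl⟩ := hg
  have e1 : emb k (u : Matrix (Fin n) (Fin n) K) * emb k ((u⁻¹ : (Matrix (Fin n) (Fin n) K)ˣ) :
      Matrix (Fin n) (Fin n) K) = 1 := by
    rw [← emb_mul, Units.mul_inv, emb_one]
  have e2 : emb k ((u⁻¹ : (Matrix (Fin n) (Fin n) K)ˣ) : Matrix (Fin n) (Fin n) K) *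
      emb k (u : Matrix (Fin n) (Fin n) K) = 1 := by
    rw [← emb_mul, Units.inv_mul, emb_one]
  set G := emb k (u : Matrix (Fin n) (Fin n) K) with hG
  set H := emb k ((u⁻¹ : (Matrix (Fin n) (Fin n) K)ˣ) : Matrix (Fin n) (Fin n) K) with hH
  have hY : G * (H * (X * G + dM G)) = X * G + dM G := by rw [← mul_assoc, e1, one_mul]
  refine ⟨H * (X * G + dM G), ?_, ?_, hY⟩
  · exact OneF.emb_mul _ ((OneF.mul_emb _ hX).add (OneF.dM_emb _))
  · set Y := H * (X * G + dM G) with hYd
    have h1 : dM (G * Y) = dM G * Y + G * dM Y := dM_emb_mul _ _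
    have h2 : dM (X * G + dM G) = dM X * G - X * dM G := by
      rw [dM_add, dM_mul hX, dM_dM, add_zero]
    rw [hY, h2] at h1
    have h3 : dM X = -(X * X) := eq_neg_of_add_eq_zero_left hF
    have h4 : dM G = G * Y - X * G := by rw [hY, add_sub_cancel_left]
    have h5 : G * (dM Y + Y * Y) = 0 := by
      rw [h3] at h1
      have h6 : G * dM Y = -(X * X) * G - X * dM G - dM G * Y := by
        rw [h1, add_sub_cancel_left]
      rw [mul_add, h6, h4]
      noncomm_ring
    calc dM Y + Y * Y = H * G * (dM Y + Y * Y) := by rw [e2, one_mul]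
      _ = 0 := by rw [mul_assoc, h5, mul_zero]

end Pool.Agent.CFl
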