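import Pool.Agent.Lib.MP_7baa7a_ag.CF.Br

/-!
# Flat connections generated by a line whose second fundamental form has rank one
-/

set_option autoImplicit false

noncomputable section

namespace Pool.Agent.CFl

open ExteriorAlgebra Finset

variable {k K : Type} [Field k] [Field K] [Algebra k K] {n : ℕ}

theorem fl_of {A B : Matrix (Fin n) (Fin n) (Frm k K)} (hA : OneF A) (hF : Fl A) {g : Matrix (Fin n) (Fin n) K}
    (hg : IsUnit g) (h : emb k g * B = A * emb k g + dM (emb k g)) : Fl B := by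
  obtain ⟨Y, _, hY2, hY3⟩ := Gau.mk hA hF hg
  obtain ⟨u, rfl⟩ := hg
  have e2 : emb k ((u⁻¹ : (Matrix (Fin n) (Fin n) K)ˣ) : Matrix (Fin n) (Fin n) K) *
      emb k (u : Matrix (Fin n) (Fin n) K) = 1 := by
    rw [← emb_mul, Units.inv_mul, emb_one]
  have h1 : emb k (u : Matrix (Fin n) (Fin n) K) * B = emb k (u : Matrix (Fin n) (Fin n) K) * Y := by
    rw [h, hY3]
  have h2 : B = Y := by
    have h3 := congrArg (fun X => emb k ((u⁻¹ : (Matrix (Fin n) (Fin n) K)ˣ) : Matrix (Fin n) (Fin n) K) * X) h1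
    simp only [← mul_assoc, e2, one_mul] at h3
    exact h3
  rw [h2]
  exact hY2

theorem main1 [CharZero K] (hn : 2 ≤ n) (A : Matrix (Fin n) (Fin n) (Ω[K⁄k])) (hF : CFD.Flat (dd k K) A)
    (l v : Fin n → K) (a γ₀ : Ω[K⁄k]) (hl : ∀ i, CFD.nabla A l i = l i • a + v i • γ₀)
    (hgen : ∀ U : Submodule K (Fin n → K), l ∈ U → CFD.Stable A U → U = ⊤) :
    ∃ (g : Matrix (Fin n) (Fin n) K) (c : K) (ζ γ η β : Ω[K⁄k]) (q : ℕ → K),
      (∀ i j : Fin n, (j : ℕ) = 0 → g i j = c * l i) ∧ CFD.Frame A (CFD.nform n ζ γ η β q) g ∧ γ ≠ 0 ∧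
      dd k K (ι K ζ) = 0 ∧ dd k K (ι K γ) = (2 : K) • (ι K γ * ι K η) ∧
      dd k K (ι K η) = -(ι K γ * ι K β) ∧ dd k K (ι K β) = (2 : K) • (ι K η * ι K β) ∧
      (∀ t, 2 ≤ t → t < n → dd k K (ι K (q t • γ)) = (2 * (t : K)) • (ι K η * ι K (q t • γ))) ∧
      (∀ m, 3 ≤ m → CFD.Exact (dd k K) (CFD.trp A (2 * m - 1))) ∧
      (((∀ t, 2 ≤ t → t < n → q t = 0) ∧
          CFD.Exact (dd k K) (CFD.trp A 3 - (((n : K) ^ 3 - n) / 6) • CFD.trp !![-η, β; γ, η] 3)) ∨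
        (ι K γ * ι K β = (0 : Frm k K) ∧
          (∃ p : K, p ≠ 0 ∧ ∃ m : ℕ, 2 ≤ m ∧ m < n ∧ η = (2 * ((m : K) + 1) * p)⁻¹ • KaehlerDifferential.D k K p) ∧
          CFD.Exact (dd k K) (CFD.trp A 3))) := by
  have hA := one_up A
  have hFl := (fl_iff A).2 hF
  obtain ⟨hγ₀, B, g, hB1, hgu, hg0, hgB, hBup, hBne⟩ := hess hA hFl hn (a := a) (γ := γ₀) (l := l) (v := v)
    (fun i => by rw [cv_nabla, hl, map_add, map_smul, map_smul]) (fun U hU hS => hgen U hU ((stb_iff A U).1 hS))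
  have hBF := fl_of hA hFl hgu hgB
  have hBne' : ∀ i, i + 1 < n → gt B (i + 1) i ≠ 0 := by
    intro i hi
    rw [hBne i hi]
    intro h0
    exact hγ₀ ((ι_eq_zero_iff _).1 h0)
  obtain ⟨ζ, γ, η, ψ, hγ, ⟨h, hu, hup, heq⟩, hSF, hψ, halt⟩ := nf hB1 hBF hBup hBne' hn
  obtain ⟨r1, r2, r3, r4⟩ := rels hn hψ hSF
  have r5 := r4 1 le_rfl (by omega)
  rw [Nat.cast_one, mul_one] at r5
  choose x hx using fun t : ℕ => fun ht : 2 ≤ t => divi hγ (hψ t ht)
  obtain ⟨q, hq⟩ : ∃ q : ℕ → K, ∀ t, 2 ≤ t → ψ t = q t • γ :=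
    ⟨fun t => if ht : 2 ≤ t then x t ht else 0, fun t ht => by beta_reduce; rw [dif_pos ht]; exact hx t ht⟩
  have heq' : emb k (g * h) * S n ζ γ η ψ n = CFD.up A * emb k (g * h) + dM (emb k (g * h)) := by
    rw [emb_mul, mul_assoc, heq, mul_add, ← mul_assoc, hgB, add_mul, dM_emb_mul, mul_assoc, add_assoc]
  have hgh : IsUnit (g * h) := hgu.mul hu
  have hex := fun m => Gau.ex hA hFl ⟨g * h, hgh, heq'⟩ m
  have hn0 : 0 < n := by omega
  rw [up_nform ζ γ η ψ q hn (fun t ht _ => hq t ht)] at heq'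
  refine ⟨g * h, h ⟨0, hn0⟩ ⟨0, hn0⟩, ζ, γ, η, ψ 1, q, ?_, ⟨hgh, (frame_iff A _ _).1 heq'⟩, hγ, r1, r2, r3, r5,
    ?_, ?_, ?_⟩
  · intro i j hj
    have hj' : j = ⟨0, hn0⟩ := Fin.ext hj
    subst hj'
    rw [Matrix.mul_apply, Finset.sum_eq_single ⟨0, hn0⟩]
    · rw [hg0 i hn0, mul_comm]
    · intro c _ hc
      have h1 : gt h c 0 = 0 := hup c 0 (by
        have : (c : ℕ) ≠ 0 := fun h0 => hc (Fin.ext h0)
        omega)
      rw [gt_of h c.2 hn0] at h1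
      rw [h1, mul_zero]
    · intro h0
      exact absurd (Finset.mem_univ _) h0
  · intro t ht htn
    rw [← hq t ht]
    exact r4 t (by omega) htn
  · intro m hm
    have h1 := (hex (m - 2)).neg
    rw [show 2 * (m - 2) + 3 = 4 + (2 * m - 5) by omega, pow_add (S n ζ γ η ψ n), S_four _ _ _ _ hψ hn, zero_mul,
      Matrix.trace_zero, zero_sub, neg_neg, show 4 + (2 * m - 5) = 2 * m - 1 by omega] at h1
    exact h1
  · have h1 := (hex 0).neg
    rw [mul_zero, zero_add, tr_S3 _ _ _ _ hψ hn, neg_sub] at h1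
    rcases halt with h2 | ⟨h2, p, m, hp, hm1, hm2, hη⟩
    · refine Or.inl ⟨?_, ?_⟩
      · intro t ht htn
        have h3 := h2 t ht htn
        rw [hq t ht] at h3
        exact (smul_eq_zero.1 h3).resolve_right hγ
      · have e : (((n : K) ^ 3 - n) / 6) • CFD.trp (!![-η, ψ 1; γ, η] : Matrix (Fin 2) (Fin 2) (Ω[K⁄k])) 3 =
            -(((n : K) ^ 3 - n) • (ι K γ * ι K η * ι K (ψ 1))) := by
          unfold CFD.trp
          rw [← up_two, tr_two, smul_neg, smul_smul, div_mul_cancel₀]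
          norm_num
        rw [e]
        exact h1
    · refine Or.inr ⟨h2 1 le_rfl (by omega), ⟨p, hp, m, hm1, hm2, hη⟩, ?_⟩
      have h3 : (ι K γ * ι K η * ι K (ψ 1) : Frm k K) = 0 := by
        rw [ι_swap γ η, neg_mul, mul_assoc, h2 1 le_rfl (by omega), mul_zero, neg_zero]
      rw [h3, smul_zero, neg_zero, sub_zero] at h1
      exact h1

end Pool.Agent.CFl
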