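import Pool.Agent.Lib.MP_7baa7a_ag.CF.R1

/-!
# Arbitrary complete transverse flags
-/

set_option autoImplicit false

noncomputable section

namespace Pool.Agent.CFl

open ExteriorAlgebra Finset

variable {k K : Type} [Field k] [Field K] [Algebra k K] {n : ℕ}

/-- sum of the first components -/
def sf {α : Type} (L : List (ℕ × α)) : ℕ := (L.map Prod.fst).sum

theorem sf_append {α : Type} (L M : List (ℕ × α)) : sf (L ++ M) = sf L + sf M := by
  unfold sf
  rw [List.map_append, List.sum_append]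

theorem sf_take {α : Type} (L : List (ℕ × α)) (r : ℕ) : sf (L.take r) ≤ sf L := by
  have h := sf_append (L.take r) (L.drop r)
  rw [List.take_append_drop] at h
  omega

theorem up_cut {p q : ℕ} (A : Matrix (Fin (p + q)) (Fin (p + q)) (Ω[K⁄k])) :
    CFD.up (cL A) = cL (CFD.up A) ∧ CFD.up (cR A) = cR (CFD.up A) := ⟨rfl, rfl⟩

/-- the conclusion -/
def ConL (A : Matrix (Fin n) (Fin n) (Ω[K⁄k])) : Prop :=
  (∀ m, 3 ≤ m → Ex (CFD.trp A (2 * m - 1))) ∧
    ∃ L : List (ℕ × Matrix (Fin 2) (Fin 2) (Ω[K⁄k])), sf L = n ∧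
      (∀ x ∈ L, 1 ≤ x.1 ∧ CFD.Flat (dd k K) x.2 ∧ x.2 0 0 + x.2 1 1 = 0) ∧
      (∀ a, a + 1 < n → (gt A (a + 1) a = 0 ↔ ∃ r, sf (L.take r) = a + 1)) ∧
      Ex (CFD.trp A 3 - (L.map fun x => ((((x.1 : ℕ) : K) ^ 3 - (x.1 : ℕ)) / 6) • CFD.trp x.2 3).sum)

theorem ConL.blk {p q : ℕ} {A : Matrix (Fin (p + q)) (Fin (p + q)) (Ω[K⁄k])} (hA : Bt (CFD.up A))
    (hp : ∀ a, a + 1 = p → gt A (a + 1) a = 0) (hL : ConL (cL A)) (hR : ConL (cR A)) : ConL A := by
  obtain ⟨l1, L, l2, l3, l4, l5⟩ := hL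
  obtain ⟨r1, M, r2, r3, r4, r5⟩ := hR
  have htr : ∀ m, 1 ≤ m → CFD.trp A m = CFD.trp (cL A) m + CFD.trp (cR A) m := by
    intro m hm
    have h := hA.tr (m - 1)
    rw [show m - 1 + 1 = m by omega] at h
    exact h
  refine ⟨?_, L ++ M, ?_, ?_, ?_, ?_⟩
  · intro m hm
    rw [htr _ (by omega)]
    exact (l1 m hm).add (r1 m hm)
  · rw [sf_append, l2, r2]
  · intro x hx
    rcases List.mem_append.1 hx with h | h
    · exact l3 x h
    · exact r3 x h
  · intro a ha
    rcases lt_trichotomy (a + 1) p with h | h | h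
    · rw [← gt_cL (q := q) A h (by omega), l4 a h]
      constructor
      · rintro ⟨r, hr⟩
        have hrl : r ≤ L.length := by
          by_contra hc
          rw [List.take_of_length_le (by omega), l2] at hr
          omega
        exact ⟨r, by rw [List.take_append_of_le_length hrl, hr]⟩
      · rintro ⟨r, hr⟩
        by_cases hrl : r ≤ L.length
        · rw [List.take_append_of_le_length hrl] at hr
          exact ⟨r, hr⟩
        · rw [List.take_append, List.take_of_length_le (by omega), sf_append, l2] at hr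
          omega
    · refine ⟨fun _ => ⟨L.length, ?_⟩, fun _ => hp a h⟩
      rw [List.take_left, l2, h]
    · obtain ⟨b, rfl⟩ : ∃ b, a = p + b := ⟨a - p, by omega⟩
      rw [show p + b + 1 = p + (b + 1) by omega, ← gt_cR A (by omega) (by omega), r4 b (by omega)]
      constructor
      · rintro ⟨r, hr⟩
        refine ⟨L.length + r, ?_⟩
        rw [List.take_append, List.take_of_length_le (by omega), Nat.add_sub_cancel_left, sf_append, l2, hr]
      · rintro ⟨r, hr⟩
        by_cases hrl : r ≤ L.length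
        · rw [List.take_append_of_le_length hrl] at hr
          have := sf_take L r
          omega
        · rw [List.take_append, List.take_of_length_le (by omega), sf_append, l2] at hr
          exact ⟨r - L.length, by omega⟩
  · rw [List.map_append, List.sum_append, htr 3 (by omega)]
    have h := l5.add r5
    rwa [show ∀ a b c d : Frm k K, a - b + (c - d) = a + c - (b + d) from fun a b c d => by abel] at h

theorem conL_small {A : Matrix (Fin n) (Fin n) (Ω[K⁄k])} (hn : n < 2) : ConL A := by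
  have hA := one_up A
  have hsq : CFD.up A * CFD.up A = 0 := by
    ext i j
    have hs : Subsingleton (Fin n) := by
      rw [Fin.subsingleton_iff_le_one]
      omega
    rw [Matrix.mul_apply, Matrix.zero_apply]
    refine Finset.sum_eq_zero fun c _ => ?_
    rw [Subsingleton.elim c i, Subsingleton.elim j i]
    obtain ⟨w, hw⟩ := hA i i
    rw [hw, ι_sq_zero]
  have hp : ∀ m : ℕ, CFD.trp A (m + 2) = 0 := fun m => by
    unfold CFD.trp
    rw [pow_add, pow_two, hsq, mul_zero, Matrix.trace_zero]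
  have h0 : CFD.trp (0 : Matrix (Fin 2) (Fin 2) (Ω[K⁄k])) 3 = 0 := by
    unfold CFD.trp
    have : CFD.up (0 : Matrix (Fin 2) (Fin 2) (Ω[K⁄k])) = 0 := by
      ext i j
      show ι K (0 : Ω[K⁄k]) = 0
      exact map_zero _
    rw [this, zero_pow (by omega), Matrix.trace_zero]
  have hF0 : CFD.Flat (dd k K) (0 : Matrix (Fin 2) (Fin 2) (Ω[K⁄k])) := by
    rw [← fl_iff]
    have : CFD.up (0 : Matrix (Fin 2) (Fin 2) (Ω[K⁄k])) = 0 := by
      ext i j
      show ι K (0 : Ω[K⁄k]) = 0
      exact map_zero _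
    rw [this]
    exact Fl.zero
  refine ⟨fun m hm => ?_, List.replicate n (1, 0), ?_, ?_, fun a ha => by omega, ?_⟩
  · rw [show 2 * m - 1 = 2 * m - 3 + 2 by omega, hp]
    exact Ex.zero
  · unfold sf
    simp
  · intro x hx
    rw [List.eq_of_mem_replicate hx]
    exact ⟨le_rfl, hF0, add_zero _⟩
  · rw [hp 1, List.map_replicate, h0, smul_zero, List.sum_replicate, smul_zero, sub_zero]
    exact Ex.zero

theorem conL_ks [CharZero K] {A : Matrix (Fin n) (Fin n) (Ω[K⁄k])} (hF : CFD.Flat (dd k K) A)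
    (hH : Up (-1) (CFD.up A)) (hne : ∀ a, a + 1 < n → gt A (a + 1) a ≠ 0) (hn : 2 ≤ n) : ConL A := by
  have hA := one_up A
  have hFl := (fl_iff A).2 hF
  have hne' : ∀ a, a + 1 < n → gt (CFD.up A) (a + 1) a ≠ 0 := by
    intro a ha h0
    refine hne a ha ?_
    have h1 : gt (CFD.up A) (a + 1) a = ι K (gt A (a + 1) a) := gt_map A _ (map_zero _) _ _
    rw [h1] at h0
    exact (ι_eq_zero_iff _).1 h0
  obtain ⟨ζ, γ, η, ψ, _, ⟨g, hg, _, h2⟩, h3, h4, _⟩ := nf hA hFl hH hne' hn
  have hex := fun m => Gau.ex hA hFl ⟨g, hg, h2⟩ m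
  obtain ⟨_, r2, r3, r4⟩ := rels hn h4 h3
  have r5 := r4 1 le_rfl (by omega)
  rw [Nat.cast_one, mul_one] at r5
  obtain ⟨b1, _⟩ := two_fl r2 r3 r5
  rw [up_two, fl_iff] at b1
  refine ⟨?_, [(n, !![-η, ψ 1; γ, η])], ?_, ?_, ?_, ?_⟩
  · intro m hm
    have h1 := (hex (m - 2)).neg
    rw [show 2 * (m - 2) + 3 = 4 + (2 * m - 5) by omega, pow_add (S n ζ γ η ψ n), S_four _ _ _ _ h4 hn, zero_mul,
      Matrix.trace_zero, zero_sub, neg_neg, show 4 + (2 * m - 5) = 2 * m - 1 by omega] at h1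
    exact h1
  · unfold sf
    simp
  · intro x hx
    rw [List.mem_singleton] at hx
    rw [hx]
    refine ⟨by omega, b1, ?_⟩
    simp
  · intro a ha
    refine ⟨fun h => absurd h (hne a ha), ?_⟩
    rintro ⟨r, hr⟩
    exfalso
    cases r with
    | zero =>
      rw [List.take_zero] at hr
      unfold sf at hr
      simp at hr
    | succ r =>
      rw [List.take_of_length_le (by simp)] at hr
      unfold sf at hr
      simp at hr
      omega
  · have h1 := (hex 0).neg
    rw [mul_zero, zero_add, tr_S3 _ _ _ _ h4 hn, neg_sub] at h1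
    rw [List.map_singleton, List.sum_singleton]
    have e : (((n : K) ^ 3 - n) / 6) • CFD.trp (!![-η, ψ 1; γ, η] : Matrix (Fin 2) (Fin 2) (Ω[K⁄k])) 3 =
        -(((n : K) ^ 3 - n) • (ι K γ * ι K η * ι K (ψ 1))) := by
      unfold CFD.trp
      rw [← up_two, tr_two, smul_neg, smul_smul, div_mul_cancel₀]
      norm_num
    rw [e]
    exact h1

/-- **Theorem: the traces for an arbitrary complete transverse flag.** -/
theorem conL [CharZero K] (n : ℕ) : ∀ {A : Matrix (Fin n) (Fin n) (Ω[K⁄k])}, CFD.Flat (dd k K) A →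
    Up (-1) (CFD.up A) → ConL A := by
  induction n using Nat.strong_induction_on with
  | _ n ih =>
    intro A hF hH
    by_cases hn : n < 2
    · exact conL_small hn
    · by_cases h : ∀ a, a + 1 < n → gt A (a + 1) a ≠ 0
      · exact conL_ks hF hH h (by omega)
      · push Not at h
        obtain ⟨a, ha, h0⟩ := h
        obtain ⟨q, rfl⟩ : ∃ q, n = a + 1 + q := ⟨n - (a + 1), by omega⟩
        have h0' : gt (CFD.up A) (a + 1) a = 0 := by
          have h1 : gt (CFD.up A) (a + 1) a = ι K (gt A (a + 1) a) := gt_map A _ (map_zero _) _ _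
          rw [h1, h0, map_zero]
        have hB := bt_of hH h0'
        have hFl := (fl_iff A).2 hF
        have f1 : Fl (CFD.up (cL A)) := by
          rw [(up_cut A).1]
          exact fl_cL hB hFl
        have f2 : Fl (CFD.up (cR A)) := by
          rw [(up_cut A).2]
          exact fl_cR hB hFl
        have u1 : Up (-1) (CFD.up (cL A)) := by
          rw [(up_cut A).1]
          exact up_cL hH
        have u2 : Up (-1) (CFD.up (cR A)) := by
          rw [(up_cut A).2]
          exact up_cR hH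
        have i1 : ConL (cL A) := ih (a + 1) (by omega) ((fl_iff (cL A)).1 f1) u1
        have i2 : ConL (cR A) := ih q (by omega) ((fl_iff (cR A)).1 f2) u2
        refine ConL.blk hB (fun b hb => ?_) i1 i2
        have : b = a := by omega
        rw [this]
        exact h0

theorem main2 [CharZero K] (n : ℕ) (A : Matrix (Fin n) (Fin n) (Ω[K⁄k])) (hF : CFD.Flat (dd k K) A)
    (hH : ∀ i j : Fin n, (j : ℕ) + 1 < i → A i j = 0) :
    (∀ m, 3 ≤ m → CFD.Exact (dd k K) (CFD.trp A (2 * m - 1))) ∧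
    ∃ L : List (ℕ × Matrix (Fin 2) (Fin 2) (Ω[K⁄k])), (L.map Prod.fst).sum = n ∧
      (∀ x ∈ L, 1 ≤ x.1 ∧ CFD.Flat (dd k K) x.2 ∧ x.2 0 0 + x.2 1 1 = 0) ∧
      (∀ i j : Fin n, (i : ℕ) = j + 1 → (A i j = 0 ↔ ∃ r, ((L.take r).map Prod.fst).sum = i)) ∧
      CFD.Exact (dd k K) (CFD.trp A 3 -
        (L.map fun x => ((((x.1 : ℕ) : K) ^ 3 - (x.1 : ℕ)) / 6) • CFD.trp x.2 3).sum) := by
  have hH' : Up (-1) (CFD.up A) := by
    intro a b hab
    by_cases h : a < n ∧ b < n
    · rw [gt_of _ h.1 h.2]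
      show ι K (A ⟨a, h.1⟩ ⟨b, h.2⟩) = 0
      rw [hH ⟨a, h.1⟩ ⟨b, h.2⟩ (by show b + 1 < a; omega), map_zero]
    · exact gt_out _ h
  obtain ⟨h1, L, h2, h3, h4, h5⟩ := conL n hF hH'
  refine ⟨h1, L, h2, h3, ?_, h5⟩
  intro i j hij
  have h6 := h4 j (by rw [← hij]; exact i.2)
  rw [← hij, gt_coe A i j] at h6
  exact h6

end Pool.Agent.CFl
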