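import Pool.Agent.Lib.MP_7baa7a_ag.CF.Mat

/-!
# The principal matrices
-/

set_option autoImplicit false

noncomputable section

namespace Pool.Agent.CFl

open ExteriorAlgebra Finset

variable {k K : Type} [Field k] [Field K] [Algebra k K] {n : ℕ}

variable (K n) in
/-- ones below the diagonal -/
def eM : Matrix (Fin n) (Fin n) K := Matrix.of fun i j => if (i : ℕ) = j + 1 then 1 else 0

variable (K n) in
/-- the diagonal matrix `2 i + 1 - n` -/
def hM : Matrix (Fin n) (Fin n) K := Matrix.of fun i j => if i = j then 2 * ((i : ℕ) : K) + 1 - n else 0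

variable (n) in
/-- natural numbers above the diagonal -/
def fN : Matrix (Fin n) (Fin n) ℕ := Matrix.of fun i j => if (j : ℕ) = i + 1 then (j : ℕ) * (n - j) else 0

variable (K n) in
/-- `j (n - j)` above the diagonal -/
def fM : Matrix (Fin n) (Fin n) K := (fN n).map (Nat.castRingHom K)

theorem gt_eM (a b : ℕ) (ha : a < n) (hb : b < n) : gt (eM K n) a b = if a = b + 1 then 1 else 0 := by
  rw [gt_of _ ha hb]
  rfl

theorem gt_hM (a b : ℕ) (ha : a < n) (hb : b < n) :
    gt (hM K n) a b = if a = b then 2 * (a : K) + 1 - n else 0 := by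
  rw [gt_of _ ha hb]
  show (if (⟨a, ha⟩ : Fin n) = ⟨b, hb⟩ then _ else _) = _
  simp only [Fin.mk.injEq]

theorem gt_fN (a b : ℕ) (ha : a < n) (hb : b < n) : gt (fN n) a b = if b = a + 1 then b * (n - b) else 0 := by
  rw [gt_of _ ha hb]
  rfl

theorem gt_fM (a b : ℕ) : gt (fM K n) a b = (gt (fN n) a b : ℕ) := gt_map _ _ (map_zero _) a b

theorem fM_pow (t : ℕ) : fM K n ^ t = (fN n ^ t).map (Nat.castRingHom K) := by
  unfold fM
  rw [Matrix.map_pow]

theorem gt_fp (t a b : ℕ) : gt (fM K n ^ t) a b = ((gt (fN n ^ t) a b : ℕ) : K) := by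
  rw [fM_pow]
  exact gt_map _ _ (map_zero _) a b

/-- the powers of `f` live on one diagonal, with positive entries -/
theorem fN_pow (t : ℕ) : (∀ a b, b ≠ a + t → gt (fN n ^ t) a b = 0) ∧
    ∀ a, a + t < n → 0 < gt (fN n ^ t) a (a + t) := by
  induction t with
  | zero =>
    refine ⟨fun a b h => ?_, fun a h => ?_⟩
    · rw [pow_zero]
      by_cases hab : a < n ∧ b < n
      · rw [gt_of _ hab.1 hab.2, Matrix.one_apply_ne]
        intro h'
        rw [Fin.mk.injEq] at h'
        omega
      · rw [gt_out _ hab]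
    · have h' : a < n := h
      rw [pow_zero, add_zero, gt_of _ h' h', Matrix.one_apply_eq]
      exact one_pos
  | succ t ih =>
    have key : ∀ a b, a < n → b + 1 < n → gt (fN n ^ (t + 1)) a (b + 1) =
        gt (fN n ^ t) a b * ((b + 1) * (n - (b + 1))) := by
      intro a b ha hb
      rw [pow_succ, gt_mul _ _ _ _ ha hb, Finset.sum_eq_single b]
      · rw [gt_fN _ _ (by omega) hb, if_pos rfl]
      · intro c hc hcb
        rw [Finset.mem_range] at hc
        rw [gt_fN _ _ hc hb, if_neg (by omega), mul_zero]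
      · intro h
        rw [Finset.mem_range] at h
        omega
    refine ⟨fun a b h => ?_, fun a h => ?_⟩
    · by_cases hab : a < n ∧ b < n
      · obtain ⟨ha, hb⟩ := hab
        cases b with
        | zero =>
          rw [pow_succ, gt_mul _ _ _ _ ha hb]
          refine Finset.sum_eq_zero fun c hc => ?_
          rw [Finset.mem_range] at hc
          rw [gt_fN _ _ hc hb, if_neg (by omega), mul_zero]
        | succ b => rw [key a b ha hb, ih.1 a b (by omega), zero_mul]
      · exact gt_out _ hab
    · have h1 := key a (a + t) (by omega) (by omega)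
      rw [show a + (t + 1) = a + t + 1 by omega, h1]
      exact Nat.mul_pos (ih.2 a (by omega)) (Nat.mul_pos (by omega) (by omega))

theorem up_e : Up (-1) (eM K n) := by
  intro a b h
  by_cases hab : a < n ∧ b < n
  · rw [gt_eM _ _ hab.1 hab.2, if_neg (by omega)]
  · exact gt_out _ hab

theorem up_h : Up 0 (hM K n) := by
  intro a b h
  by_cases hab : a < n ∧ b < n
  · rw [gt_hM _ _ hab.1 hab.2, if_neg (by omega)]
  · exact gt_out _ hab

theorem up_fp (t : ℕ) : Up t (fM K n ^ t) := by
  intro a b h
  rw [gt_fp, (fN_pow t).1 a b (by omega), Nat.cast_zero]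

theorem up_f : Up 1 (fM K n) := by
  have h := up_fp (K := K) (n := n) 1
  rwa [pow_one] at h

variable (k) in
theorem cst_e : Cst k (eM K n) := by
  intro i j
  show KaehlerDifferential.D k K (if (i : ℕ) = j + 1 then 1 else 0) = 0
  split_ifs
  · exact Derivation.map_one_eq_zero _
  · exact map_zero _

variable (k) in
theorem cst_h : Cst k (hM K n) := by
  intro i j
  show KaehlerDifferential.D k K (if i = j then 2 * ((i : ℕ) : K) + 1 - n else 0) = 0
  split_ifs
  · rw [show (2 * ((i : ℕ) : K) + 1 - n) = ((2 * (i : ℕ) + 1 : ℕ) : K) - (n : ℕ) by push_cast; ring, map_sub,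
      Derivation.map_natCast, Derivation.map_natCast, sub_zero]
  · exact map_zero _

variable (k) in
theorem cst_f : Cst k (fM K n) := by
  intro i j
  show KaehlerDifferential.D k K ((fN n i j : ℕ) : K) = 0
  exact Derivation.map_natCast _ _

variable (k) in
theorem cst_fp (t : ℕ) : Cst k (fM K n ^ t) := (cst_f k).pow t

/-! ## Commutators -/

theorem com_ef : eM K n * fM K n - fM K n * eM K n = hM K n := by
  refine ext_gt fun a b ha hb => ?_
  have h1 : gt (eM K n * fM K n) a b = if a = b then (a : K) * (n - a) else 0 := by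
    rw [gt_mul _ _ _ _ ha hb]
    cases a with
    | zero =>
      rw [Finset.sum_eq_zero]
      · simp
      · intro c hc
        rw [Finset.mem_range] at hc
        rw [gt_eM _ _ ha hc, if_neg (by omega), zero_mul]
    | succ a =>
      rw [Finset.sum_eq_single a]
      · rw [gt_eM _ _ ha (by omega), if_pos rfl, one_mul, gt_fM, gt_fN _ _ (by omega) hb]
        by_cases h : b = a + 1
        · rw [if_pos h, if_pos h.symm, h, Nat.cast_mul, Nat.cast_sub (by omega)]
        · rw [if_neg h, if_neg (fun h' => h h'.symm), Nat.cast_zero]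
      · intro c hc hca
        rw [Finset.mem_range] at hc
        rw [gt_eM _ _ ha hc, if_neg (by omega), zero_mul]
      · intro h
        rw [Finset.mem_range] at h
        omega
  have h2 : gt (fM K n * eM K n) a b = if a = b then ((a : K) + 1) * (n - a - 1) else 0 := by
    rw [gt_mul _ _ _ _ ha hb]
    by_cases hb1 : b + 1 < n
    · rw [Finset.sum_eq_single (b + 1)]
      · rw [gt_eM _ _ hb1 hb, if_pos rfl, mul_one, gt_fM, gt_fN _ _ ha hb1]
        by_cases h : a = b
        · rw [if_pos h, if_pos (by omega), Nat.cast_mul, Nat.cast_sub (by omega), h]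
          push_cast
          ring
        · rw [if_neg h, if_neg (by omega), Nat.cast_zero]
      · intro c hc hca
        rw [Finset.mem_range] at hc
        rw [gt_eM _ _ hc hb, if_neg (by omega), mul_zero]
      · intro h
        rw [Finset.mem_range] at h
        omega
    · rw [Finset.sum_eq_zero]
      · by_cases h : a = b
        · have h3 : (n : K) = a + 1 := by
            have h4 : n = a + 1 := by omega
            rw [h4]
            push_cast
            ring
          rw [if_pos h, h3]
          ring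
        · rw [if_neg h]
      · intro c hc
        rw [Finset.mem_range] at hc
        rw [gt_eM _ _ hc hb, if_neg (by omega), mul_zero]
  rw [gt_sub, h1, h2, gt_hM _ _ ha hb]
  by_cases h : a = b
  · rw [if_pos h, if_pos h, if_pos h]
    ring
  · rw [if_neg h, if_neg h, if_neg h, sub_zero]

theorem gt_hl (X : Matrix (Fin n) (Fin n) K) (a b : ℕ) (ha : a < n) (hb : b < n) :
    gt (hM K n * X) a b = (2 * (a : K) + 1 - n) * gt X a b := by
  rw [gt_mul _ _ _ _ ha hb, Finset.sum_eq_single a]
  · rw [gt_hM _ _ ha ha, if_pos rfl]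
  · intro c hc hca
    rw [Finset.mem_range] at hc
    rw [gt_hM _ _ ha hc, if_neg (by omega), zero_mul]
  · intro h
    rw [Finset.mem_range] at h
    omega

theorem gt_hr (X : Matrix (Fin n) (Fin n) K) (a b : ℕ) (ha : a < n) (hb : b < n) :
    gt (X * hM K n) a b = gt X a b * (2 * (b : K) + 1 - n) := by
  rw [gt_mul _ _ _ _ ha hb, Finset.sum_eq_single b]
  · rw [gt_hM _ _ hb hb, if_pos rfl]
  · intro c hc hca
    rw [Finset.mem_range] at hc
    rw [gt_hM _ _ hc hb, if_neg (by omega), mul_zero]
  · intro h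
    rw [Finset.mem_range] at h
    omega

theorem com_he : hM K n * eM K n - eM K n * hM K n = (2 : K) • eM K n := by
  refine ext_gt fun a b ha hb => ?_
  have h0 : gt ((2 : K) • eM K n) a b = 2 * gt (eM K n) a b := by
    rw [gt_of _ ha hb, gt_of _ ha hb]
    rfl
  rw [gt_sub, gt_hl _ _ _ ha hb, gt_hr _ _ _ ha hb, h0, gt_eM _ _ ha hb]
  by_cases h : a = b + 1
  · rw [if_pos h, h]
    push_cast
    ring
  · rw [if_neg h]
    ring

theorem com_hf (t : ℕ) :
    hM K n * fM K n ^ t - fM K n ^ t * hM K n = (-(2 * (t : K))) • fM K n ^ t := by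
  refine ext_gt fun a b ha hb => ?_
  have h0 : gt ((-(2 * (t : K))) • fM K n ^ t) a b = -(2 * (t : K)) * gt (fM K n ^ t) a b := by
    rw [gt_of _ ha hb, gt_of _ ha hb]
    rfl
  rw [gt_sub, gt_hl _ _ _ ha hb, gt_hr _ _ _ ha hb, h0]
  by_cases h : b = a + t
  · rw [h]
    push_cast
    ring
  · rw [gt_fp, (fN_pow t).1 a b h, Nat.cast_zero]
    ring

/-! ## Products with `γ e` -/

theorem gt_el0 (v : Frm k K) (X : Matrix (Fin n) (Fin n) (Frm k K)) (b : ℕ) :
    gt (T v (eM K n) * X) 0 b = 0 := by
  by_cases hab : 0 < n ∧ b < n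
  · rw [gt_mul _ _ _ _ hab.1 hab.2]
    refine Finset.sum_eq_zero fun c hc => ?_
    rw [Finset.mem_range] at hc
    rw [gt_T, gt_eM _ _ hab.1 hc, if_neg (by omega), zero_smul, zero_mul]
  · exact gt_out _ hab

theorem gt_el (v : Frm k K) (X : Matrix (Fin n) (Fin n) (Frm k K)) (a b : ℕ) (ha : a + 1 < n) :
    gt (T v (eM K n) * X) (a + 1) b = v * gt X a b := by
  by_cases hb : b < n
  · rw [gt_mul _ _ _ _ ha hb, Finset.sum_eq_single a]
    · rw [gt_T, gt_eM _ _ ha (by omega), if_pos rfl, one_smul]
    · intro c hc hca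
      rw [Finset.mem_range] at hc
      rw [gt_T, gt_eM _ _ ha hc, if_neg (by omega), zero_smul, zero_mul]
    · intro h
      rw [Finset.mem_range] at h
      omega
  · rw [gt_out _ (by omega), gt_out _ (by omega), mul_zero]

theorem gt_er (v : Frm k K) (X : Matrix (Fin n) (Fin n) (Frm k K)) (a b : ℕ) :
    gt (X * T v (eM K n)) a b = gt X a (b + 1) * v := by
  by_cases hab : a < n ∧ b < n
  · obtain ⟨ha, hb⟩ := hab
    rw [gt_mul _ _ _ _ ha hb]
    by_cases hb1 : b + 1 < n
    · rw [Finset.sum_eq_single (b + 1)]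
      · rw [gt_T, gt_eM _ _ hb1 hb, if_pos rfl, one_smul]
      · intro c hc hca
        rw [Finset.mem_range] at hc
        rw [gt_T, gt_eM _ _ hc hb, if_neg (by omega), zero_smul, mul_zero]
      · intro h
        rw [Finset.mem_range] at h
        omega
    · rw [gt_out _ (by omega : ¬ (a < n ∧ b + 1 < n)), zero_mul]
      refine Finset.sum_eq_zero fun c hc => ?_
      rw [Finset.mem_range] at hc
      rw [gt_T, gt_eM _ _ hc hb, if_neg (by omega), zero_smul, mul_zero]
  · rw [gt_out _ hab, gt_out _ (by omega), zero_mul]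

/-- **Telescoping.** -/
theorem tel {R : Matrix (Fin n) (Fin n) (Frm k K)} (hR : OneF R) (γ : Ω[K⁄k]) (ρ : Frm k K) (F : ℕ → K)
    (s : ℕ) (h : ∀ a, a + s < n →
      F a • ρ + gt (T (ι K γ) (eM K n) * R + R * T (ι K γ) (eM K n)) a (a + s) = 0) :
    (∀ a, a + s < n → ι K γ * gt R a (a + s + 1) = (∑ b ∈ range (a + 1), F b) • ρ) ∧
      (s < n → (∑ b ∈ range (n - s), F b) • ρ = 0) := by
  have key : ∀ a, a + s < n → ι K γ * gt R a (a + s + 1) = (∑ b ∈ range (a + 1), F b) • ρ := by
    intro a
    induction a with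
    | zero =>
      intro ha
      have h1 := h 0 ha
      obtain ⟨w, hw⟩ := one_gt hR 0 (0 + s + 1)
      rw [gt_add, gt_el0, gt_er, zero_add, hw, ι_swap] at h1
      rw [Finset.sum_range_one, hw]
      exact (add_neg_eq_zero.1 h1).symm
    | succ a ih =>
      intro ha
      have h1 := h (a + 1) ha
      obtain ⟨w, hw⟩ := one_gt hR (a + 1) (a + 1 + s + 1)
      rw [gt_add, gt_el _ _ _ _ (by omega), gt_er, hw, ι_swap, show a + 1 + s = a + s + 1 by omega,
        ih (by omega), ← add_assoc, ← add_smul] at h1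
      rw [Finset.sum_range_succ, hw, add_comm]
      exact (add_neg_eq_zero.1 h1).symm
  refine ⟨key, fun hs => ?_⟩
  have h1 := key (n - s - 1) (by omega)
  rw [gt_out _ (by omega), mul_zero, show n - s - 1 + 1 = n - s by omega] at h1
  exact h1.symm

end Pool.Agent.CFl
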