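import Pool.Agent.Lib.MP_7baa7a_ag.CF.Gk

/-!
# The stages of the normal form
-/

set_option autoImplicit false

noncomputable section

namespace Pool.Agent.CFl

open ExteriorAlgebra Finset

variable {k K : Type} [Field k] [Field K] [Algebra k K] {n : ℕ}

/-- `A'` is the matrix of the connection `A` in another frame which is adapted to the same flag. -/
def Gt (A A' : Matrix (Fin n) (Fin n) (Frm k K)) : Prop :=
  ∃ g : Matrix (Fin n) (Fin n) K, IsUnit g ∧ Up 0 g ∧ emb k g * A' = A * emb k g + dM (emb k g)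

theorem Gt.refl (A : Matrix (Fin n) (Fin n) (Frm k K)) : Gt A A :=
  ⟨1, isUnit_one, Up.one, by rw [emb_one, dM_one, one_mul, mul_one, add_zero]⟩

theorem Gt.trans {X Y Z : Matrix (Fin n) (Fin n) (Frm k K)} (h1 : Gt X Y) (h2 : Gt Y Z) : Gt X Z := by
  obtain ⟨g, hg, gu, h1⟩ := h1
  obtain ⟨h, hh, hu, h2⟩ := h2
  refine ⟨g * h, hg.mul hh, (Up.mul gu hu).mono (by omega), ?_⟩
  rw [emb_mul, mul_assoc, h2, mul_add, ← mul_assoc, h1, add_mul, dM_emb_mul, mul_assoc, add_assoc]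

theorem up_one_add {g : Matrix (Fin n) (Fin n) K} (h : Up 1 (g - 1)) : IsUnit g ∧ Up 0 g := by
  have e : g = 1 + (g - 1) := by abel
  refine ⟨by rw [e]; exact unip h, ?_⟩
  rw [e]
  exact Up.one.add (h.mono (by omega))

/-! ## Entries of the curvature -/

/-- the coefficient of `f ^ t` -/
def rho (η : Ω[K⁄k]) (φ : ℕ → Ω[K⁄k]) (t : ℕ) : Frm k K :=
  dd k K (ι K (φ t)) - (2 * (t : K)) • (ι K η * ι K (φ t))

theorem gt_fp_ne {t a b : ℕ} (h : b ≠ a + t) : gt (fM K n ^ t) a b = 0 := by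
  rw [gt_fp, (fN_pow t).1 a b h, Nat.cast_zero]

theorem gt_one (a b : ℕ) (ha : a < n) (hb : b < n) :
    gt (1 : Matrix (Fin n) (Fin n) K) a b = if a = b then 1 else 0 := by
  rw [gt_of _ ha hb, Matrix.one_apply]
  simp only [Fin.mk.injEq]

theorem gt_Cu_low (ζ γ η : Ω[K⁄k]) (φ : ℕ → Ω[K⁄k]) (m : ℕ) (a : ℕ) (ha : a + 1 < n) :
    gt (Cu ζ γ η φ m : Matrix (Fin n) (Fin n) (Frm k K)) (a + 1) a =
      dd k K (ι K γ) - (2 : K) • (ι K γ * ι K η) := by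
  unfold Cu
  rw [gt_add, gt_add, gt_add, gt_T, gt_T, gt_T, gt_sum, gt_one _ _ ha (by omega), gt_eM _ _ ha (by omega),
    gt_hM _ _ ha (by omega), if_neg (by omega), if_pos rfl, if_neg (by omega), zero_smul, zero_smul, one_smul,
    zero_add, add_zero, Finset.sum_eq_zero, add_zero]
  intro t _
  rw [gt_T, gt_fp_ne (by omega), zero_smul]

theorem gt_Cu_diag (ζ γ η : Ω[K⁄k]) (φ : ℕ → Ω[K⁄k]) (m : ℕ) (a : ℕ) (ha : a < n) :
    gt (Cu ζ γ η φ m : Matrix (Fin n) (Fin n) (Frm k K)) a a = dd k K (ι K ζ) +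
      (2 * (a : K) + 1 - n) •
        (dd k K (ι K η) + ∑ t ∈ Ico 1 m, if t = 1 then ι K γ * ι K (φ 1) else 0) := by
  unfold Cu
  rw [gt_add, gt_add, gt_add, gt_T, gt_T, gt_T, gt_sum, gt_one _ _ ha ha, gt_eM _ _ ha ha, gt_hM _ _ ha ha,
    if_pos rfl, if_neg (by omega), if_pos rfl, zero_smul, one_smul, add_zero,
    Finset.sum_eq_zero (s := Ico 1 m) (f := fun i => gt (T (_ : Frm k K) (fM K n ^ i)) a a), add_zero]
  intro t ht
  rw [Finset.mem_Ico] at ht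
  rw [gt_T, gt_fp_ne (by omega), zero_smul]

theorem gt_Cu_up (ζ γ η : Ω[K⁄k]) (φ : ℕ → Ω[K⁄k]) (m s : ℕ) (hs : 1 ≤ s) (hsm : s < m) (a : ℕ)
    (ha : a + s < n) :
    gt (Cu ζ γ η φ m : Matrix (Fin n) (Fin n) (Frm k K)) a (a + s) =
      gt (fM K n ^ s) a (a + s) • rho η φ s := by
  unfold Cu
  rw [gt_add, gt_add, gt_add, gt_T, gt_T, gt_T, gt_sum, gt_one _ _ (by omega) ha, gt_eM _ _ (by omega) ha,
    gt_hM _ _ (by omega) ha, if_neg (by omega), if_neg (by omega), if_neg (by omega), zero_smul, zero_smul,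
    zero_smul, add_zero, add_zero, zero_add, Finset.sum_eq_single s]
  · rw [gt_T]
    rfl
  · intro t _ ht
    rw [gt_T, gt_fp_ne (by omega), zero_smul]
  · intro h
    exact absurd (Finset.mem_Ico.2 ⟨hs, hsm⟩) h

/-- `S - γ e` has degree at least `0` -/
theorem up_S (ζ γ η : Ω[K⁄k]) (φ : ℕ → Ω[K⁄k]) (m : ℕ) : Up 0 (S n ζ γ η φ m - T (ι K γ) (eM K n)) := by
  have h1 : Up 0 (∑ t ∈ Ico 1 m, T (ι K (φ t)) (fM K n ^ t)) := by
    intro a b hab
    rw [gt_sum]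
    refine Finset.sum_eq_zero fun t _ => ?_
    exact up_T (up_fp t) _ a b (by omega)
  have e : S n ζ γ η φ m - T (ι K γ) (eM K n) = T (ι K ζ) 1 + T (ι K η) (hM K n) +
      ∑ t ∈ Ico 1 m, T (ι K (φ t)) (fM K n ^ t) := by
    unfold S
    abel
  rw [e]
  exact ((up_T Up.one _).add (up_T up_h _)).add h1

/-! ## The stage `j ≥ 2` -/

theorem stage [CharZero K] {ζ γ η : Ω[K⁄k]} {φ : ℕ → Ω[K⁄k]} (hγ : γ ≠ 0)
    (hφ : ∀ t, 2 ≤ t → ι K γ * ι K (φ t) = 0) {A : Matrix (Fin n) (Fin n) (Frm k K)} (hA : OneF A) (hF : Fl A)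
    {j : ℕ} (hj : 2 ≤ j) (hj2 : j < n) (hR : Up j (A - S n ζ γ η φ j)) :
    ∃ (ψ : ℕ → Ω[K⁄k]) (A' : Matrix (Fin n) (Fin n) (Frm k K)), (∀ t, 2 ≤ t → ι K γ * ι K (ψ t) = 0) ∧
      Gt A A' ∧ OneF A' ∧ Fl A' ∧ Up (j + 1 : ℕ) (A' - S n ζ γ η ψ (j + 1)) := by
  obtain ⟨s, rfl⟩ : ∃ s, j = s + 1 := ⟨j - 1, by omega⟩
  set S₀ := S n ζ γ η φ (s + 1) with hS₀
  have hW : Up 0 (S₀ - T (ι K γ) (eM K n)) := up_S _ _ _ _ _
  have hR1 : OneF (A - S₀) := hA.sub (one_S _ _ _ _ _)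
  have hF' : Fl (S₀ + (A - S₀)) := by
    rw [add_sub_cancel]
    exact hF
  have hcv : dM S₀ + S₀ * S₀ = Cu ζ γ η φ (s + 1) := curv ζ γ η φ hφ (by omega)
  have hRc : Up ((s : ℤ) + 1) (A - S₀) := by exact_mod_cast hR
  obtain ⟨t1, t2⟩ := telg hR1 γ (fun a => gt (fM K n ^ s) a (a + s) • rho η φ s) s (by
    intro a ha
    have h := deg s hF' hW hRc a
    rw [hcv, gt_Cu_up ζ γ η φ (s + 1) s (by omega) (by omega) a ha] at h
    exact h)
  have hρ : rho η φ s = (0 : Frm k K) := by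
    have h := t2 (by omega)
    rw [← Finset.sum_smul] at h
    exact (smul_eq_zero.1 h).resolve_left (sum_fp s (by omega))
  have hb : ∀ a, a + (s + 1) < n → ∃ c : K, gt (A - S₀) a (a + (s + 1)) = ι K (c • γ) := by
    intro a ha
    obtain ⟨w, hw⟩ := one_gt hR1 a (a + (s + 1))
    have h := t1 a (by omega)
    rw [Finset.sum_eq_zero (fun b _ => by rw [hρ, smul_zero]), add_assoc, hw] at h
    obtain ⟨c, hc⟩ := divi hγ h
    exact ⟨c, by rw [hw, hc]⟩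
  choose! b hb using hb
  obtain ⟨c, g, A', g1, a1, a2, a3, a4⟩ := gk hA hF γ hW (s + 1) hj2 hR b hb
  refine ⟨fun t => if t = s + 1 then c • γ else φ t, A', ?_, ?_, a1, a2, ?_⟩
  · intro t ht
    show ι K γ * ι K (if t = s + 1 then c • γ else φ t) = 0
    by_cases h : t = s + 1
    · rw [if_pos h, map_smul, mul_smul_comm, ι_sq_zero, smul_zero]
    · rw [if_neg h]
      exact hφ t ht
  · obtain ⟨u1, u2⟩ := up_one_add g1
    exact ⟨g, u1, u2, a3⟩
  · rw [S_succ _ _ _ _ (by omega), if_pos rfl, S_congr ζ γ η (ψ := φ)]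
    · exact_mod_cast a4
    · intro t _ ht
      exact if_neg (by omega)

/-! ## The stage `1` -/

theorem sum_odd (a : ℕ) : ∑ b ∈ range (a + 1), (2 * (b : K) + 1 - n) = ((a : K) + 1) * ((a : K) + 1 - n) := by
  induction a with
  | zero =>
    rw [Finset.sum_range_one]
    push_cast
    ring
  | succ a ih =>
    rw [Finset.sum_range_succ, ih]
    push_cast
    ring

theorem stage1 [CharZero K] {ζ γ η : Ω[K⁄k]} (hγ : γ ≠ 0) {A : Matrix (Fin n) (Fin n) (Frm k K)} (hA : OneF A)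
    (hF : Fl A) (hn : 2 ≤ n) (hR : Up 1 (A - S n ζ γ η (fun _ => 0) 1)) :
    ∃ (ψ : ℕ → Ω[K⁄k]) (A' : Matrix (Fin n) (Fin n) (Frm k K)), (∀ t, 2 ≤ t → ι K γ * ι K (ψ t) = 0) ∧
      Gt A A' ∧ OneF A' ∧ Fl A' ∧ Up (2 : ℕ) (A' - S n ζ γ η ψ 2) := by
  set S₀ := S n ζ γ η (fun _ => 0) 1 with hS₀
  have hW : Up 0 (S₀ - T (ι K γ) (eM K n)) := up_S _ _ _ _ _
  have hR1 : OneF (A - S₀) := hA.sub (one_S _ _ _ _ _)
  have hF' : Fl (S₀ + (A - S₀)) := by
    rw [add_sub_cancel]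
    exact hF
  have hcv : dM S₀ + S₀ * S₀ = Cu ζ γ η (fun _ => 0) 1 :=
    curv ζ γ η _ (fun t _ => by rw [map_zero, mul_zero]) le_rfl
  obtain ⟨t1, t2⟩ := telg hR1 γ (fun a => dd k K (ι K ζ) + (2 * (a : K) + 1 - n) • dd k K (ι K η)) 0 (by
    intro a ha
    have h := deg 0 hF' hW (by exact_mod_cast hR) a
    rw [hcv, add_zero, gt_Cu_diag ζ γ η _ 1 a ha, Ico_self, Finset.sum_empty, add_zero] at h
    exact h)
  obtain ⟨m, rfl⟩ : ∃ m, n = m + 1 := ⟨n - 1, by omega⟩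
  have hm0 : (m : K) ≠ 0 := by
    have : m ≠ 0 := by omega
    exact_mod_cast this
  have hζ : dd k K (ι K ζ) = 0 := by
    have h := t2 (by omega)
    rw [Nat.sub_zero, Finset.sum_add_distrib, ← Finset.sum_smul, sum_odd, Finset.sum_const, Finset.card_range,
      Nat.cast_add, Nat.cast_one, sub_self, mul_zero, zero_smul, add_zero, ← Nat.cast_smul_eq_nsmul K] at h
    exact (smul_eq_zero.1 h).resolve_left (by exact_mod_cast Nat.succ_ne_zero m)
  have hsum : ∀ a, a < m + 1 → ι K γ * gt (A - S₀) a (a + 1) =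
      (((a : K) + 1) * ((a : K) + 1 - (m + 1 : ℕ))) • dd k K (ι K η) := by
    intro a ha
    rw [show a + 1 = a + 0 + 1 by omega, t1 a (by omega), Finset.sum_add_distrib, ← Finset.sum_smul, sum_odd,
      hζ, Finset.sum_const, smul_zero, zero_add]
  obtain ⟨w, hw⟩ := one_gt hR1 0 (0 + 1)
  set β : Ω[K⁄k] := (m : K)⁻¹ • w with hβ
  have hγβ : ι K γ * ι K β = -dd k K (ι K η) := by
    have h := hsum 0 (by omega)
    rw [hw] at h
    rw [hβ, map_smul, mul_smul_comm, h, smul_smul]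
    have e : (m : K)⁻¹ * (((0 : ℕ) + 1 : K) * (((0 : ℕ) : K) + 1 - (m + 1 : ℕ))) = -1 := by
      push_cast
      field_simp
      ring
    rw [e, neg_one_smul]
  set S₁ := S (m + 1) ζ γ η (fun t => if t = 1 then β else 0) 2 with hS₁
  have e1 : S₁ = S₀ + T (ι K β) (fM K (m + 1)) := by
    rw [hS₁, S_succ _ _ _ _ le_rfl, if_pos rfl, pow_one, hS₀, S_one, S_one]
  have hW1 : Up 0 (S₁ - T (ι K γ) (eM K (m + 1))) := up_S _ _ _ _ _
  have hR2 : Up (1 : ℕ) (A - S₁) := by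
    have e2 : A - S₁ = (A - S₀) - T (ι K β) (fM K (m + 1)) := by
      rw [e1]
      abel
    rw [e2]
    exact_mod_cast hR.sub (up_T up_f _)
  have hR3 : OneF (A - S₁) := hA.sub (one_S _ _ _ _ _)
  have hb : ∀ a, a + 1 < m + 1 → ∃ c : K, gt (A - S₁) a (a + 1) = ι K (c • γ) := by
    intro a ha
    obtain ⟨v, hv⟩ := one_gt hR3 a (a + 1)
    have h : ι K γ * gt (A - S₁) a (a + 1) = 0 := by
      have e2 : A - S₁ = (A - S₀) - T (ι K β) (fM K (m + 1)) := by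
        rw [e1]
        abel
      rw [e2, gt_sub, mul_sub, hsum a (by omega), gt_T, mul_smul_comm, hγβ, gt_fM, gt_fN _ _ (by omega) ha,
        if_pos rfl, smul_neg, sub_neg_eq_add, ← add_smul]
      have e3 : ((a : K) + 1) * ((a : K) + 1 - (m + 1 : ℕ)) + (((a + 1) * (m + 1 - (a + 1)) : ℕ) : K) = 0 := by
        rw [Nat.cast_mul, Nat.cast_sub (by omega)]
        push_cast
        ring
      rw [e3, zero_smul]
    rw [hv] at h
    obtain ⟨c, hc⟩ := divi hγ h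
    exact ⟨c, by rw [hv, hc]⟩
  choose! b hb using hb
  obtain ⟨c, g, A', g1, a1, a2, a3, a4⟩ := gk hA hF γ hW1 1 (by omega) hR2 b hb
  refine ⟨fun t => if t = 1 then β + c • γ else 0, A', ?_, ?_, a1, a2, ?_⟩
  · intro t ht
    show ι K γ * ι K (if t = 1 then β + c • γ else 0) = 0
    rw [if_neg (by omega), map_zero, mul_zero]
  · obtain ⟨u1, u2⟩ := up_one_add g1
    exact ⟨g, u1, u2, a3⟩
  · have e4 : S (m + 1) ζ γ η (fun t => if t = 1 then β + c • γ else 0) 2 =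
        S₁ + T (ι K (c • γ)) (fM K (m + 1) ^ 1) := by
      rw [S_succ _ _ _ _ le_rfl, if_pos rfl, pow_one, e1, hS₀, S_one, S_one, map_add, T_add_left, ← add_assoc]
    rw [e4]
    exact_mod_cast a4

end Pool.Agent.CFl
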