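import Mathlib.LinearAlgebra.ExteriorAlgebra.Basic
import Mathlib.LinearAlgebra.CliffordAlgebra.Conjugation
import Mathlib.LinearAlgebra.Matrix.Trace
import Mathlib.RingTheory.Kaehler.Basic

/-!
# Algebraic connections on `K ^ n`: the definitions of the statements

`K` is a field extension of `k` (for example the field of rational functions of a complex variety);
`Ω[K⁄k]` are its Kähler differentials.
-/

set_option autoImplicit false

noncomputable section

namespace Pool.Agent.CFE

open KaehlerDifferential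

section ExteriorAlgebra

variable {R M : Type} [CommRing R] [AddCommGroup M] [Module R M]

/-- An element of `M` as an element of the exterior algebra of `M`. -/
def deg1 (m : M) : ExteriorAlgebra R M := ExteriorAlgebra.ι R m

/-- The parity automorphism `x ↦ (-1) ^ p x` (for `x` of degree `p`) of the exterior algebra. -/
def parity (x : ExteriorAlgebra R M) : ExteriorAlgebra R M := CliffordAlgebra.involute (Q := (0 : QuadraticForm R M)) x

end ExteriorAlgebra

variable {k K : Type} [Field k] [Field K] [Algebra k K] {n : ℕ}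

variable (k K) in
/-- The algebra of differential forms of `K` over `k`: the exterior algebra of the Kähler differentials. -/
def Forms : Type := ExteriorAlgebra K (Ω[K⁄k])

instance : Ring (Forms k K) := inferInstanceAs (Ring (ExteriorAlgebra K (Ω[K⁄k])))

instance : Algebra K (Forms k K) := inferInstanceAs (Algebra K (ExteriorAlgebra K (Ω[K⁄k])))

/-- A function as a form of degree `0`. -/
def fn (f : K) : Forms k K := algebraMap K _ f

/-- A one-form as an element of the algebra of forms. -/
def one (w : Ω[K⁄k]) : Forms k K := deg1 (R := K) w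

/-- The parity automorphism: `(-1) ^ p x` for a `p`-form `x`. -/
def par (x : Forms k K) : Forms k K := parity (R := K) (M := Ω[K⁄k]) x

/-- The differential of a function. -/
def dif (f : K) : Ω[K⁄k] := D k K f

/-- `d` is the exterior derivative: it is additive, `d f` is the differential of `f` and `d (d f) = 0` for `f ∈ K`, and
`d (x y) = d x y + (-1) ^ p x d y` for a `p`-form `x`. -/
structure IsDeRham (d : Forms k K → Forms k K) : Prop where
  add : ∀ x y, d (x + y) = d x + d y
  zero : ∀ f : K, d (fn f) = one (dif f)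
  one : ∀ f : K, d (one (dif f)) = 0
  mul : ∀ x y, d (x * y) = d x * y + par x * d y

/-- A form is exact. -/
def Exact (d : Forms k K → Forms k K) (x : Forms k K) : Prop := ∃ y, d y = x

/-- A matrix of one-forms as a matrix with entries in the algebra of forms. -/
def up (A : Matrix (Fin n) (Fin n) (Ω[K⁄k])) : Matrix (Fin n) (Fin n) (Forms k K) := A.map one

/-- The connection `d + A` on `K ^ n` is flat: `d A + A A = 0`. -/
def Flat (d : Forms k K → Forms k K) (A : Matrix (Fin n) (Fin n) (Ω[K⁄k])) : Prop :=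
  ∀ i j, d (one (A i j)) + (up A * up A) i j = 0

/-- The form `Tr (A ^ m)`. -/
def trp (A : Matrix (Fin n) (Fin n) (Ω[K⁄k])) (m : ℕ) : Forms k K := (up A ^ m).trace

/-- The covariant derivative `d u + A u` of a vector `u ∈ K ^ n`. -/
def nabla (A : Matrix (Fin n) (Fin n) (Ω[K⁄k])) (u : Fin n → K) (i : Fin n) : Ω[K⁄k] :=
  dif (u i) + ∑ c, u c • A i c

/-- The subspace `U` of `K ^ n` is stable: `∇ U ⊆ Ω ⊗ U`, which is tested with the linear forms `φ` which
vanish on `U`. -/
def Stable (A : Matrix (Fin n) (Fin n) (Ω[K⁄k])) (U : Submodule K (Fin n → K)) : Prop :=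
  ∀ u ∈ U, ∀ φ : Fin n → K, (∀ x ∈ U, ∑ i, φ i * x i = 0) → ∑ i, φ i • nabla A u i = 0

/-- The line of the vector `l` generates `K ^ n` and its second fundamental form has rank one:
`∇ l = l a + v b`, and no proper stable subspace contains `l`. -/
structure RankOneLine (A : Matrix (Fin n) (Fin n) (Ω[K⁄k])) (l v : Fin n → K) (a b : Ω[K⁄k]) : Prop where
  rk : ∀ i, nabla A l i = l i • a + v i • b
  gen : ∀ U : Submodule K (Fin n → K), l ∈ U → Stable A U → U = ⊤

/-- `A'` is the matrix of the connection `d + A` in the basis of `K ^ n` given by the columns of `g`: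
`∇ g_j = ∑ c, A' c j g_c`. -/
def Frame (A A' : Matrix (Fin n) (Fin n) (Ω[K⁄k])) (g : Matrix (Fin n) (Fin n) K) : Prop :=
  IsUnit g ∧ ∀ i j, nabla A (fun c => g c j) i = ∑ c, g i c • A' c j

variable (K n) in
/-- Ones just below the diagonal. -/
def E : Matrix (Fin n) (Fin n) K := Matrix.of fun i j => if (i : ℕ) = j + 1 then 1 else 0

variable (K n) in
/-- The diagonal matrix with entries `2 i + 1 - n`, `i = 0, ..., n - 1`. -/
def H : Matrix (Fin n) (Fin n) K := Matrix.of fun i j => if i = j then 2 * ((i : ℕ) : K) + 1 - n else 0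

variable (K n) in
/-- The matrix with entries `j (n - j)` just above the diagonal. -/
def F : Matrix (Fin n) (Fin n) K :=
  Matrix.of fun i j => if (j : ℕ) = i + 1 then (((j : ℕ) * (n - j) : ℕ) : K) else 0

variable (n) in
/-- The normal form `ζ 1 + γ E + η H + β F + ∑ q t γ F ^ t`, `2 ≤ t < n`. -/
def nform (ζ γ η β : Ω[K⁄k]) (q : ℕ → K) : Matrix (Fin n) (Fin n) (Ω[K⁄k]) := fun i j =>
  (1 : Matrix (Fin n) (Fin n) K) i j • ζ + E K n i j • γ + H K n i j • η + F K n i j • β +
    ∑ t ∈ Finset.Ico 2 n, (q t * (F K n ^ t) i j) • γ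

variable (n) in
/-- The relations between the forms of the normal form. -/
structure Rel (d : Forms k K → Forms k K) (ζ γ η β : Ω[K⁄k]) (q : ℕ → K) : Prop where
  z : d (one ζ) = 0
  g : d (one γ) = (2 : K) • (one γ * one η)
  h : d (one η) = -(one γ * one β)
  b : d (one β) = (2 : K) • (one η * one β)
  q : ∀ t, 2 ≤ t → t < n → d (one (q t • γ)) = (2 * (t : K)) • (one η * one (q t • γ))

/-- The traceless matrix of size two `(-η, β; γ, η)`. -/
def two (γ η β : Ω[K⁄k]) : Matrix (Fin 2) (Fin 2) (Ω[K⁄k]) := !![-η, β; γ, η]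

/-- The first alternative: all `q t` vanish and the form `Tr (A ^ 3)` is `(n ^ 3 - n) / 6` times the one of the matrix
`B` of size two, up to an exact form. -/
def SymCase (d : Forms k K → Forms k K) (A : Matrix (Fin n) (Fin n) (Ω[K⁄k])) (B : Matrix (Fin 2) (Fin 2) (Ω[K⁄k]))
    (q : ℕ → K) : Prop :=
  (∀ t, 2 ≤ t → t < n → q t = 0) ∧ Exact d (trp A 3 - (((n : K) ^ 3 - n) / 6) • trp B 3)

/-- The second alternative: `γ β = 0`, the form `η` is `1 / (2 (m + 1))` times a logarithmic form, and `Tr (A ^ 3)` is exact. -/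
def LogCase (d : Forms k K → Forms k K) (A : Matrix (Fin n) (Fin n) (Ω[K⁄k])) (γ η β : Ω[K⁄k]) : Prop :=
  one γ * one β = 0 ∧
  (∃ (p : K) (m : ℕ), p ≠ 0 ∧ 2 ≤ m ∧ m < n ∧ η = (2 * ((m : K) + 1) * p)⁻¹ • dif p) ∧ Exact d (trp A 3)

/-- The matrices of size two of the list `L` are flat and traceless, and their `Tr (B ^ 3)`, with the weights
`(m ^ 3 - m) / 6`, have the sum `Tr (A ^ 3)`, up to an exact form. -/
structure Decomp (d : Forms k K → Forms k K) (A : Matrix (Fin n) (Fin n) (Ω[K⁄k]))
    (L : List (ℕ × Matrix (Fin 2) (Fin 2) (Ω[K⁄k]))) : Prop where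
  flat : ∀ x ∈ L, 1 ≤ x.1 ∧ Flat d x.2 ∧ x.2 0 0 + x.2 1 1 = 0
  ex : Exact d (trp A 3 - (L.map fun x => (((x.1 : K) ^ 3 - (x.1 : K)) / 6) • trp x.2 3).sum)

end Pool.Agent.CFE
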