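import Pool.Agent.Lib.MP_7baa7a_ag.CF.Mat

/-!
# Traces
-/

set_option autoImplicit false

noncomputable section

namespace Pool.Agent.CFl

open ExteriorAlgebra Finset

variable {k K : Type} [Field k] [Field K] [Algebra k K] {n : ℕ}

/-! ## Parity -/

theorem even_comm {x : Frm k K} (hx : sg k K x = x) (y : Frm k K) : x * y = y * x := by
  induction y using ExteriorAlgebra.induction with
  | algebraMap r => exact (Algebra.commutes r x).symm
  | ι v => rw [mul_ι, hx]
  | mul a b ha hb => rw [← mul_assoc, ha, mul_assoc, hb, mul_assoc]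
  | add a b ha hb => rw [mul_add, add_mul, ha, hb]

theorem odd_comm {x : Frm k K} (hx : sg k K x = -x) (y : Frm k K) : x * y = sg k K y * x := by
  induction y using ExteriorAlgebra.induction with
  | algebraMap r =>
    rw [sg_alg]
    exact (Algebra.commutes r x).symm
  | ι v => rw [mul_ι, hx, sg_ι, mul_neg, neg_mul]
  | mul a b ha hb => rw [← mul_assoc, ha, mul_assoc, hb, ← mul_assoc, map_mul]
  | add a b ha hb => rw [mul_add, ha, hb, map_add, add_mul]

/-- the sign on matrices -/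
def sgM (X : Matrix (Fin n) (Fin n) (Frm k K)) : Matrix (Fin n) (Fin n) (Frm k K) := X.map (sg k K)

theorem sgM_mul (X Y : Matrix (Fin n) (Fin n) (Frm k K)) : sgM (X * Y) = sgM X * sgM Y := by
  unfold sgM
  rw [Matrix.map_mul]

theorem sgM_one : sgM (1 : Matrix (Fin n) (Fin n) (Frm k K)) = 1 := by
  unfold sgM
  rw [Matrix.map_one _ (map_zero _) (map_one _)]

/-- even matrices -/
def Ev (X : Matrix (Fin n) (Fin n) (Frm k K)) : Prop := sgM X = X

/-- odd matrices -/
def Od (X : Matrix (Fin n) (Fin n) (Frm k K)) : Prop := sgM X = -X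

theorem OneF.od {X : Matrix (Fin n) (Fin n) (Frm k K)} (h : OneF X) : Od X := by
  ext i j
  obtain ⟨w, hw⟩ := h i j
  show sg k K (X i j) = -X i j
  rw [hw, sg_ι]

theorem Od.pow {X : Matrix (Fin n) (Fin n) (Frm k K)} (h : Od X) (m : ℕ) :
    Ev (X ^ (2 * m)) ∧ Od (X ^ (2 * m + 1)) := by
  have h1 : Ev (X ^ (2 * m)) := by
    induction m with
    | zero =>
      rw [mul_zero, pow_zero]
      exact sgM_one
    | succ m ih =>
      rw [show 2 * (m + 1) = 2 * m + 1 + 1 by ring, pow_succ, pow_succ]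
      unfold Ev at *
      rw [sgM_mul, sgM_mul, ih, h, mul_neg, mul_neg, neg_mul, neg_neg]
  refine ⟨h1, ?_⟩
  rw [pow_succ]
  unfold Od Ev at *
  rw [sgM_mul, h1, h, mul_neg]

theorem Ev.emb (g : Matrix (Fin n) (Fin n) K) : Ev (CFl.emb k g) := by
  ext i j
  exact sg_alg _

theorem tr_ev {X : Matrix (Fin n) (Fin n) (Frm k K)} (hX : Ev X) (Y : Matrix (Fin n) (Fin n) (Frm k K)) :
    (X * Y).trace = (Y * X).trace := by
  rw [Matrix.trace, Matrix.trace]
  simp only [Matrix.diag_apply, Matrix.mul_apply]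
  rw [Finset.sum_comm]
  refine Finset.sum_congr rfl fun i _ => Finset.sum_congr rfl fun j _ => ?_
  refine even_comm ?_ _
  exact congrFun (congrFun hX j) i

theorem tr_od {X Y : Matrix (Fin n) (Fin n) (Frm k K)} (hX : Od X) (hY : Od Y) :
    (X * Y).trace = -(Y * X).trace := by
  rw [Matrix.trace, Matrix.trace]
  simp only [Matrix.diag_apply, Matrix.mul_apply]
  rw [Finset.sum_comm, ← Finset.sum_neg_distrib]
  refine Finset.sum_congr rfl fun i _ => ?_
  rw [← Finset.sum_neg_distrib]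
  refine Finset.sum_congr rfl fun j _ => ?_
  rw [odd_comm (show sg k K (X j i) = -X j i from congrFun (congrFun hX j) i),
    show sg k K (Y i j) = -Y i j from congrFun (congrFun hY i) j, neg_mul]

/-! ## Leibniz rule -/

theorem dM_mulg (X Y : Matrix (Fin n) (Fin n) (Frm k K)) : dM (X * Y) = dM X * Y + sgM X * dM Y := by
  ext i j
  show dd k K ((X * Y) i j) = (dM X * Y) i j + (sgM X * dM Y) i j
  rw [Matrix.mul_apply, Matrix.mul_apply, Matrix.mul_apply, map_sum, ← Finset.sum_add_distrib]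
  exact Finset.sum_congr rfl fun c _ => dd_mul _ _

theorem tr_dM (X : Matrix (Fin n) (Fin n) (Frm k K)) : (dM X).trace = dd k K X.trace := by
  rw [Matrix.trace, Matrix.trace, map_sum]
  rfl

/-- the powers of a flat matrix -/
theorem Fl.pow {A : Matrix (Fin n) (Fin n) (Frm k K)} (hA : OneF A) (hF : Fl A) (m : ℕ) :
    dM (A ^ (2 * m)) = 0 ∧ dM (A ^ (2 * m + 1)) = -A ^ (2 * m + 2) := by
  have h0 : dM A = -(A * A) := eq_neg_of_add_eq_zero_left hF
  have h1 : dM (A ^ (2 * m)) = 0 := by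
    induction m with
    | zero =>
      rw [mul_zero, pow_zero]
      exact dM_one
    | succ m ih =>
      rw [show 2 * (m + 1) = 2 * m + 1 + 1 by ring, pow_succ, pow_succ, dM_mulg, dM_mulg, ih, zero_mul, zero_add,
        sgM_mul, (hA.od.pow m).1, hA.od, h0]
      noncomm_ring
  refine ⟨h1, ?_⟩
  rw [pow_succ, dM_mulg, h1, zero_mul, zero_add, (hA.od.pow m).1, h0, mul_neg, ← mul_assoc, ← pow_succ, ← pow_succ]

/-- the trace of an even power vanishes -/
theorem tr_even [CharZero K] {X : Matrix (Fin n) (Fin n) (Frm k K)} (hX : OneF X) (m : ℕ) :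
    (X ^ (2 * m + 2)).trace = 0 := by
  have h1 : (X ^ (2 * m + 1) * X).trace = -(X * X ^ (2 * m + 1)).trace := tr_od (hX.od.pow m).2 hX.od
  rw [← pow_succ, ← pow_succ'] at h1
  have h2 : (2 : K) • (X ^ (2 * m + 2)).trace = 0 := by
    rw [two_smul]
    nth_rewrite 1 [show 2 * m + 2 = 2 * m + 1 + 1 by rfl, h1]
    exact neg_add_cancel _
  exact (smul_eq_zero.1 h2).resolve_left two_ne_zero

/-! ## Gauge invariance modulo exact forms -/

/-- exact forms -/
def Ex (x : Frm k K) : Prop := ∃ y, dd k K y = x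

theorem Ex.add {x y : Frm k K} (hx : Ex x) (hy : Ex y) : Ex (x + y) := by
  obtain ⟨a, ha⟩ := hx
  obtain ⟨b, hb⟩ := hy
  exact ⟨a + b, by rw [map_add, ha, hb]⟩

theorem Ex.neg {x : Frm k K} (hx : Ex x) : Ex (-x) := by
  obtain ⟨a, ha⟩ := hx
  exact ⟨-a, by rw [map_neg, ha]⟩

theorem Ex.sub {x y : Frm k K} (hx : Ex x) (hy : Ex y) : Ex (x - y) := by
  rw [sub_eq_add_neg]
  exact hx.add hy.neg

theorem Ex.zero : Ex (0 : Frm k K) := ⟨0, map_zero _⟩

theorem Ex.nsmul {x : Frm k K} (hx : Ex x) (m : ℕ) : Ex (m • x) := by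
  obtain ⟨a, ha⟩ := hx
  exact ⟨m • a, by rw [map_nsmul, ha]⟩

/-- the matrix with one entry -/
def E1 (a b : Fin n) : Matrix (Fin n) (Fin n) K := Matrix.single a b 1

theorem cst_E1 (a b : Fin n) : Cst k (E1 a b : Matrix (Fin n) (Fin n) K) := by
  intro i j
  unfold E1
  rw [Matrix.single_apply]
  split_ifs
  · exact Derivation.map_one_eq_zero _
  · exact map_zero _

theorem th_th (w : Ω[K⁄k]) (a b : Fin n) (Y : Matrix (Fin n) (Fin n) (Frm k K)) :
    T (ι K w) (E1 a b) * Y * T (ι K w) (E1 a b) = 0 := by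
  ext i j
  rw [Matrix.mul_apply, Matrix.zero_apply]
  refine Finset.sum_eq_zero fun c _ => ?_
  rw [Matrix.mul_apply, Finset.sum_mul]
  refine Finset.sum_eq_zero fun e _ => ?_
  show (E1 a b : Matrix (Fin n) (Fin n) K) i e • ι K w * Y e c * ((E1 a b : Matrix (Fin n) (Fin n) K) c j • ι K w) = 0
  rw [smul_mul_assoc, smul_mul_assoc, mul_smul_comm, mul_assoc, mul_ι, ← mul_assoc, ι_sq_zero, zero_mul,
    smul_zero, smul_zero]

/-- expansion of the power -/
theorem pow_add_th {A : Matrix (Fin n) (Fin n) (Frm k K)} (w : Ω[K⁄k]) (a b : Fin n) (m : ℕ) :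
    (A + T (ι K w) (E1 a b)) ^ (m + 1) = A ^ (m + 1) +
      ∑ i ∈ range (m + 1), A ^ i * T (ι K w) (E1 a b) * A ^ (m - i) := by
  set θ := T (ι K w) (E1 a b : Matrix (Fin n) (Fin n) K) with hθ
  induction m with
  | zero =>
    rw [Finset.sum_range_one]
    simp
  | succ m ih =>
    rw [pow_succ, ih, add_mul, mul_add, mul_add, ← pow_succ, Finset.sum_range_succ _ (m + 1), Nat.sub_self, pow_zero,
      mul_one, Finset.sum_mul, Finset.sum_mul]
    have h1 : ∑ i ∈ range (m + 1), A ^ i * θ * A ^ (m - i) * θ = 0 := by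
      refine Finset.sum_eq_zero fun i _ => ?_
      rw [mul_assoc (A ^ i), mul_assoc (A ^ i), th_th, mul_zero]
    have h2 : ∑ i ∈ range (m + 1), A ^ i * θ * A ^ (m - i) * A = ∑ i ∈ range (m + 1), A ^ i * θ * A ^ (m + 1 - i) := by
      refine Finset.sum_congr rfl fun i hi => ?_
      rw [Finset.mem_range] at hi
      rw [mul_assoc (A ^ i * θ), ← pow_succ, show m - i + 1 = m + 1 - i by omega]
    rw [h1, h2]
    abel

/-- **Elementary gauge transformations.** -/
theorem inv_el {A A' : Matrix (Fin n) (Fin n) (Frm k K)} (hA : OneF A) (hF : Fl A)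
    {g : Matrix (Fin n) (Fin n) K} (hg : IsUnit g) (h : emb k g * A' = A * emb k g + dM (emb k g)) (w : Ω[K⁄k])
    (a b : Fin n) (hw : dd k K (ι K w) = 0) (hd : dM (emb k g) = T (ι K w) (E1 a b) * emb k g) (m : ℕ) :
    Ex ((A' ^ (2 * m + 3)).trace - (A ^ (2 * m + 3)).trace) := by
  obtain ⟨u, rfl⟩ := hg
  set G := emb k (u : Matrix (Fin n) (Fin n) K) with hG
  set H := emb k ((u⁻¹ : (Matrix (Fin n) (Fin n) K)ˣ) : Matrix (Fin n) (Fin n) K) with hH
  have e1 : G * H = 1 := by rw [hG, hH, ← emb_mul, Units.mul_inv, emb_one]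
  have e2 : H * G = 1 := by rw [hG, hH, ← emb_mul, Units.inv_mul, emb_one]
  set θ := T (ι K w) (E1 a b : Matrix (Fin n) (Fin n) K) with hθ
  have h1 : G * A' = (A + θ) * G := by rw [h, hd, add_mul]
  have h2 : ∀ j : ℕ, G * A' ^ j = (A + θ) ^ j * G := by
    intro j
    induction j with
    | zero => rw [pow_zero, pow_zero, mul_one, one_mul]
    | succ j ih => rw [pow_succ, ← mul_assoc, ih, mul_assoc, h1, ← mul_assoc, ← pow_succ]
  have h3 : (A' ^ (2 * m + 3)).trace = ((A + θ) ^ (2 * m + 3)).trace := by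
    have h4 : A' ^ (2 * m + 3) = H * ((A + θ) ^ (2 * m + 3) * G) := by
      rw [← h2, ← mul_assoc, e2, one_mul]
    rw [h4, tr_ev (Ev.emb _), mul_assoc, e1, mul_one]
  have hθo : Od θ := (one_T w _).od
  have h5 : ∀ i, i < 2 * m + 3 → (A ^ i * θ * A ^ (2 * m + 2 - i)).trace = (A ^ (2 * m + 2) * θ).trace := by
    intro i hi
    have h6 : (A ^ i * θ * A ^ (2 * m + 2 - i)).trace = (A ^ (2 * m + 2 - i) * (A ^ i * θ)).trace := by
      rcases Nat.even_or_odd' i with ⟨j, rfl | rfl⟩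
      · have e : 2 * m + 2 - 2 * j = 2 * (m + 1 - j) := by omega
        rw [e]
        exact (tr_ev (hA.od.pow _).1 _).symm
      · refine tr_ev ?_ _
        have h7 := (hA.od.pow j).2
        unfold Od at h7 hθo
        unfold Ev
        rw [sgM_mul, h7, hθo, neg_mul_neg]
    rw [h6, ← mul_assoc, ← pow_add, show 2 * m + 2 - i + i = 2 * m + 2 by omega]
  have h8 : Ex ((A ^ (2 * m + 2) * θ).trace) := by
    refine ⟨-(A ^ (2 * m + 1) * θ).trace, ?_⟩
    have h9 : dM θ = 0 := by rw [hθ, dM_T _ (cst_E1 a b), hw, T_zero_left]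
    rw [map_neg, ← tr_dM, dM_mulg, (Fl.pow hA hF m).2, h9, mul_zero, add_zero, neg_mul, Matrix.trace_neg, neg_neg]
  rw [h3, show 2 * m + 3 = 2 * m + 2 + 1 by rfl, pow_add_th, Matrix.trace_add, add_sub_cancel_left,
    Matrix.trace_sum, Finset.sum_congr rfl fun i hi => h5 i (Finset.mem_range.1 hi), Finset.sum_const]
  exact h8.nsmul _

end Pool.Agent.CFl
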