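import Pool.Agent.Lib.MP_7baa7a_ag.CF.Init
import Pool.Agent.Lib.MP_7baa7a_ag.CF.Inv

/-!
# The traces of the powers of the normal form
-/

set_option autoImplicit false

noncomputable section

namespace Pool.Agent.CFl

open ExteriorAlgebra Finset

variable {k K : Type} [Field k] [Field K] [Algebra k K] {n : ℕ}

/-! ## Homogeneous matrices -/

/-- homogeneous matrices -/
def Hg (d : ℤ) (M : Matrix (Fin n) (Fin n) K) : Prop := ∀ a b : ℕ, (b : ℤ) ≠ a + d → gt M a b = 0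

theorem Hg.mul {s t : ℤ} {M N : Matrix (Fin n) (Fin n) K} (hM : Hg s M) (hN : Hg t N) : Hg (s + t) (M * N) := by
  intro a b h
  by_cases hab : a < n ∧ b < n
  · rw [gt_mul _ _ _ _ hab.1 hab.2]
    refine Finset.sum_eq_zero fun c _ => ?_
    by_cases hc : (c : ℤ) = a + s
    · rw [hN c b (by omega), mul_zero]
    · rw [hM a c hc, zero_mul]
  · exact gt_out _ hab

theorem Hg.tr {d : ℤ} {M : Matrix (Fin n) (Fin n) K} (hM : Hg d M) (hd : d ≠ 0) : M.trace = 0 := by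
  rw [Matrix.trace]
  refine Finset.sum_eq_zero fun i _ => ?_
  rw [Matrix.diag_apply, ← gt_coe M i i]
  exact hM _ _ (by omega)

theorem hg_e : Hg (-1) (eM K n) := by
  intro a b h
  by_cases hab : a < n ∧ b < n
  · rw [gt_eM _ _ hab.1 hab.2, if_neg (by omega)]
  · exact gt_out _ hab

theorem hg_h : Hg 0 (hM K n) := by
  intro a b h
  by_cases hab : a < n ∧ b < n
  · rw [gt_hM _ _ hab.1 hab.2, if_neg (by omega)]
  · exact gt_out _ hab

theorem hg_f (t : ℕ) : Hg t (fM K n ^ t) := fun a b h => gt_fp_ne (by omega)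

theorem tr_h : (hM K n).trace = 0 := by
  rw [← com_ef, Matrix.trace_sub, Matrix.trace_mul_comm, sub_self]

theorem tr_f (t : ℕ) (ht : 1 ≤ t) : (fM K n ^ t).trace = 0 := (hg_f t).tr (by omega)

theorem tr_e : (eM K n).trace = 0 := hg_e.tr (by omega)

theorem tr_ee : (eM K n * eM K n).trace = 0 := (hg_e.mul hg_e).tr (by omega)

theorem tr_eh : (eM K n * hM K n).trace = 0 := (hg_e.mul hg_h).tr (by omega)

theorem tr_he : (hM K n * eM K n).trace = 0 := (hg_h.mul hg_e).tr (by omega)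

theorem tr_hf (t : ℕ) (ht : 1 ≤ t) : (hM K n * fM K n ^ t).trace = 0 := (hg_h.mul (hg_f t)).tr (by omega)

theorem tr_fh (t : ℕ) (ht : 1 ≤ t) : (fM K n ^ t * hM K n).trace = 0 := ((hg_f t).mul hg_h).tr (by omega)

theorem tr_ef (t : ℕ) : (eM K n * fM K n ^ t).trace = if t = 1 then (eM K n * fM K n).trace else 0 := by
  by_cases h : t = 1
  · rw [if_pos h, h, pow_one]
  · rw [if_neg h]
    exact (hg_e.mul (hg_f t)).tr (by omega)

theorem tr_fe (t : ℕ) : (fM K n ^ t * eM K n).trace = if t = 1 then (eM K n * fM K n).trace else 0 := by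
  rw [Matrix.trace_mul_comm, tr_ef]

theorem tr_hh : (hM K n * hM K n).trace = 2 * (eM K n * fM K n).trace := by
  have h1 := com_hf (K := K) (n := n) 1
  rw [pow_one] at h1
  have h2 : hM K n * hM K n = eM K n * (fM K n * hM K n) - fM K n * (eM K n * hM K n) := by
    nth_rewrite 1 [← com_ef]
    rw [sub_mul, mul_assoc, mul_assoc]
  rw [h2, Matrix.trace_sub, Matrix.trace_mul_comm (fM K n), mul_assoc, ← Matrix.trace_sub, ← mul_sub,
    ← neg_sub, h1, mul_neg, Matrix.trace_neg, mul_smul_comm, Matrix.trace_smul, smul_eq_mul]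
  push_cast
  ring

theorem six_sum (N : K) (m : ℕ) :
    6 * ∑ a ∈ range m, (a : K) * (N - a) = 3 * N * (m * (m - 1)) - m * (m - 1) * (2 * m - 1) := by
  induction m with
  | zero => simp
  | succ m ih =>
    rw [Finset.sum_range_succ, mul_add, ih]
    push_cast
    ring

theorem six_tr : 6 * (eM K n * fM K n).trace = (n : K) ^ 3 - n := by
  have h1 : (eM K n * fM K n).trace = ∑ a ∈ range n, (a : K) * (n - a) := by
    rw [Matrix.trace, ← Fin.sum_univ_eq_sum_range (fun a => (a : K) * (n - a)) n]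
    refine Finset.sum_congr rfl fun i _ => ?_
    rw [Matrix.diag_apply, ← gt_coe (eM K n * fM K n) i i, gt_mul _ _ _ _ i.2 i.2]
    obtain ⟨i, hi⟩ := i
    show ∑ c ∈ range n, gt (eM K n) i c * gt (fM K n) c i = (i : K) * (n - i)
    cases i with
    | zero =>
      rw [Nat.cast_zero, zero_mul]
      refine Finset.sum_eq_zero fun c hc => ?_
      rw [Finset.mem_range] at hc
      rw [gt_eM _ _ hi hc, if_neg (by omega), zero_mul]
    | succ i =>
      rw [Finset.sum_eq_single i]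
      · rw [gt_eM _ _ hi (by omega), if_pos rfl, one_mul, gt_fM, gt_fN _ _ (by omega) hi, if_pos rfl]
        push_cast [Nat.cast_sub hi.le]
        ring
      · intro c hc hci
        rw [Finset.mem_range] at hc
        rw [gt_eM _ _ hi hc, if_neg (by omega), zero_mul]
      · intro h
        rw [Finset.mem_range] at h
        omega
  rw [h1, six_sum]
  ring

/-! ## The square of the normal form -/

theorem tr_T (v : Frm k K) (M : Matrix (Fin n) (Fin n) K) : (T v M).trace = M.trace • v := by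
  rw [Matrix.trace, Matrix.trace, Finset.sum_smul]
  rfl

theorem dM_S (ζ γ η : Ω[K⁄k]) (φ : ℕ → Ω[K⁄k]) {m : ℕ} (hm : 1 ≤ m) :
    dM (S n ζ γ η φ m) = T (dd k K (ι K ζ)) 1 + T (dd k K (ι K γ)) (eM K n) + T (dd k K (ι K η)) (hM K n) +
      ∑ t ∈ Ico 1 m, T (dd k K (ι K (φ t))) (fM K n ^ t) := by
  induction m, hm using Nat.le_induction with
  | base =>
    rw [S_one, Ico_self, Finset.sum_empty, add_zero, dM_add, dM_add, dM_T _ Cst.one, dM_T _ (cst_e k),
      dM_T _ (cst_h k)]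
  | succ m hm ih =>
    rw [S_succ _ _ _ _ hm, dM_add, ih, dM_T _ (cst_fp k m), Finset.sum_Ico_succ_top hm, ← add_assoc]

theorem sq_S (ζ γ η : Ω[K⁄k]) (φ : ℕ → Ω[K⁄k]) (hφ : ∀ t, 2 ≤ t → ι K γ * ι K (φ t) = 0) {m : ℕ}
    (hm : 2 ≤ m) :
    S n ζ γ η φ m * S n ζ γ η φ m = T (-((2 : K) • (ι K γ * ι K η))) (eM K n) +
      T (ι K γ * ι K (φ 1)) (hM K n) +
      ∑ t ∈ Ico 1 m, T (-((2 * (t : K)) • (ι K η * ι K (φ t)))) (fM K n ^ t) := by
  have h1 := curv (n := n) ζ γ η φ hφ (m := m) (by omega)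
  rw [dM_S ζ γ η φ (by omega)] at h1
  unfold Cu at h1
  rw [Finset.sum_ite_eq' (Ico 1 m) 1, if_pos (Finset.mem_Ico.2 ⟨le_rfl, hm⟩), sub_eq_add_neg, T_add_left (dd k K (ι K γ)),
    T_add_left (dd k K (ι K η))] at h1
  have h2 : ∑ t ∈ Ico 1 m, T (dd k K (ι K (φ t)) - (2 * (t : K)) • (ι K η * ι K (φ t))) (fM K n ^ t) =
      ∑ t ∈ Ico 1 m, T (dd k K (ι K (φ t))) (fM K n ^ t) +
      ∑ t ∈ Ico 1 m, T (-((2 * (t : K)) • (ι K η * ι K (φ t)))) (fM K n ^ t) := by
    rw [← Finset.sum_add_distrib]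
    refine Finset.sum_congr rfl fun t _ => ?_
    rw [sub_eq_add_neg, T_add_left]
  rw [h2] at h1
  rw [eq_sub_of_add_eq' h1]
  abel

theorem l1 (a b c : Ω[K⁄k]) : (ι K a * ι K b) * (ι K a * ι K c) = (0 : Frm k K) := by
  rw [mul_assoc, ← mul_assoc (ι K b), ι_swap b a, neg_mul, mul_assoc, mul_neg, ← mul_assoc, ι_sq_zero, zero_mul,
    neg_zero]

theorem l3 (a b c : Ω[K⁄k]) : (ι K a * ι K b) * (ι K b * ι K c) = (0 : Frm k K) := by
  rw [mul_assoc, ← mul_assoc (ι K b), ι_sq_zero, zero_mul, mul_zero]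

theorem l2 (a b c : Ω[K⁄k]) : (ι K a * ι K b) * (ι K c * ι K b) = (0 : Frm k K) := by
  rw [ι_swap c b, mul_neg, l3, neg_zero]

theorem l4 (a b c : Ω[K⁄k]) : (ι K a * ι K b) * (ι K c * ι K a) = (0 : Frm k K) := by
  rw [ι_swap c a, mul_neg, l1, neg_zero]

theorem l5 (a b c d : Ω[K⁄k]) (h : ι K a * ι K d = (0 : Frm k K)) :
    (ι K a * ι K b) * (ι K c * ι K d) = (0 : Frm k K) := by
  rw [ι_swap a b, neg_mul, mul_assoc, ← mul_assoc (ι K a), ι_swap a c, neg_mul, mul_assoc, h, mul_zero, neg_zero,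
    mul_zero, neg_zero]

theorem l6 (a b c d : Ω[K⁄k]) (h : ι K c * ι K b = (0 : Frm k K)) :
    (ι K a * ι K b) * (ι K c * ι K d) = (0 : Frm k K) := by
  rw [mul_assoc, ← mul_assoc (ι K b), ι_swap b c, h, neg_zero, zero_mul, mul_zero]

theorem nil4 {p q : Frm k K} {r : ℕ → Frm k K} (s : Finset ℕ) (A B : Matrix (Fin n) (Fin n) K)
    (C : ℕ → Matrix (Fin n) (Fin n) K) (h1 : p * p = 0) (h2 : p * q = 0) (h3 : q * p = 0) (h4 : q * q = 0)
    (h5 : ∀ t ∈ s, p * r t = 0) (h6 : ∀ t ∈ s, r t * p = 0) (h7 : ∀ t ∈ s, q * r t = 0)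
    (h8 : ∀ t ∈ s, r t * q = 0) (h9 : ∀ t ∈ s, ∀ u ∈ s, r t * r u = 0) :
    (T p A + T q B + ∑ t ∈ s, T (r t) (C t)) * (T p A + T q B + ∑ t ∈ s, T (r t) (C t)) = 0 := by
  have a1 : T p A * ∑ t ∈ s, T (r t) (C t) = 0 := by
    rw [Finset.mul_sum]
    exact Finset.sum_eq_zero fun t ht => by rw [T_mul_T, h5 t ht, T_zero_left]
  have a2 : (∑ t ∈ s, T (r t) (C t)) * T p A = 0 := by
    rw [Finset.sum_mul]
    exact Finset.sum_eq_zero fun t ht => by rw [T_mul_T, h6 t ht, T_zero_left]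
  have a3 : T q B * ∑ t ∈ s, T (r t) (C t) = 0 := by
    rw [Finset.mul_sum]
    exact Finset.sum_eq_zero fun t ht => by rw [T_mul_T, h7 t ht, T_zero_left]
  have a4 : (∑ t ∈ s, T (r t) (C t)) * T q B = 0 := by
    rw [Finset.sum_mul]
    exact Finset.sum_eq_zero fun t ht => by rw [T_mul_T, h8 t ht, T_zero_left]
  have a5 : (∑ t ∈ s, T (r t) (C t)) * ∑ t ∈ s, T (r t) (C t) = 0 := by
    rw [Finset.sum_mul]
    refine Finset.sum_eq_zero fun t ht => ?_
    rw [Finset.mul_sum]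
    exact Finset.sum_eq_zero fun u hu => by rw [T_mul_T, h9 t ht u hu, T_zero_left]
  rw [add_mul, add_mul, mul_add, mul_add, mul_add, mul_add, mul_add, mul_add, a1, a2, a3, a4, a5, T_mul_T, T_mul_T,
    T_mul_T, T_mul_T, h1, h2, h3, h4, T_zero_left, T_zero_left, T_zero_left, T_zero_left]
  simp

/-- **The fourth power of the normal form vanishes.** -/
theorem S_four (ζ γ η : Ω[K⁄k]) (ψ : ℕ → Ω[K⁄k]) (hψ : ∀ t, 2 ≤ t → ι K γ * ι K (ψ t) = 0) {m : ℕ}
    (hm : 2 ≤ m) : S n ζ γ η ψ m ^ 4 = 0 := by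
  rw [show 4 = 2 * 2 by rfl, pow_mul, pow_two, pow_two, sq_S ζ γ η ψ hψ hm]
  refine nil4 _ _ _ _ ?_ ?_ ?_ ?_ ?_ ?_ ?_ ?_ ?_
  · rw [neg_mul_neg, smul_mul_smul_comm, l1, smul_zero]
  · rw [neg_mul, smul_mul_assoc, l1, smul_zero, neg_zero]
  · rw [mul_neg, mul_smul_comm, l1, smul_zero, neg_zero]
  · exact l1 _ _ _
  · intro t _
    rw [neg_mul_neg, smul_mul_smul_comm, l3, smul_zero]
  · intro t _
    rw [neg_mul_neg, smul_mul_smul_comm, l4, smul_zero]
  · intro t ht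
    rw [Finset.mem_Ico] at ht
    rw [mul_neg, mul_smul_comm]
    by_cases h : t = 1
    · rw [h, l2, smul_zero, neg_zero]
    · rw [l5 _ _ _ _ (hψ t (by omega)), smul_zero, neg_zero]
  · intro t ht
    rw [Finset.mem_Ico] at ht
    rw [neg_mul, smul_mul_assoc]
    by_cases h : t = 1
    · rw [h, l2, smul_zero, neg_zero]
    · rw [l6 _ _ _ _ (hψ t (by omega)), smul_zero, neg_zero]
  · intro t _ u _
    rw [neg_mul_neg, smul_mul_smul_comm, l1, smul_zero]

theorem tr_TT (v w : Frm k K) (M N : Matrix (Fin n) (Fin n) K) : (T v M * T w N).trace = (M * N).trace • (v * w) := by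
  rw [T_mul_T, tr_T]

/-- **The trace of the cube.** -/
theorem tr_S3 (ζ γ η : Ω[K⁄k]) (ψ : ℕ → Ω[K⁄k]) (hψ : ∀ t, 2 ≤ t → ι K γ * ι K (ψ t) = 0) {m : ℕ}
    (hm : 2 ≤ m) :
    (S n ζ γ η ψ m ^ 3).trace = -(((n : K) ^ 3 - n) • (ι K γ * ι K η * ι K (ψ 1))) := by
  have hsum : ∀ c : ℕ → Frm k K, (∑ t ∈ Ico 1 m, (if t = 1 then (eM K n * fM K n).trace else 0) • c t) =
      (eM K n * fM K n).trace • c 1 := by
    intro c
    rw [Finset.sum_eq_single 1]
    · rw [if_pos rfl]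
    · intro t _ ht
      rw [if_neg ht, zero_smul]
    · intro h
      exact absurd (Finset.mem_Ico.2 ⟨le_rfl, hm⟩) h
  have e1 : ∀ p : Frm k K, (T p (eM K n) * S n ζ γ η ψ m).trace = (eM K n * fM K n).trace • (p * ι K (ψ 1)) := by
    intro p
    unfold S
    rw [mul_add, mul_add, mul_add, Finset.mul_sum, Matrix.trace_add, Matrix.trace_add, Matrix.trace_add,
      Matrix.trace_sum, tr_TT, tr_TT, tr_TT, mul_one, tr_e, tr_ee, tr_eh, zero_smul, zero_smul, zero_smul,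
      add_zero, add_zero, zero_add, ← hsum fun t => p * ι K (ψ t)]
    exact Finset.sum_congr rfl fun t _ => by rw [tr_TT, tr_ef]
  have e2 : ∀ q : Frm k K, (T q (hM K n) * S n ζ γ η ψ m).trace =
      (2 * (eM K n * fM K n).trace) • (q * ι K η) := by
    intro q
    unfold S
    rw [mul_add, mul_add, mul_add, Finset.mul_sum, Matrix.trace_add, Matrix.trace_add, Matrix.trace_add,
      Matrix.trace_sum, tr_TT, tr_TT, tr_TT, mul_one, tr_h, tr_he, tr_hh, zero_smul, zero_smul,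
      zero_add, zero_add, Finset.sum_eq_zero, add_zero]
    intro t ht
    rw [Finset.mem_Ico] at ht
    rw [tr_TT, tr_hf t ht.1, zero_smul]
  have e3 : ∀ (r : Frm k K) (t : ℕ), 1 ≤ t → (T r (fM K n ^ t) * S n ζ γ η ψ m).trace =
      (if t = 1 then (eM K n * fM K n).trace else 0) • (r * ι K γ) := by
    intro r t ht
    unfold S
    rw [mul_add, mul_add, mul_add, Finset.mul_sum, Matrix.trace_add, Matrix.trace_add, Matrix.trace_add,
      Matrix.trace_sum, tr_TT, tr_TT, tr_TT, mul_one, tr_f t ht, tr_fe, tr_fh t ht, zero_smul, zero_smul,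
      zero_add, add_zero, Finset.sum_eq_zero, add_zero]
    intro u hu
    rw [Finset.mem_Ico] at hu
    rw [tr_TT, ← pow_add, tr_f _ (by omega), zero_smul]
  rw [pow_succ, pow_two, sq_S ζ γ η ψ hψ hm, add_mul, add_mul, Finset.sum_mul, Matrix.trace_add, Matrix.trace_add,
    Matrix.trace_sum, e1, e2, Finset.sum_congr rfl fun t ht => e3 _ t (Finset.mem_Ico.1 ht).1,
    hsum fun t => -((2 * (t : K)) • (ι K η * ι K (ψ t))) * ι K γ]
  have f1 : ι K γ * ι K (ψ 1) * ι K η = -(ι K γ * ι K η * ι K (ψ 1)) := by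
    rw [mul_assoc, ι_swap (ψ 1) η, mul_neg, mul_assoc]
  have f2 : ι K η * ι K (ψ 1) * ι K γ = ι K γ * ι K η * ι K (ψ 1) := by
    rw [mul_assoc, ι_swap (ψ 1) γ, mul_neg, ← mul_assoc, ι_swap η γ, neg_mul, neg_neg]
  rw [neg_mul, neg_mul, smul_mul_assoc, smul_mul_assoc, f1, f2, ← six_tr]
  push_cast
  module

end Pool.Agent.CFl
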