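import Pool.Agent.Lib.MP_7baa7a_ag.CF.Br
import Pool.Agent.Lib.MP_7baa7a_ag.CF.Stmt

/-!
# The exterior derivative: existence and uniqueness
-/

set_option autoImplicit false

noncomputable section

namespace Pool.Agent.CFl

variable {k K : Type} [Field k] [Field K] [Algebra k K]

theorem deRham_dd : CFE.IsDeRham (k := k) (K := K) (dd k K) :=
  ⟨fun x y => map_add (dd k K) x y, fun f => isDR_dd.fn f, fun f => isDR_dd.df f, fun x y => isDR_dd.leib x y⟩

theorem deRham_uniq {d : CFE.Forms k K → CFE.Forms k K} (h : CFE.IsDeRham d) : d = dd k K := by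
  have h1 : CFD.IsDeRham (k := k) (K := K) (AddMonoidHom.mk' d h.add) := ⟨h.zero, h.one, h.mul⟩
  have h2 := isDR_uniq h1
  funext x
  exact congrArg (fun f => f x) (congrArg (fun f : CFD.Forms k K →+ CFD.Forms k K => (f : CFD.Forms k K → CFD.Forms k K)) h2)

end Pool.Agent.CFl
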